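import Pool.Agent.H267R3.PR.Defs

/-! # Ramsey theorem for additive families of maps of a finite set, with a polynomial bound -/

set_option autoImplicit false

namespace Pool.Agent.H267R3.PR

open Finset

variable {Q : Type} [Fintype Q] [DecidableEq Q]

/-- `F a b` is the composition of the steps number `a, …, b - 1`. -/
def IsAdd (F : ℕ → ℕ → Q → Q) : Prop :=
  (∀ a q, F a a q = q) ∧ ∀ a b c, a ≤ b → b ≤ c → ∀ q, F a c q = F b c (F a b q)

/-- The rank of a map. -/
def rk (g : Q → Q) : ℕ := (univ.image g).card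

theorem rk_comp_le_right (g h : Q → Q) : rk (fun q => g (h q)) ≤ rk h := by
  unfold rk
  have : univ.image (fun q => g (h q)) = (univ.image h).image g := by
    rw [Finset.image_image]; rfl
  rw [this]
  exact card_image_le

theorem rk_comp_le_left (g h : Q → Q) : rk (fun q => g (h q)) ≤ rk g := by
  unfold rk
  apply card_le_card
  intro y hy
  obtain ⟨q, _, rfl⟩ := mem_image.1 hy
  exact mem_image_of_mem _ (mem_univ _)

theorem stable {F : ℕ → ℕ → Q → Q} (hF : IsAdd F) (s K ρ k : ℕ)
    (hK : k * (Fintype.card (Q → Q) * Fintype.card (Q → Q)) + 1 < K)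
    (h1 : ∀ i, s ≤ i → i < s + K → rk (F i (i + 1)) ≤ ρ) (h2 : ρ ≤ rk (F s (s + K))) :
    ∃ C : Finset ℕ, C ⊆ Ioo s (s + K) ∧ k + 1 ≤ C.card ∧
      ∃ e : Q → Q, ∀ a ∈ C, ∀ b ∈ C, a < b → F a b = e := by
  obtain ⟨hid, hadd⟩ := hF
  -- pigeonhole
  have hp : (univ : Finset ((Q → Q) × (Q → Q))).card * k < (Ioo s (s + K)).card := by
    rw [card_univ, Fintype.card_prod, Nat.card_Ioo]
    have : (Fintype.card (Q → Q) * Fintype.card (Q → Q)) * k
      = k * (Fintype.card (Q → Q) * Fintype.card (Q → Q)) := mul_comm _ _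
    rw [this]
    omega
  obtain ⟨⟨u, v⟩, _, huv⟩ := exists_lt_card_fiber_of_mul_lt_card_of_maps_to
    (f := fun a => (F s a, F a (s + K))) (fun a _ => mem_univ _) hp
  refine ⟨_, filter_subset _ _, huv, ?_⟩
  -- rank facts
  have hrank : ∀ a b, s ≤ a → a < b → b ≤ s + K → rk (F a b) ≤ ρ := by
    intro a b ha hab hb
    have e1 : F a b = fun q => F (a + 1) b (F a (a + 1) q) := by
      funext q
      exact hadd a (a + 1) b (by omega) (by omega) q
    rw [e1]
    exact (rk_comp_le_right _ _).trans (h1 a ha (by omega))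
  have key : ∀ a ∈ filter (fun x => (F s x, F x (s + K)) = (u, v)) (Ioo s (s + K)),
      ∀ b ∈ filter (fun x => (F s x, F x (s + K)) = (u, v)) (Ioo s (s + K)), a < b →
      (∀ x, ∃ q, F a b x = u q) ∧ (∀ x, v (F a b x) = v x) ∧ Set.InjOn v (univ.image u) := by
    intro a ha b hb hab
    rw [mem_filter, mem_Ioo, Prod.mk.injEq] at ha hb
    obtain ⟨⟨ha1, ha2⟩, ha3, ha4⟩ := ha
    obtain ⟨⟨hb1, hb2⟩, hb3, hb4⟩ := hb
    have f1 : ∀ q, F a b (u q) = u q := by
      intro q
      have := hadd s a b ha1.le hab.le q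
      rw [ha3, hb3] at this
      exact this.symm
    have f2 : ∀ x, v (F a b x) = v x := by
      intro x
      have := hadd a b (s + K) hab.le hb2.le x
      rw [ha4, hb4] at this
      exact this.symm
    have hu : rk u ≤ ρ := by rw [← ha3]; exact hrank s a le_rfl ha1 ha2.le
    have hvu : F s (s + K) = fun q => v (u q) := by
      funext q
      have := hadd s a (s + K) ha1.le ha2.le q
      rw [ha3, ha4] at this
      exact this
    have himg : univ.image (fun q => v (u q)) = (univ.image u).image v := by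
      rw [Finset.image_image]; rfl
    rw [hvu] at h2
    have hu2 : (univ.image u).card ≤ ((univ.image u).image v).card := by
      have : ρ ≤ ((univ.image u).image v).card := by
        rw [← himg]; exact h2
      exact hu.trans this
    have hinj : Set.InjOn v (univ.image u : Finset Q) :=
      card_image_iff.1 (le_antisymm card_image_le hu2)
    have hsub : univ.image u ⊆ univ.image (F a b) := by
      intro y hy
      obtain ⟨q, _, rfl⟩ := mem_image.1 hy
      exact mem_image.2 ⟨u q, mem_univ _, f1 q⟩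
    have hρu : ρ ≤ (univ.image u).card := by
      have := h2
      unfold rk at this
      rw [himg] at this
      exact this.trans card_image_le
    have heq : univ.image u = univ.image (F a b) :=
      eq_of_subset_of_card_le hsub ((hrank a b ha1.le hab hb2.le).trans hρu)
    refine ⟨fun x => ?_, f2, hinj⟩
    have : F a b x ∈ univ.image u := by
      rw [heq]; exact mem_image_of_mem _ (mem_univ _)
    obtain ⟨q, _, hq⟩ := mem_image.1 this
    exact ⟨q, hq.symm⟩
  -- all the `F a b` are equal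
  by_cases hex : ∃ a ∈ filter (fun x => (F s x, F x (s + K)) = (u, v)) (Ioo s (s + K)),
      ∃ b ∈ filter (fun x => (F s x, F x (s + K)) = (u, v)) (Ioo s (s + K)), a < b
  · obtain ⟨a0, ha0, b0, hb0, hab0⟩ := hex
    refine ⟨F a0 b0, fun a ha b hb hab => ?_⟩
    obtain ⟨k1, k2, k3⟩ := key a0 ha0 b0 hb0 hab0
    obtain ⟨l1, l2, _⟩ := key a ha b hb hab
    funext x
    obtain ⟨q, hq⟩ := k1 x
    obtain ⟨q', hq'⟩ := l1 x
    rw [hq, hq']
    apply k3
    · simp
    · simp
    · rw [← hq, ← hq', k2, l2]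
  · refine ⟨fun q => q, fun a ha b hb hab => ?_⟩
    exact absurd ⟨a, ha, b, hb, hab⟩ hex

theorem additive_ramsey [Nonempty Q] (K k : ℕ)
    (hK : k * (Fintype.card (Q → Q) * Fintype.card (Q → Q)) + 1 < K) (ρ : ℕ) :
    ∀ F : ℕ → ℕ → Q → Q, IsAdd F → (∀ i < K ^ ρ, rk (F i (i + 1)) ≤ ρ) →
      ∃ C : Finset ℕ, C ⊆ range (K ^ ρ + 1) ∧ k + 1 ≤ C.card ∧
        ∃ e : Q → Q, ∀ a ∈ C, ∀ b ∈ C, a < b → F a b = e := by
  induction ρ with
  | zero =>
    intro F hF h
    exfalso
    have := h 0 (by simp)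
    unfold rk at this
    have h2 : (univ.image (F 0 (0 + 1))).Nonempty := univ_nonempty.image _
    have := h2.card_pos
    omega
  | succ ρ ih =>
    intro F hF h
    by_cases hb : ∀ i < K ^ ρ, rk (F (i * K) ((i + 1) * K)) ≤ ρ
    · have hF' : IsAdd (fun i j => F (i * K) (j * K)) :=
        ⟨fun a q => hF.1 _ q, fun a b c hab hbc q =>
          hF.2 _ _ _ (Nat.mul_le_mul_right _ hab) (Nat.mul_le_mul_right _ hbc) q⟩
      obtain ⟨C, hC1, hC2, e, he⟩ := ih _ hF' hb
      have hKpos : 0 < K := by omega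
      refine ⟨C.image (fun i => i * K), ?_, ?_, e, ?_⟩
      · intro x hx
        obtain ⟨i, hi, rfl⟩ := mem_image.1 hx
        have := mem_range.1 (hC1 hi)
        rw [mem_range, pow_succ]
        have h3 : i * K ≤ K ^ ρ * K := Nat.mul_le_mul_right _ (by omega)
        omega
      · rw [card_image_of_injective _ (fun a b hab => Nat.eq_of_mul_eq_mul_right hKpos hab)]
        exact hC2
      · intro a ha b hb' hab
        obtain ⟨i, hi, rfl⟩ := mem_image.1 ha
        obtain ⟨j, hj, rfl⟩ := mem_image.1 hb'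
        exact he i hi j hj (lt_of_mul_lt_mul_right hab (Nat.zero_le _))
    · push Not at hb
      obtain ⟨i, hi, hri⟩ := hb
      have hle : (i + 1) * K ≤ K ^ (ρ + 1) := by
        rw [pow_succ]
        exact Nat.mul_le_mul_right _ hi
      have hmul : (i + 1) * K = i * K + K := by ring
      obtain ⟨C, hC1, hC2, e, he⟩ := stable hF (i * K) K (ρ + 1) k hK
        (fun j _ hj2 => h j (by omega)) (by rw [← hmul]; exact hri)
      refine ⟨C, ?_, hC2, e, he⟩
      intro x hx
      have := mem_Ioo.1 (hC1 hx)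
      rw [mem_range]
      omega

/-- A sequence of cut points. -/
theorem cuts [Nonempty Q] (K k : ℕ)
    (hK : k * (Fintype.card (Q → Q) * Fintype.card (Q → Q)) + 1 < K)
    (F : ℕ → ℕ → Q → Q) (hF : IsAdd F) :
    ∃ (c : ℕ → ℕ) (e : Q → Q), (∀ i j, i < j → j ≤ k → c i < c j ∧ F (c i) (c j) = e) ∧
      c k ≤ K ^ Fintype.card Q := by
  obtain ⟨C, hC1, hC2, e, he⟩ := additive_ramsey K k hK (Fintype.card Q) F hF
    (fun i _ => card_le_univ _)
  obtain ⟨D, hDC, hD⟩ := exists_subset_card_eq hC2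
  let f := D.orderEmbOfFin hD
  have hfD : ∀ i, f i ∈ D := fun i => orderEmbOfFin_mem D hD i
  refine ⟨fun i => if h : i < k + 1 then f ⟨i, h⟩ else 0, e, ?_, ?_⟩
  · intro i j hij hj
    have h1 : i < k + 1 := by omega
    have h2 : j < k + 1 := by omega
    simp only [h1, h2, dif_pos]
    have hlt : f ⟨i, h1⟩ < f ⟨j, h2⟩ := f.strictMono hij
    exact ⟨hlt, he _ (hDC (hfD _)) _ (hDC (hfD _)) hlt⟩
  · have h2 : k < k + 1 := by omega
    simp only [h2, dif_pos]
    have := mem_range.1 (hC1 (hDC (hfD ⟨k, h2⟩)))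
    omega

end Pool.Agent.H267R3.PR
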