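import Mathlib

/-!
# Colourings computed by programs of bounded width reading all digits in parallel
-/

set_option autoImplicit false

namespace Pool.Agent.H267R3.PR

/-- Number `t` of the `m` base-`b` digits of `x < b ^ m`, counted from the most significant one
(`t = 0`). -/
def digit (b m t x : ℕ) : ℕ := x / b ^ (m - 1 - t) % b

/-- The state of the program after reading the first `t` columns of digits of the numbers
`v 0, v 1, …`; column number `t` consists of the digits number `t` of the numbers `v i`. -/
def run {r : ℕ} {Q : Type} (b m : ℕ) (step : ℕ → Q → (Fin r → ℕ) → Q) (start : Q)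
    (v : Fin r → ℕ) : ℕ → Q
  | 0 => start
  | t + 1 => step t (run b m step start v t) (fun i => digit b m t (v i))

/-- The colouring `c` of the `r`-subsets of `{0, …, b ^ m - 1}` is computed in width `w`: there is
a program with at most `w` states which reads, for `t = 0, …, m - 1`, the column of the digits
number `t` of the `r` vertices (listed in increasing order), changes its state (by a rule that can
depend on `t`), and whose last state determines the colour. -/
def ComputedInWidth {κ : Type} (b m r w : ℕ) (c : Finset ℕ → κ) : Prop :=
  ∃ (Q : Type) (_ : Fintype Q) (start : Q) (step : ℕ → Q → (Fin r → ℕ) → Q) (out : Q → κ),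
    Fintype.card Q ≤ w ∧
      ∀ v : Fin r → ℕ, StrictMono v → (∀ i, v i < b ^ m) →
        c (Finset.univ.image v) = out (run b m step start v m)

/-- The colouring `c` of the `r`-subsets of `{0, …, b ^ m - 1}` is computed by a finite automaton
with at most `w` states: as in `ComputedInWidth`, but the rule does not depend on `t`. -/
def ComputedByAutomaton {κ : Type} (b m r w : ℕ) (c : Finset ℕ → κ) : Prop :=
  ∃ (Q : Type) (_ : Fintype Q) (start : Q) (step : Q → (Fin r → ℕ) → Q) (out : Q → κ),
    Fintype.card Q ≤ w ∧
      ∀ v : Fin r → ℕ, StrictMono v → (∀ i, v i < b ^ m) →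
        c (Finset.univ.image v) = out (run b m (fun _ => step) start v m)

/-- All `r`-subsets of `S` have the same colour. -/
def Homogeneous {κ : Type} (r : ℕ) (c : Finset ℕ → κ) (S : Finset ℕ) : Prop :=
  ∀ A ⊆ S, ∀ B ⊆ S, A.card = r → B.card = r → c A = c B

end Pool.Agent.H267R3.PR
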