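import Pool.Agent.H267R3.PR.Defs

/-!
# Colourings computed by programs of bounded width reading the digits in any order
-/

set_option autoImplicit false

namespace Pool.Agent.H267R3.PR

/-- As `run`, but the digits are read in the order `π 0, π 1, …`. -/
def runO {r : ℕ} {Q : Type} (b m : ℕ) (π : ℕ → ℕ) (step : ℕ → Q → (Fin r → ℕ) → Q) (start : Q)
    (v : Fin r → ℕ) : ℕ → Q
  | 0 => start
  | t + 1 => step t (runO b m π step start v t) (fun i => digit b m (π t) (v i))

/-- The colouring `c` of the `r`-subsets of `{0, …, b ^ m - 1}` is computed in width `w` in the order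
`π` of the digits: there is a program with at most `w` states which reads, for `t = 0, …, m - 1`,
the column of the digits number `π t` of the `r` vertices (listed in increasing order), changes its
state (by a rule that can depend on `t`), and whose last state determines the colour. -/
def ComputedInOrder {κ : Type} (b m r w : ℕ) (π : ℕ → ℕ) (c : Finset ℕ → κ) : Prop :=
  ∃ (Q : Type) (_ : Fintype Q) (start : Q) (step : ℕ → Q → (Fin r → ℕ) → Q) (out : Q → κ),
    Fintype.card Q ≤ w ∧
      ∀ v : Fin r → ℕ, StrictMono v → (∀ i, v i < b ^ m) →
        c (Finset.univ.image v) = out (runO b m π step start v m)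

end Pool.Agent.H267R3.PR
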