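import Pool.Agent.H267R3.PR.Add

/-! # A weighted factorisation forest for additive families of maps of a finite set -/

set_option autoImplicit false

namespace Pool.Agent.H267R3.PR

open Finset

variable {Q : Type} [Fintype Q] [DecidableEq Q]

/-- Closure properties of the relation that the interval `[i, j)` has a code of weight `v`. -/
structure Hyp (F : ℕ → ℕ → Q → Q) (P : ℕ → ℕ → ℕ → Prop) (M C : ℕ) : Prop where
  add : IsAdd F
  base : ∀ i, i < M → P i (i + 1) 1
  mono : ∀ i j v v', v' ≤ v → P i j v → P i j v'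
  ext : ∀ i j i' j' v, i' ≤ i → i ≤ j → j ≤ j' → j' ≤ M → P i j v → P i' j' v
  comb : ∀ (c : ℕ → ℕ) (K : ℕ) (e : Q → Q) (A : Finset ℕ) (k v : ℕ),
    (∀ a b, a < b → b ≤ K → c a < c b ∧ F (c a) (c b) = e) → c K ≤ M → A ⊆ range K →
    (∀ a ∈ A, P (c a) (c (a + 1)) v) → 1 ≤ k → C * k ≤ A.card → P (c 0) (c K) (k * v)

/-- The interval `[i, j)` has a code of weight at least `(j - i) / Λ ^ h`. -/
def Lv (P : ℕ → ℕ → ℕ → Prop) (Λ i j h : ℕ) : Prop :=
  ∃ v, 1 ≤ v ∧ v ≤ j - i ∧ j - i ≤ v * Λ ^ h ∧ P i j v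

theorem Lv.up {P : ℕ → ℕ → ℕ → Prop} {Λ i j h h' : ℕ} (hΛ : 1 ≤ Λ) (hh : h ≤ h')
    (H : Lv P Λ i j h) : Lv P Λ i j h' := by
  obtain ⟨v, h1, h2, h3, h4⟩ := H
  exact ⟨v, h1, h2, h3.trans (Nat.mul_le_mul_left _ (Nat.pow_le_pow_right hΛ hh)), h4⟩

theorem Lv.ext {F : ℕ → ℕ → Q → Q} {P : ℕ → ℕ → ℕ → Prop} {M C Λ i j i' j' h : ℕ}
    (H : Hyp F P M C) (hΛ : 3 ≤ Λ) (hi : i' ≤ i) (hj : j ≤ j') (hM : j' ≤ M)
    (h3 : j' - i' ≤ 3 * (j - i)) (hL : Lv P Λ i j h) : Lv P Λ i' j' (h + 1) := by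
  obtain ⟨v, h1, h2, h4, h5⟩ := hL
  have hij : i ≤ j := by omega
  refine ⟨v, h1, by omega, ?_, H.ext _ _ _ _ _ hi hij hj hM h5⟩
  calc j' - i' ≤ 3 * (j - i) := h3
    _ ≤ Λ * (v * Λ ^ h) := Nat.mul_le_mul hΛ h4
    _ = v * Λ ^ (h + 1) := by rw [pow_succ]; ring

theorem tele (c : ℕ → ℕ) (K : ℕ) : c K ≤ c 0 + ∑ a ∈ range K, (c (a + 1) - c a) := by
  induction K with
  | zero => simp
  | succ K ih =>
    rw [sum_range_succ]
    omega

/-- The idempotent node. -/
theorem node {F : ℕ → ℕ → Q → Q} {P : ℕ → ℕ → ℕ → Prop} {M C Λ : ℕ} (H : Hyp F P M C)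
    (hC : 1 ≤ C) (hΛ : 4 * C * (Nat.log 2 M + 1) ≤ Λ) (c : ℕ → ℕ) (K h : ℕ) (hK : 1 ≤ K)
    (e : Q → Q) (hc : ∀ a b, a < b → b ≤ K → c a < c b ∧ F (c a) (c b) = e) (hcM : c K ≤ M)
    (hL : ∀ a < K, Lv P Λ (c a) (c (a + 1)) h) : Lv P Λ (c 0) (c K) (h + 1) := by
  choose! v hv1 hv2 hv3 hv4 using hL
  set n := c K - c 0 with hn
  have hc0K : c 0 < c K := (hc 0 K (by omega) le_rfl).1
  set ℓ := Nat.log 2 M with hℓ
  have hcmono : ∀ a, a ≤ K → c a ≤ c K := by
    intro a ha
    rcases ha.lt_or_eq with h | h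
    · exact (hc a K h le_rfl).1.le
    · rw [h]
  have hvM : ∀ a < K, v a ≤ M := by
    intro a ha
    have := hv2 a ha
    have := hcmono (a + 1) (by omega)
    omega
  have hcls : ∀ a < K, Nat.log 2 (v a) ≤ ℓ := fun a ha => Nat.log_mono_right (hvM a ha)
  have hsum : n ≤ (∑ a ∈ range K, v a) * Λ ^ h := by
    have h1 := tele c K
    have h2 : ∑ a ∈ range K, (c (a + 1) - c a) ≤ ∑ a ∈ range K, v a * Λ ^ h :=
      sum_le_sum (fun a ha => hv3 a (mem_range.1 ha))
    rw [← sum_mul] at h2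
    omega
  set A : ℕ → Finset ℕ := fun s => (range K).filter (fun a => Nat.log 2 (v a) = s) with hA
  have hAsum : ∑ a ∈ range K, v a ≤ ∑ s ∈ range (ℓ + 1), (A s).card * 2 ^ (s + 1) := by
    calc ∑ a ∈ range K, v a
        = ∑ s ∈ range (ℓ + 1), ∑ a ∈ (range K).filter (fun a => Nat.log 2 (v a) = s), v a := by
          refine (sum_fiberwise_of_maps_to (fun a ha => ?_) _).symm
          rw [mem_range]
          have := hcls a (mem_range.1 ha)
          omega
      _ ≤ ∑ s ∈ range (ℓ + 1), (A s).card * 2 ^ (s + 1) := by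
          refine sum_le_sum (fun s _ => ?_)
          rw [← smul_eq_mul]
          refine sum_le_card_nsmul _ _ _ (fun a ha => ?_)
          have h1 := (mem_filter.1 ha).2
          rw [← h1]
          exact (Nat.lt_pow_succ_log_self (by norm_num) _).le
  obtain ⟨s, hs, hbig⟩ : ∃ s ∈ range (ℓ + 1),
      ∑ a ∈ range K, v a ≤ (ℓ + 1) * ((A s).card * 2 ^ (s + 1)) := by
    by_contra hcon
    push Not at hcon
    have h1 : ∑ s ∈ range (ℓ + 1), (ℓ + 1) * ((A s).card * 2 ^ (s + 1))
        < ∑ _s ∈ range (ℓ + 1), ∑ a ∈ range K, v a :=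
      sum_lt_sum_of_nonempty ⟨0, by simp⟩ hcon
    rw [← mul_sum, sum_const, card_range, smul_eq_mul] at h1
    exact absurd hAsum (not_le.2 (lt_of_mul_lt_mul_left h1 (Nat.zero_le _)))
  have hR : 1 ≤ (A s).card := by
    by_contra h0
    have h1 : (A s).card = 0 := by omega
    rw [h1] at hbig
    simp only [zero_mul, mul_zero, nonpos_iff_eq_zero] at hbig
    rw [hbig] at hsum
    omega
  have hAP : ∀ a ∈ A s, P (c a) (c (a + 1)) (2 ^ s) := by
    intro a ha
    obtain ⟨h1, h2⟩ := mem_filter.1 ha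
    have h1' := mem_range.1 h1
    refine H.mono _ _ _ _ ?_ (hv4 a h1')
    rw [← h2]
    exact Nat.pow_log_le_self 2 (by have := hv1 a h1'; omega)
  -- it is enough to find a large weight
  have fin : ∀ V : ℕ, 1 ≤ V → P (c 0) (c K) V → (A s).card * 2 ^ s ≤ 2 * C * V →
      Lv P Λ (c 0) (c K) (h + 1) := by
    intro V hV1 hV hV2
    have hnV : n ≤ V * Λ ^ (h + 1) := by
      calc n ≤ (∑ a ∈ range K, v a) * Λ ^ h := hsum
        _ ≤ ((ℓ + 1) * ((A s).card * 2 ^ (s + 1))) * Λ ^ h := Nat.mul_le_mul_right _ hbig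
        _ = (2 * (ℓ + 1) * ((A s).card * 2 ^ s)) * Λ ^ h := by rw [pow_succ]; ring
        _ ≤ (2 * (ℓ + 1) * (2 * C * V)) * Λ ^ h := by gcongr
        _ = (4 * C * (ℓ + 1)) * V * Λ ^ h := by ring
        _ ≤ Λ * V * Λ ^ h := by gcongr
        _ = V * Λ ^ (h + 1) := by rw [pow_succ]; ring
    have hΛ1 : 1 ≤ Λ ^ (h + 1) := Nat.one_le_pow _ _ (by nlinarith)
    refine ⟨min V n, by omega, min_le_right _ _, ?_, H.mono _ _ _ _ (min_le_left _ _) hV⟩
    rcases le_total V n with h1 | h1
    · rw [min_eq_left h1]; exact hnV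
    · rw [min_eq_right h1]; nlinarith
  by_cases hRC : C ≤ (A s).card
  · set k := (A s).card / C with hk
    have hk1 : 1 ≤ k := (Nat.one_le_div_iff (by omega)).2 hRC
    have hk2 : C * k ≤ (A s).card := Nat.mul_div_le _ _
    have hk3 : (A s).card < C * (k + 1) := by
      have := Nat.lt_mul_div_succ (A s).card (show 0 < C by omega)
      exact this
    refine fin (k * 2 ^ s) (Nat.mul_pos hk1 (by positivity))
      (H.comb c K e (A s) k (2 ^ s) hc hcM (filter_subset _ _) hAP hk1 hk2) ?_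
    have h4 : (A s).card ≤ 2 * C * k := by nlinarith
    calc (A s).card * 2 ^ s ≤ (2 * C * k) * 2 ^ s := Nat.mul_le_mul_right _ h4
      _ = 2 * C * (k * 2 ^ s) := by ring
  · obtain ⟨a, ha⟩ := card_pos.1 (show 0 < (A s).card by omega)
    have ha' := mem_range.1 (mem_filter.1 ha).1
    have hPa : P (c 0) (c K) (2 ^ s) := by
      refine H.ext _ _ _ _ _ ?_ (hc a (a + 1) (by omega) ha').1.le (hcmono _ ha') hcM (hAP a ha)
      rcases Nat.eq_zero_or_pos a with h | h
      · rw [h]
      · exact (hc 0 a h ha'.le).1.le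
    refine fin (2 ^ s) (Nat.one_le_two_pow) hPa ?_
    have h5 : (A s).card ≤ 2 * C := by omega
    exact Nat.mul_le_mul_right _ h5

/-- Cut points of the same type. -/
theorem same_type {F : ℕ → ℕ → Q → Q} (hF : IsAdd F) (p ρ : ℕ)
    (h1 : ∀ i < p, rk (F i (i + 1)) ≤ ρ) (h2 : ρ ≤ rk (F 0 p)) (u v : Q → Q) (a b a' b' : ℕ)
    (ha : 0 < a) (hab : a < b) (hb : b < p) (ha' : 0 < a') (hab' : a' < b') (hb' : b' < p)
    (hta : F 0 a = u ∧ F a p = v) (htb : F 0 b = u ∧ F b p = v)
    (hta' : F 0 a' = u ∧ F a' p = v) (htb' : F 0 b' = u ∧ F b' p = v) :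
    F a b = F a' b' := by
  obtain ⟨hid, hadd⟩ := hF
  have hrank : ∀ a b, a < b → b ≤ p → rk (F a b) ≤ ρ := by
    intro a b hab hb
    have e1 : F a b = fun q => F (a + 1) b (F a (a + 1) q) := by
      funext q
      exact hadd a (a + 1) b (by omega) (by omega) q
    rw [e1]
    exact (rk_comp_le_right _ _).trans (h1 a (by omega))
  have key : ∀ a b, 0 < a → a < b → b < p → (F 0 a = u ∧ F a p = v) → (F 0 b = u ∧ F b p = v) →
      (∀ x, ∃ q, F a b x = u q) ∧ (∀ x, v (F a b x) = v x) ∧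
        Set.InjOn v (univ.image u : Finset Q) := by
    intro a b ha hab hb ⟨ha3, ha4⟩ ⟨hb3, hb4⟩
    have f1 : ∀ q, F a b (u q) = u q := by
      intro q
      have := hadd 0 a b (Nat.zero_le _) hab.le q
      rw [ha3, hb3] at this
      exact this.symm
    have f2 : ∀ x, v (F a b x) = v x := by
      intro x
      have := hadd a b p hab.le hb.le x
      rw [ha4, hb4] at this
      exact this.symm
    have hu : rk u ≤ ρ := by rw [← ha3]; exact hrank 0 a ha (by omega)
    have hvu : F 0 p = fun q => v (u q) := by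
      funext q
      have := hadd 0 a p (Nat.zero_le _) (by omega) q
      rw [ha3, ha4] at this
      exact this
    have himg : univ.image (fun q => v (u q)) = (univ.image u).image v := by
      rw [Finset.image_image]; rfl
    have h2' := h2
    rw [hvu] at h2'
    have hu2 : (univ.image u).card ≤ ((univ.image u).image v).card := by
      have : ρ ≤ ((univ.image u).image v).card := by
        rw [← himg]; exact h2'
      exact hu.trans this
    have hinj : Set.InjOn v (univ.image u : Finset Q) :=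
      card_image_iff.1 (le_antisymm card_image_le hu2)
    have hsub : univ.image u ⊆ univ.image (F a b) := by
      intro y hy
      obtain ⟨q, _, rfl⟩ := mem_image.1 hy
      exact mem_image.2 ⟨u q, mem_univ _, f1 q⟩
    have hρu : ρ ≤ (univ.image u).card := by
      have := h2'
      unfold rk at this
      rw [himg] at this
      exact this.trans card_image_le
    have heq : univ.image u = univ.image (F a b) :=
      eq_of_subset_of_card_le hsub ((hrank a b hab hb.le).trans hρu)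
    refine ⟨fun x => ?_, f2, hinj⟩
    have : F a b x ∈ univ.image u := by
      rw [heq]; exact mem_image_of_mem _ (mem_univ _)
    obtain ⟨q, _, hq⟩ := mem_image.1 this
    exact ⟨q, hq.symm⟩
  obtain ⟨k1, k2, k3⟩ := key a b ha hab hb hta htb
  obtain ⟨l1, l2, _⟩ := key a' b' ha' hab' hb' hta' htb'
  funext x
  obtain ⟨q, hq⟩ := k1 x
  obtain ⟨q', hq'⟩ := l1 x
  rw [hq, hq']
  apply k3
  · simp
  · simp
  · rw [← hq, ← hq', k2, l2]

/-- Regions of constant rank. -/
theorem const_rank {F : ℕ → ℕ → Q → Q} {P : ℕ → ℕ → ℕ → Prop} {M C Λ : ℕ} (H : Hyp F P M C)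
    (hC : 1 ≤ C) (hΛ : 4 * C * (Nat.log 2 M + 1) ≤ Λ) (t : ℕ → ℕ) (p h ρ : ℕ)
    (ht : ∀ a b, a < b → b ≤ p → t a < t b) (htM : t p ≤ M)
    (h1 : ∀ a < p, rk (F (t a) (t (a + 1))) ≤ ρ) (h2 : ρ ≤ rk (F (t 0) (t p)))
    (hL : ∀ a < p, Lv P Λ (t a) (t (a + 1)) h) (n : ℕ) :
    ∀ T : Finset ((Q → Q) × (Q → Q)), T.card = n → ∀ a1 b1, a1 < b1 → b1 ≤ p →
      (∀ a, a1 < a → a < b1 → (F (t 0) (t a), F (t a) (t p)) ∈ T) →
      Lv P Λ (t a1) (t b1) (h + 2 * n) := by
  have hΛ3 : 3 ≤ Λ := by nlinarith [Nat.zero_le (Nat.log 2 M)]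
  have htmono : ∀ a b, a ≤ b → b ≤ p → t a ≤ t b := by
    intro a b hab hb
    rcases hab.lt_or_eq with h | h
    · exact (ht a b h hb).le
    · rw [h]
  set F' : ℕ → ℕ → Q → Q := fun i j => F (t (min i p)) (t (min j p)) with hF'
  have hF'add : IsAdd F' := by
    refine ⟨fun a q => H.add.1 _ q, fun a b c hab hbc q => H.add.2 _ _ _ ?_ ?_ q⟩
    · exact htmono _ _ (by omega) (by omega)
    · exact htmono _ _ (by omega) (by omega)
  have hF'eq : ∀ i j, i ≤ p → j ≤ p → F' i j = F (t i) (t j) := by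
    intro i j hi hj
    simp only [hF', min_eq_left hi, min_eq_left hj]
  induction n with
  | zero =>
    intro T hT a1 b1 hab hb hty
    have hT0 : T = ∅ := card_eq_zero.1 hT
    have : b1 = a1 + 1 := by
      by_contra hne
      have := hty (a1 + 1) (by omega) (by omega)
      rw [hT0] at this
      exact absurd this (notMem_empty _)
    subst this
    exact hL a1 (by omega)
  | succ n ih =>
    intro T hT a1 b1 hab hb hty
    by_cases hone : b1 = a1 + 1
    · subst hone
      exact (hL a1 (by omega)).up (by omega) (by omega)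
    set τ : ℕ → (Q → Q) × (Q → Q) := fun a => (F (t 0) (t a), F (t a) (t p)) with hτ
    set τ0 := τ (a1 + 1) with hτ0
    have hτ0T : τ0 ∈ T := hty (a1 + 1) (by omega) (by omega)
    have hT' : (T.erase τ0).card = n := by rw [card_erase_of_mem hτ0T, hT]; rfl
    set B := (Ioo a1 b1).filter (fun a => τ a = τ0) with hB
    have hBne : B.Nonempty := ⟨a1 + 1, mem_filter.2 ⟨mem_Ioo.2 ⟨by omega, by omega⟩, rfl⟩⟩
    have hBio : ∀ a ∈ B, a1 < a ∧ a < b1 ∧ τ a = τ0 := by
      intro a ha
      obtain ⟨h3, h4⟩ := mem_filter.1 ha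
      exact ⟨(mem_Ioo.1 h3).1, (mem_Ioo.1 h3).2, h4⟩
    have hsub : ∀ x y, x < y → y ≤ b1 → a1 ≤ x → (∀ a, x < a → a < y → a ∉ B) →
        Lv P Λ (t x) (t y) (h + 2 * n) := by
      intro x y hxy hy hx hno
      refine ih (T.erase τ0) hT' x y hxy (by omega) ?_
      intro a ha1 ha2
      refine mem_erase.2 ⟨?_, hty a (by omega) (by omega)⟩
      intro h0
      exact hno a ha1 ha2 (mem_filter.2 ⟨mem_Ioo.2 ⟨by omega, by omega⟩, h0⟩)
    set m0 := B.min' hBne with hm0
    set m1 := B.max' hBne with hm1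
    have hm0B := hBio m0 (B.min'_mem hBne)
    have hm1B := hBio m1 (B.max'_mem hBne)
    have hm01 : m0 ≤ m1 := B.min'_le _ (B.max'_mem hBne)
    have hLeft := hsub a1 m0 hm0B.1 (by omega) le_rfl (fun a _ ha2 haB => by
      have := B.min'_le a haB; omega)
    have hRight := hsub m1 b1 hm1B.2.1 le_rfl (by omega) (fun a ha1 _ haB => by
      have := B.le_max' a haB; omega)
    have e1 : t a1 < t m0 := ht _ _ hm0B.1 (by omega)
    have e2 : t m0 ≤ t m1 := htmono _ _ hm01 (by omega)
    have e3 : t m1 < t b1 := ht _ _ hm1B.2.1 hb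
    have hb1M : t b1 ≤ M := (htmono _ _ hb le_rfl).trans htM
    by_cases c1 : t b1 - t a1 ≤ 3 * (t m0 - t a1)
    · exact (Lv.ext H hΛ3 le_rfl (by omega) hb1M c1 hLeft).up (by omega) (by omega)
    by_cases c2 : t b1 - t a1 ≤ 3 * (t b1 - t m1)
    · exact (Lv.ext H hΛ3 (by omega) le_rfl hb1M c2 hRight).up (by omega) (by omega)
    have c3 : t b1 - t a1 ≤ 3 * (t m1 - t m0) := by omega
    have hlt : m0 < m1 := by
      rcases hm01.lt_or_eq with h | h
      · exact h
      · rw [h] at c3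
        omega
    -- the middle part
    obtain ⟨K, hK⟩ : ∃ K, B.card = K + 1 := ⟨B.card - 1, by have := hBne.card_pos; omega⟩
    let g := B.orderEmbOfFin hK
    have hgB : ∀ i, g i ∈ B := fun i => orderEmbOfFin_mem B hK i
    set γ : ℕ → ℕ := fun i => if hi : i < K + 1 then g ⟨i, hi⟩ else 0 with hγ
    have hγB : ∀ i, i ≤ K → γ i ∈ B := by
      intro i hi
      simp only [hγ, (by omega : i < K + 1), dif_pos]
      exact hgB _
    have hγlt : ∀ i j, i < j → j ≤ K → γ i < γ j := by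
      intro i j hij hj
      simp only [hγ, (by omega : i < K + 1), (by omega : j < K + 1), dif_pos]
      exact g.strictMono hij
    have hγ0 : γ 0 = m0 := by
      simp only [hγ, (by omega : 0 < K + 1), dif_pos]
      exact orderEmbOfFin_zero hK (by omega)
    have hγK : γ K = m1 := by
      simp only [hγ, (by omega : K < K + 1), dif_pos]
      have := orderEmbOfFin_last hK (by omega : 0 < K + 1)
      simpa using this
    have hK1 : 1 ≤ K := by
      by_contra h0
      have : K = 0 := by omega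
      rw [this] at hγK
      omega
    have hmid : Lv P Λ (t (γ 0)) (t (γ K)) (h + 2 * n + 1) := by
      refine node H hC hΛ (fun i => t (γ i)) K (h + 2 * n) hK1 (F (t (γ 0)) (t (γ 1))) ?_ ?_ ?_
      · intro a b hab' hb'
        have ha3 := hBio _ (hγB a (by omega))
        have hb3 := hBio _ (hγB b hb')
        have h03 := hBio _ (hγB 0 (by omega))
        have h13 := hBio _ (hγB 1 hK1)
        have hltab := hγlt a b hab' hb'
        refine ⟨ht _ _ hltab (by omega), ?_⟩
        have tt : ∀ x, x < p → τ x = τ0 → F' 0 x = τ0.1 ∧ F' x p = τ0.2 := by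
          intro x hx hx0
          rw [hF'eq 0 x (by omega) hx.le, hF'eq x p hx.le le_rfl, ← hx0]
          exact ⟨rfl, rfl⟩
        have := same_type hF'add p ρ (fun i hi => by
            rw [hF'eq i (i + 1) (by omega) (by omega)]; exact h1 i hi)
          (by rw [hF'eq 0 p (by omega) le_rfl]; exact h2) τ0.1 τ0.2 (γ a) (γ b) (γ 0) (γ 1)
          (by omega) hltab (by omega) (by omega) (hγlt 0 1 (by omega) hK1) (by omega)
          (tt _ (by omega) ha3.2.2) (tt _ (by omega) hb3.2.2) (tt _ (by omega) h03.2.2)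
          (tt _ (by omega) h13.2.2)
        rw [hF'eq _ _ (by omega) (by omega), hF'eq _ _ (by omega) (by omega)] at this
        exact this
      · have := hBio _ (hγB K le_rfl)
        exact (htmono _ _ (by omega) le_rfl).trans htM
      · intro a ha
        have ha3 := hBio _ (hγB a (by omega))
        have hb3 := hBio _ (hγB (a + 1) (by omega))
        refine hsub _ _ (hγlt a (a + 1) (by omega) (by omega)) (by omega) (by omega) ?_
        intro x hx1 hx2 hxB
        -- `x` is a value of `γ`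
        obtain ⟨i, hi⟩ : ∃ i : Fin (K + 1), g i = x := by
          have : x ∈ Set.range g := by
            rw [range_orderEmbOfFin]
            exact hxB
          exact this
        have hxi : γ i = x := by
          simp only [hγ, i.2, dif_pos]
          exact hi
        rcases Nat.lt_or_ge a i with h5 | h5
        · rcases Nat.lt_or_ge (a + 1) i with h6 | h6
          · have := hγlt (a + 1) i h6 (by omega); omega
          · have : (i : ℕ) = a + 1 := by omega
            rw [this] at hxi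
            omega
        · rcases h5.lt_or_eq with h6 | h6
          · have := hγlt i a h6 (by omega); omega
          · rw [h6] at hxi
            omega
    rw [hγ0, hγK] at hmid
    exact (Lv.ext H hΛ3 e1.le e3.le hb1M c3 hmid).up (by omega) (by omega)

end Pool.Agent.H267R3.PR
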