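import Pool.Agent.H267R3.PR.Forest

/-! # A weighted factorisation forest for additive families of maps of a finite set: recursion -/

set_option autoImplicit false

namespace Pool.Agent.H267R3.PR

open Finset

variable {Q : Type} [Fintype Q] [DecidableEq Q]

theorem greedy {F : ℕ → ℕ → Q → Q} {P : ℕ → ℕ → ℕ → Prop} {M Λ h ρ : ℕ}
    (hbase : ∀ i, i < M → P i (i + 1) 1) (hΛ : 1 ≤ Λ)
    (hH : ∀ i j, i < j → j ≤ M → ρ + 1 ≤ rk (F i (j - 1)) → Lv P Λ i j h) (len : ℕ) :
    ∀ i j, j - i = len → i < j → j ≤ M → ∃ (p : ℕ) (t : ℕ → ℕ), t 0 = i ∧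
      (∀ a < p, t a < t (a + 1) ∧ t (a + 1) ≤ j - 1 ∧ rk (F (t a) (t (a + 1))) ≤ ρ ∧
        Lv P Λ (t a) (t (a + 1)) h) ∧ t p < j ∧ Lv P Λ (t p) j h := by
  classical
  induction len using Nat.strong_induction_on with
  | _ len ih =>
    intro i j hlen hij hj
    have hone : ∀ i, i < M → Lv P Λ i (i + 1) h := by
      intro i hi
      refine ⟨1, le_rfl, by omega, ?_, hbase i hi⟩
      have : 1 ≤ Λ ^ h := Nat.one_le_pow _ _ hΛ
      omega
    by_cases hex : ∃ t, i < t ∧ t ≤ j - 1 ∧ rk (F i t) ≤ ρ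
    · set t1 := Nat.find hex with ht1
      obtain ⟨h1, h2, h3⟩ := Nat.find_spec hex
      have hmin : ∀ t, i < t → t < t1 → ρ + 1 ≤ rk (F i t) := by
        intro t ht htt
        by_contra hcon
        exact Nat.find_min hex htt ⟨ht, by omega, by omega⟩
      have hpiece : Lv P Λ i t1 h := by
        by_cases hs : t1 = i + 1
        · rw [hs]; exact hone i (by omega)
        · exact hH i t1 h1 (by omega) (hmin (t1 - 1) (by omega) (by omega))
      obtain ⟨p, t, ht0, ht, htp, hlast⟩ := ih (j - t1) (by omega) t1 j rfl (by omega) hj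
      refine ⟨p + 1, fun a => if a = 0 then i else t (a - 1), by simp, ?_, ?_, ?_⟩
      · intro a ha
        rcases Nat.eq_zero_or_pos a with h0 | h0
        · subst h0
          simp only [if_true, zero_add, one_ne_zero, if_false, Nat.sub_self, ht0]
          exact ⟨h1, h2, h3, hpiece⟩
        · obtain ⟨a', rfl⟩ : ∃ a', a = a' + 1 := ⟨a - 1, by omega⟩
          simp only [Nat.add_eq_zero_iff, one_ne_zero, and_false, if_false, Nat.add_sub_cancel]
          exact ht a' (by omega)
      · simp only [Nat.add_eq_zero_iff, one_ne_zero, and_false, if_false, Nat.add_sub_cancel]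
        exact htp
      · simp only [Nat.add_eq_zero_iff, one_ne_zero, and_false, if_false, Nat.add_sub_cancel]
        exact hlast
    · push Not at hex
      refine ⟨0, fun _ => i, rfl, fun a ha => absurd ha (by omega), hij, ?_⟩
      by_cases hs : j = i + 1
      · rw [hs]; exact hone i (by omega)
      · exact hH i j hij hj (hex (j - 1) (by omega) le_rfl)

theorem rk_le_card (g : Q → Q) : rk g ≤ Fintype.card Q := by
  unfold rk
  exact card_le_univ _

theorem rk_sub {F : ℕ → ℕ → Q → Q} (hF : IsAdd F) {i j i' j' : ℕ} (h1 : i ≤ i') (h2 : i' ≤ j')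
    (h3 : j' ≤ j) : rk (F i j) ≤ rk (F i' j') := by
  have e1 : F i j = fun q => F i' j (F i i' q) := by
    funext q
    exact hF.2 i i' j h1 (h2.trans h3) q
  have e2 : F i' j = fun q => F j' j (F i' j' q) := by
    funext q
    exact hF.2 i' j' j h2 h3 q
  rw [e1]
  refine (rk_comp_le_left _ _).trans ?_
  rw [e2]
  exact rk_comp_le_right _ _

/-- One rank. -/
theorem rank_step {F : ℕ → ℕ → Q → Q} {P : ℕ → ℕ → ℕ → Prop} {M C Λ h ρ : ℕ} (H : Hyp F P M C)
    (hC : 1 ≤ C) (hΛ : 4 * C * (Nat.log 2 M + 1) ≤ Λ)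
    (hH : ∀ i j, i < j → j ≤ M → ρ + 1 ≤ rk (F i (j - 1)) → Lv P Λ i j h) :
    ∀ i j, i < j → j ≤ M → ρ ≤ rk (F i (j - 1)) →
      Lv P Λ i j (h + 2 * Fintype.card ((Q → Q) × (Q → Q)) + 1) := by
  intro i j hij hj hρ
  have hΛ3 : 3 ≤ Λ := by nlinarith [Nat.zero_le (Nat.log 2 M)]
  obtain ⟨p, t, ht0, ht, htp, hlast⟩ := greedy H.base (by omega) hH (j - i) i j rfl hij hj
  rcases Nat.eq_zero_or_pos p with hp | hp
  · subst hp
    rw [ht0] at hlast
    exact hlast.up (by omega) (by omega)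
  have htlt : ∀ a b, a < b → b ≤ p → t a < t b := by
    intro a b hab hb
    induction b, hab using Nat.le_induction with
    | base => exact (ht a (by omega)).1
    | succ b hab' ih => exact (ih (by omega)).trans (ht b (by omega)).1
  have ht0p : t 0 < t p := htlt 0 p hp le_rfl
  have htpj : t p ≤ j - 1 := by
    obtain ⟨p', rfl⟩ : ∃ p', p = p' + 1 := ⟨p - 1, by omega⟩
    exact (ht p' (by omega)).2.1
  have hreg := const_rank H hC hΛ t p h ρ htlt (by omega) (fun a ha => (ht a ha).2.2.1)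
    (by
      refine hρ.trans ?_
      rw [ht0]
      exact rk_sub H.add le_rfl (by omega) htpj)
    (fun a ha => (ht a ha).2.2.2) (Fintype.card ((Q → Q) × (Q → Q))) univ card_univ 0 p hp le_rfl
    (fun a _ _ => mem_univ _)
  rw [ht0] at hreg ht0p
  by_cases c1 : j - i ≤ 3 * (t p - i)
  · exact Lv.ext H hΛ3 le_rfl (by omega) hj c1 hreg
  · exact (Lv.ext H hΛ3 (by omega) le_rfl hj (by omega) hlast).up (by omega) (by omega)

/-- The factorisation forest. -/
theorem forest {F : ℕ → ℕ → Q → Q} {P : ℕ → ℕ → ℕ → Prop} {M C Λ : ℕ} (H : Hyp F P M C)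
    (hC : 1 ≤ C) (hΛ : 4 * C * (Nat.log 2 M + 1) ≤ Λ) (hM : 1 ≤ M) :
    Lv P Λ 0 M ((Fintype.card Q + 1) * (2 * Fintype.card ((Q → Q) × (Q → Q)) + 1)) := by
  set T := 2 * Fintype.card ((Q → Q) × (Q → Q)) + 1 with hT
  have key : ∀ s ≤ Fintype.card Q + 1, ∀ i j, i < j → j ≤ M →
      Fintype.card Q + 1 - s ≤ rk (F i (j - 1)) → Lv P Λ i j (s * T) := by
    intro s
    induction s with
    | zero =>
      intro _ i j _ _ h
      have := rk_le_card (F i (j - 1))
      omega
    | succ s ih =>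
      intro hs i j hij hj h
      have ih' := ih (by omega)
      have := rank_step H hC hΛ (ρ := Fintype.card Q + 1 - (s + 1)) (h := s * T)
        (fun i j hij hj h => ih' i j hij hj (by omega)) i j hij hj h
      have e : (s + 1) * T = s * T + 2 * Fintype.card ((Q → Q) × (Q → Q)) + 1 := by
        rw [add_mul, one_mul, hT]
        ring
      rw [e]
      exact this
  exact key (Fintype.card Q + 1) le_rfl 0 M (by omega) le_rfl (by omega)

end Pool.Agent.H267R3.PR
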