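import Pool.Agent.H267R3.PR.Pair
import Pool.Agent.H267R3.PR.Add

/-! # The Hales-Jewett theorem for colourings computed by finite automata -/

set_option autoImplicit false

namespace Pool.Agent.H267R3.PR.HJ

open Finset Pool.Agent.H267R3.PR

variable {A Q : Type} [Fintype Q] [DecidableEq Q]

/-- The map of a word. -/
def act (step : Q → A → Q) (W : List A) : Q → Q := fun q => W.foldl step q

omit [Fintype Q] [DecidableEq Q] in
theorem act_append (step : Q → A → Q) (U V : List A) (q : Q) :
    act step (U ++ V) q = act step V (act step U q) := by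
  simp [act]

theorem greedyW (step : Q → A → Q) (ρ : ℕ) : ∀ W : List A, rk (act step W) = ρ → 1 ≤ ρ →
    ∃ W' : List A, W'.length + 1 ≤ (W.length + 1) * 2 ^ (ρ - 1) ∧
      ∀ a, rk (act step W') ≤ rk (act step (W' ++ a :: W')) := by
  induction ρ using Nat.strong_induction_on with
  | _ ρ ih =>
    intro W hW hρ
    by_cases h : ∀ a, rk (act step W) ≤ rk (act step (W ++ a :: W))
    · exact ⟨W, Nat.le_mul_of_pos_right _ (by positivity), h⟩
    · push Not at h
      obtain ⟨a, ha⟩ := h
      have hpos : 1 ≤ rk (act step (W ++ a :: W)) := by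
        by_contra h0
        have h1 : rk (act step (W ++ a :: W)) = 0 := by omega
        unfold rk at h1
        rw [card_eq_zero, image_eq_empty] at h1
        have h2 : rk (act step W) = 0 := by unfold rk; rw [h1]; simp
        omega
      obtain ⟨W', h1, h2⟩ := ih _ (by omega) (W ++ a :: W) rfl hpos
      refine ⟨W', ?_, h2⟩
      have hlen : (W ++ a :: W).length + 1 = 2 * (W.length + 1) := by
        simp only [List.length_append, List.length_cons]
        ring
      rw [hlen] at h1
      obtain ⟨s, hs⟩ : ∃ s, ρ - 1 = s + 1 := ⟨ρ - 2, by omega⟩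
      rw [hs, pow_succ]
      have h3 : 2 ^ (rk (act step (W ++ a :: W)) - 1) ≤ 2 ^ s :=
        Nat.pow_le_pow_right (by norm_num) (by omega)
      calc W'.length + 1 ≤ 2 * (W.length + 1) * 2 ^ (rk (act step (W ++ a :: W)) - 1) := h1
        _ ≤ 2 * (W.length + 1) * 2 ^ s := Nat.mul_le_mul_left _ h3
        _ = (W.length + 1) * (2 ^ s * 2) := by ring

/-- `N` copies of a template. -/
def tmpl (W : List A) : ℕ → List (Option A)
  | 0 => []
  | n + 1 => none :: (W.map some ++ tmpl W n)

theorem tmpl_length (W : List A) (n : ℕ) : (tmpl W n).length = n * (W.length + 1) := by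
  induction n with
  | zero => simp [tmpl]
  | succ n ih =>
    simp only [tmpl, List.length_cons, List.length_append, List.length_map, ih]
    ring

omit [Fintype Q] [DecidableEq Q] in
theorem act_tmpl (step : Q → A → Q) (W : List A) (a : A) (n : ℕ) (q : Q) :
    act step ((tmpl W n).map (fun o => o.getD a)) q = (act step (a :: W))^[n] q := by
  induction n generalizing q with
  | zero => rfl
  | succ n ih =>
    have e : (tmpl W (n + 1)).map (fun o => o.getD a)
        = (a :: W) ++ (tmpl W n).map (fun o => o.getD a) := by
      simp only [tmpl, List.map_cons, List.map_append, List.map_map, Option.getD_none,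
        List.cons_append]
      congr 2
      conv_rhs => rw [← List.map_id W]
      apply List.map_congr_left
      intro x _
      rfl
    rw [e, act_append, ih, Function.iterate_succ_apply]

/-- The colouring `c` of the words of length `n` is computed by an automaton with at most `w`
states, which reads the letters in the order `σ 0, …, σ (n - 1)`. -/
def Computed {κ : Type} (n w : ℕ) (c : (Fin n → A) → κ) : Prop :=
  ∃ (Q : Type) (_ : Fintype Q) (start : Q) (step : Q → A → Q) (out : Q → κ)
    (σ : Equiv.Perm (Fin n)), Fintype.card Q ≤ w ∧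
      ∀ x : Fin n → A, c x = out ((List.ofFn (fun t => x (σ t))).foldl step start)

theorem hj {κ : Type} [Nonempty A] (n w : ℕ)
    (hn : 2 ^ (w - 1) * ((Finset.Icc 1 w).lcm id + 1) ≤ n + 1)
    (c : (Fin n → A) → κ) (hc : Computed n w c) :
    ∃ (l : Combinatorics.Line A (Fin n)) (k : κ), ∀ a : A, c (l a) = k := by
  classical
  obtain ⟨Q, _, start, step, out, σ, hQ, hcomp⟩ := hc
  have hQ1 : 1 ≤ Fintype.card Q := Fintype.card_pos_iff.2 ⟨start⟩
  set N := (Finset.Icc 1 w).lcm id with hNdef
  have hN : 1 ≤ N := by
    rw [Nat.one_le_iff_ne_zero, hNdef, Ne, Finset.lcm_eq_zero_iff]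
    simp
  have hdiv : ∀ d, 1 ≤ d → d ≤ Fintype.card Q → d ∣ N := by
    intro d h1 h2
    exact Finset.dvd_lcm (f := id) (Finset.mem_Icc.2 ⟨h1, h2.trans hQ⟩)
  have hrk0 : rk (act step ([] : List A)) = Fintype.card Q := by
    have : act step ([] : List A) = id := rfl
    rw [this]
    unfold rk
    rw [image_id, card_univ]
  obtain ⟨W, hWlen, hW⟩ := greedyW step (Fintype.card Q) ([] : List A) hrk0 hQ1
  have hWlen' : W.length + 1 ≤ 2 ^ (w - 1) := by
    simp only [List.length_nil, zero_add, one_mul] at hWlen
    exact hWlen.trans (Nat.pow_le_pow_right (by norm_num) (by omega))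
  -- the maps `h_a` permute the image of `W`
  set I := univ.image (act step W) with hI
  have himg : ∀ a, I.image (act step (a :: W)) = I := by
    intro a
    have h1 : univ.image (act step (W ++ a :: W)) = I.image (act step (a :: W)) := by
      rw [hI, image_image]
      congr 1
      funext q
      exact act_append step W (a :: W) q
    have h2 : univ.image (act step (W ++ a :: W)) ⊆ I := by
      intro y hy
      obtain ⟨q, _, rfl⟩ := mem_image.1 hy
      have e : W ++ a :: W = (W ++ [a]) ++ W := by simp
      rw [e, act_append]
      exact mem_image_of_mem _ (mem_univ _)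
    rw [← h1]
    exact eq_of_subset_of_card_le h2 (hW a)
  have hinj : ∀ a, Set.InjOn (act step (a :: W)) I := fun a =>
    card_image_iff.1 (by rw [himg a])
  have hmaps : ∀ a, ∀ q ∈ I, act step (a :: W) q ∈ I := by
    intro a q hq
    have := mem_image_of_mem (act step (a :: W)) hq
    rwa [himg a] at this
  have hit : ∀ a k, (∀ q ∈ I, (act step (a :: W))^[k] q ∈ I) ∧
      Set.InjOn ((act step (a :: W))^[k]) I := by
    intro a k
    induction k with
    | zero => exact ⟨fun q hq => hq, fun x _ y _ h => h⟩
    | succ k ih =>
      refine ⟨fun q hq => ?_, fun x hx y hy h => ?_⟩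
      · rw [Function.iterate_succ_apply]
        exact ih.1 _ (hmaps a q hq)
      · rw [Function.iterate_succ_apply, Function.iterate_succ_apply] at h
        exact hinj a hx hy (ih.2 (hmaps a x hx) (hmaps a y hy) h)
  set q1 := act step W start with hq1
  have hq1I : q1 ∈ I := mem_image_of_mem _ (mem_univ _)
  have hfix : ∀ a, (act step (a :: W))^[N] q1 = q1 := by
    intro a
    exact (hit a N).2 ((hit a N).1 q1 hq1I) hq1I
      (iter_idem' hN hdiv (act step (a :: W)) q1)
  -- the template
  obtain ⟨a0⟩ := ‹Nonempty A›
  set T : List (Option A) := W.map some ++ (tmpl W N ++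
    List.replicate (n - (W.length + N * (W.length + 1))) (some a0)) with hT
  have hlen0 : W.length + N * (W.length + 1) ≤ n := by
    have h1 : (W.length + 1) * (N + 1) ≤ 2 ^ (w - 1) * (N + 1) := Nat.mul_le_mul_right _ hWlen'
    have h2 : W.length + N * (W.length + 1) + 1 = (W.length + 1) * (N + 1) := by ring
    omega
  have hTlen : T.length = n := by
    rw [hT, List.length_append, List.length_append, List.length_map, tmpl_length,
      List.length_replicate]
    omega
  have hTstate : ∀ a, act step (T.map (fun o => o.getD a)) start
      = act step (List.replicate (n - (W.length + N * (W.length + 1))) a0) q1 := by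
    intro a
    have e1 : (W.map some).map (fun o : Option A => o.getD a) = W := by
      rw [List.map_map]
      conv_rhs => rw [← List.map_id W]
      apply List.map_congr_left
      intro x _
      rfl
    rw [hT, List.map_append, List.map_append, act_append, act_append, act_tmpl, e1, ← hq1, hfix,
      List.map_replicate]
    rfl
  have hnone : T[W.length]? = some none := by
    obtain ⟨N', hN'⟩ : ∃ N', N = N' + 1 := ⟨N - 1, by omega⟩
    rw [hT, List.getElem?_append_right (by simp), List.length_map, Nat.sub_self, hN']
    simp [tmpl]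
  have hWn : W.length < n := by
    have : 1 * (W.length + 1) ≤ N * (W.length + 1) := Nat.mul_le_mul_right _ hN
    omega
  refine ⟨⟨fun i => T.get (Fin.cast hTlen.symm (σ.symm i)), ⟨σ ⟨W.length, hWn⟩, ?_⟩⟩,
    out (act step (List.replicate (n - (W.length + N * (W.length + 1))) a0) q1), ?_⟩
  · rw [Equiv.symm_apply_apply]
    have h1 := hnone
    rw [List.getElem?_eq_getElem (by rw [hTlen]; exact hWn)] at h1
    exact Option.some.inj h1
  · intro a
    rw [hcomp, ← hTstate a]
    show out (act step _ start) = _
    congr 2
    apply List.ext_getElem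
    · simp [hTlen]
    · intro t h1 h2
      rw [List.getElem_ofFn, List.getElem_map]
      show (T.get (Fin.cast hTlen.symm (σ.symm (σ _)))).getD a = _
      rw [Equiv.symm_apply_apply]
      rfl

end Pool.Agent.H267R3.PR.HJ
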