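import Pool.Agent.H267R3.PR.Defs

/-! # Levels of positions -/

set_option autoImplicit false

namespace Pool.Agent.H267R3.PR

open Finset

/-- The largest `l ≤ p` such that `a ^ l` divides `s`. -/
def lev (a p s : ℕ) : Fin (p + 1) :=
  ⟨Nat.findGreatest (fun l => a ^ l ∣ s) p, Nat.lt_succ_of_le (Nat.findGreatest_le _)⟩

theorem lev_dvd (a p s : ℕ) : a ^ (lev a p s : ℕ) ∣ s := by
  have := Nat.findGreatest_spec (P := fun l => a ^ l ∣ s) (m := 0) (n := p) (Nat.zero_le _)
    (by simp)
  exact this

theorem le_lev {a p s l : ℕ} (hl : l ≤ p) (h : a ^ l ∣ s) : l ≤ (lev a p s : ℕ) :=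
  Nat.le_findGreatest hl h

/-- `a` consecutive intervals can not have the same largest level. -/
theorem multiples {a p : ℕ} (ha : 2 ≤ a) (T : ℕ → ℕ) (hT : ∀ j < a, T j < T (j + 1))
    (hTm : T a < a ^ (p + 1)) (l : Fin (p + 1))
    (hl : ∀ j < a, (Ioc (T j) (T (j + 1))).sup (lev a p) = l) : False := by
  have hmono : ∀ i j, i ≤ j → j ≤ a → T i ≤ T j := by
    intro i j hij hj
    induction j, hij using Nat.le_induction with
    | base => exact le_rfl
    | succ j hij ih => exact (ih (by omega)).trans (hT j (by omega)).le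
  -- all levels are at most `l`
  have hall : ∀ k, k ≤ a → ∀ s, T 0 < s → s ≤ T k → lev a p s ≤ l := by
    intro k
    induction k with
    | zero => intro _ s h1 h2; omega
    | succ k ih =>
      intro hk s h1 h2
      rcases le_or_gt s (T k) with h | h
      · exact ih (by omega) s h1 h
      · rw [← hl k (by omega)]
        exact le_sup (f := lev a p) (mem_Ioc.2 ⟨h, h2⟩)
  have hex : ∀ j, j < a → ∃ s, T j < s ∧ s ≤ T (j + 1) ∧ lev a p s = l := by
    intro j hj
    have hne : (Ioc (T j) (T (j + 1))).Nonempty := ⟨T (j + 1), mem_Ioc.2 ⟨hT j hj, le_rfl⟩⟩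
    obtain ⟨s, hs, hs2⟩ := exists_mem_eq_sup _ hne (lev a p)
    rw [mem_Ioc] at hs
    exact ⟨s, hs.1, hs.2, by rw [← hs2, hl j hj]⟩
  have hu : ∀ j, j < a → ∃ u, T j < a ^ (l : ℕ) * u ∧ a ^ (l : ℕ) * u ≤ T (j + 1) := by
    intro j hj
    obtain ⟨s, h1, h2, h3⟩ := hex j hj
    obtain ⟨u, hu⟩ := lev_dvd a p s
    rw [h3] at hu
    exact ⟨u, by omega, by omega⟩
  choose! u hu1 hu2 using hu
  have hapos : 0 < a ^ (l : ℕ) := by positivity
  have hustep : ∀ j, j < a → u 0 + j ≤ u j := by
    intro j
    induction j with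
    | zero => intro _; omega
    | succ j ih =>
      intro hj
      have h1 := ih (by omega)
      have h2 := hu2 j (by omega)
      have h3 := hu1 (j + 1) hj
      have h4 : a ^ (l : ℕ) * u j < a ^ (l : ℕ) * u (j + 1) := by omega
      have h5 := lt_of_mul_lt_mul_left h4 (Nat.zero_le _)
      omega
  have hlast := hustep (a - 1) (by omega)
  have h0 := hu1 0 (by omega)
  have hend := hu2 (a - 1) (by omega)
  have ha1 : a - 1 + 1 = a := by omega
  rw [ha1] at hend
  -- a multiple of `a` between
  set us := a * ((u 0 + a - 1) / a) with hus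
  have hus1 : u 0 ≤ us := by
    have h1 := Nat.div_add_mod (u 0 + a - 1) a
    have h2 := Nat.mod_lt (u 0 + a - 1) (show 0 < a by omega)
    omega
  have hus2 : us ≤ u 0 + (a - 1) := by
    have h1 := Nat.div_add_mod (u 0 + a - 1) a
    omega
  have hs1 : a ^ (l : ℕ) * u 0 ≤ a ^ (l : ℕ) * us := Nat.mul_le_mul_left _ hus1
  have hs2 : a ^ (l : ℕ) * us ≤ a ^ (l : ℕ) * u (a - 1) := Nat.mul_le_mul_left _ (by omega)
  have hdvd : a ^ ((l : ℕ) + 1) ∣ a ^ (l : ℕ) * us := by
    rw [pow_succ, hus]
    exact mul_dvd_mul_left _ (dvd_mul_right _ _)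
  have hle := hall a le_rfl (a ^ (l : ℕ) * us) (by omega) (by omega)
  have hlp : (l : ℕ) ≤ p := Nat.lt_succ_iff.1 l.2
  rcases hlp.lt_or_eq with h | h
  · have := le_lev (a := a) (p := p) (s := a ^ (l : ℕ) * us) h hdvd
    have h2 : (lev a p (a ^ (l : ℕ) * us) : ℕ) ≤ l := hle
    omega
  · rw [h] at hdvd
    have := Nat.le_of_dvd (by rw [← h] ; omega) hdvd
    rw [h] at hend hs2
    omega

/-- Main lemma on levels. -/
theorem levels {a p R : ℕ} (ha : 2 ≤ a) (hR : R = (p + 1) * (a - 1) + 1) (T : ℕ → ℕ)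
    (hT : ∀ j < R, T j < T (j + 1)) (hTm : T R < a ^ (p + 1)) (col : Bool)
    (h : ∀ i, i + 2 ≤ R → (col = true ↔ ∃ s ∈ Ioc (T (i + 1)) (T (i + 2)),
      (Ioc (T i) (T (i + 1))).sup (lev a p) ≤ lev a p s)) : False := by
  set L : ℕ → Fin (p + 1) := fun i => (Ioc (T i) (T (i + 1))).sup (lev a p) with hL
  have hRp : p + 2 ≤ R := by
    have : (p + 1) * 1 ≤ (p + 1) * (a - 1) := Nat.mul_le_mul_left _ (by omega)
    omega
  have hmonoT : ∀ i j, i ≤ j → j ≤ R → T i ≤ T j := by
    intro i j hij hj
    induction j, hij using Nat.le_induction with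
    | base => exact le_rfl
    | succ j hij ih => exact (ih (by omega)).trans (hT j (by omega)).le
  cases col with
  | false =>
    have hdec : ∀ i, i + 2 ≤ R → L (i + 1) < L i := by
      intro i hi
      have h1 : ¬ ∃ s ∈ Ioc (T (i + 1)) (T (i + 2)), L i ≤ lev a p s := by
        intro h2
        exact absurd ((h i hi).2 h2) (by simp)
      push Not at h1
      have h2 := h1 (T (i + 2)) (mem_Ioc.2 ⟨hT (i + 1) (by omega), le_rfl⟩)
      show (Ioc (T (i + 1)) (T (i + 1 + 1))).sup (lev a p) < L i
      rw [Finset.sup_lt_iff (lt_of_le_of_lt bot_le h2)]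
      exact h1
    have hind : ∀ i, i < R → (L i : ℕ) + i ≤ p := by
      intro i
      induction i with
      | zero => intro _; exact Nat.lt_succ_iff.1 (L 0).2
      | succ i ih =>
        intro hi
        have h1 := ih (by omega)
        have h2 : (L (i + 1) : ℕ) < L i := hdec i (by omega)
        omega
    have := hind (p + 1) (by omega)
    omega
  | true =>
    have hinc : ∀ i, i + 2 ≤ R → L i ≤ L (i + 1) := by
      intro i hi
      obtain ⟨s, hs1, hs2⟩ := (h i hi).1 rfl
      exact hs2.trans (le_sup (f := lev a p) hs1)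
    have hinc' : ∀ i j, i ≤ j → j < R → L i ≤ L j := by
      intro i j hij hj
      induction j, hij using Nat.le_induction with
      | base => exact le_rfl
      | succ j hij ih => exact (ih (by omega)).trans (hinc j (by omega))
    -- two equal levels at distance `a - 1`
    have hex : ∃ i, i + (a - 1) < R ∧ L i = L (i + (a - 1)) := by
      by_contra hcon
      push Not at hcon
      have hind : ∀ j, j ≤ p + 1 → j ≤ (L (j * (a - 1)) : ℕ) := by
        intro j
        induction j with
        | zero => intro _; exact Nat.zero_le _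
        | succ j ih =>
          intro hj
          have h1 := ih (by omega)
          have h2 : (j + 1) * (a - 1) ≤ (p + 1) * (a - 1) := Nat.mul_le_mul_right _ hj
          have h3 : (j + 1) * (a - 1) = j * (a - 1) + (a - 1) := by ring
          have h4 := hcon (j * (a - 1)) (by omega)
          have h5 := hinc' (j * (a - 1)) (j * (a - 1) + (a - 1)) (by omega) (by omega)
          have h6 : (L (j * (a - 1)) : ℕ) < L (j * (a - 1) + (a - 1)) :=
            Fin.lt_def.1 (lt_of_le_of_ne h5 h4)
          rw [h3]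
          omega
      have h1 := hind (p + 1) le_rfl
      have h2 := (L ((p + 1) * (a - 1))).2
      omega
    obtain ⟨i, hi, hil⟩ := hex
    refine multiples (p := p) ha (fun j => T (i + j)) (fun j hj => hT (i + j) (by omega))
      (lt_of_le_of_lt (hmonoT _ _ (by omega) le_rfl) hTm) (L i) ?_
    intro j hj
    show L (i + j) = L i
    apply le_antisymm
    · rw [hil]
      exact hinc' _ _ (by omega) hi
    · exact hinc' _ _ (by omega) (by omega)

end Pool.Agent.H267R3.PR
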