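import Pool.Agent.H267R3.PR.Mach

/-! # Lower bound -/

set_option autoImplicit false

namespace Pool.Agent.H267R3.PR

open Finset

/-- A sequence without local minimum (in the sense of `P = false`) or without local maximum
(`P = true`) of length `2 R + 1` has a monotone half. -/
theorem monotone_half (D : ℕ → ℕ) (R : ℕ) (hR : 1 ≤ R)
    (hne : ∀ i, i < 2 * R → D i ≠ D (i + 1)) (P : Bool)
    (hmin : P = false → ∀ i, i + 2 ≤ 2 * R → ¬ (D (i + 1) < D i ∧ D (i + 1) < D (i + 2)))
    (hmax : P = true → ∀ i, i + 2 ≤ 2 * R → ¬ (D i < D (i + 1) ∧ D (i + 2) < D (i + 1))) :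
    ∃ i0, i0 ≤ R ∧ ((∀ i, i < R → D (i0 + i) < D (i0 + i + 1)) ∨
      (∀ i, i < R → D (i0 + i + 1) < D (i0 + i))) := by
  cases P with
  | false =>
    have hm := hmin rfl
    rcases Nat.lt_or_gt_of_ne (hne R (by omega)) with h | h
    · refine ⟨0, Nat.zero_le _, Or.inl ?_⟩
      have key : ∀ k, k ≤ R → D (R - k) < D (R - k + 1) := by
        intro k
        induction k with
        | zero => intro _; exact h
        | succ k ih =>
          intro hk
          have h1 := ih (by omega)
          have h2 : R - (k + 1) + 1 = R - k := by omega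
          have h3 : R - (k + 1) + 2 = R - k + 1 := by omega
          have h4 := hm (R - (k + 1)) (by omega)
          have h5 := hne (R - (k + 1)) (by omega)
          rw [h2] at h5 h4 ⊢
          rw [h3] at h4
          omega
      intro i hi
      have := key (R - i) (by omega)
      have e : R - (R - i) = 0 + i := by omega
      rw [e] at this
      exact this
    · refine ⟨R, le_rfl, Or.inr ?_⟩
      intro i
      induction i with
      | zero => intro _; exact h
      | succ i ih =>
        intro hi
        have h1 := ih (by omega)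
        have h4 := hm (R + i) (by omega)
        have h5 := hne (R + i + 1) (by omega)
        have e1 : R + (i + 1) = R + i + 1 := by omega
        rw [e1]
        have e2 : R + i + 1 + 1 = R + i + 2 := by omega
        rw [e2] at h5 ⊢
        omega
  | true =>
    have hm := hmax rfl
    rcases Nat.lt_or_gt_of_ne (hne R (by omega)) with h | h
    · refine ⟨R, le_rfl, Or.inl ?_⟩
      intro i
      induction i with
      | zero => intro _; exact h
      | succ i ih =>
        intro hi
        have h1 := ih (by omega)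
        have h4 := hm (R + i) (by omega)
        have h5 := hne (R + i + 1) (by omega)
        have e1 : R + (i + 1) = R + i + 1 := by omega
        rw [e1]
        have e2 : R + i + 1 + 1 = R + i + 2 := by omega
        rw [e2] at h5 ⊢
        omega
    · refine ⟨0, Nat.zero_le _, Or.inr ?_⟩
      have key : ∀ k, k ≤ R → D (R - k + 1) < D (R - k) := by
        intro k
        induction k with
        | zero => intro _; exact h
        | succ k ih =>
          intro hk
          have h1 := ih (by omega)
          have h2 : R - (k + 1) + 1 = R - k := by omega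
          have h3 : R - (k + 1) + 2 = R - k + 1 := by omega
          have h4 := hm (R - (k + 1)) (by omega)
          have h5 := hne (R - (k + 1)) (by omega)
          rw [h2] at h5 h4 ⊢
          rw [h3] at h4
          omega
      intro i hi
      have := key (R - i) (by omega)
      have e : R - (R - i) = 0 + i := by omega
      rw [e] at this
      exact this

open Classical in
/-- The colouring of the lower bound. -/
noncomputable def colour (a p r : ℕ) (A : Finset ℕ) : Bool :=
  if h : A.card = r + 4 then
    outF (run 2 (a ^ (p + 1)) (mstep a p r) St.z (fun i => A.orderEmbOfFin h i)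
      (a ^ (p + 1)))
  else false

theorem colour_eq (a p r : ℕ) (v : Fin (r + 4) → ℕ) (hv : StrictMono v) :
    colour a p r (univ.image v)
      = outF (run 2 (a ^ (p + 1)) (mstep a p r) St.z v (a ^ (p + 1))) := by
  have hcard : (univ.image v).card = r + 4 := by
    rw [card_image_of_injective _ hv.injective, card_univ, Fintype.card_fin]
  unfold colour
  rw [dif_pos hcard]
  have : v = fun i => (univ.image v).orderEmbOfFin hcard i :=
    orderEmbOfFin_unique hcard (fun x => mem_image_of_mem _ (mem_univ _)) hv
  rw [← this]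

theorem lower (a p r : ℕ) (ha : 2 ≤ a) (S : Finset ℕ) (hS : S ⊆ range (2 ^ a ^ (p + 1)))
    (hcard : S.card = 2 * (p + 1) * (a - 1) + (r + 4)) :
    ¬ Homogeneous (r + 4) (colour a p r) S := by
  intro hhom
  set m := a ^ (p + 1) with hm
  set R := (p + 1) * (a - 1) + 1 with hR
  have hR2 : 2 ≤ R := by
    have : 1 * 1 ≤ (p + 1) * (a - 1) := Nat.mul_le_mul (by omega) (by omega)
    omega
  have hmulR : 2 * (p + 1) * (a - 1) = 2 * R - 2 := by
    rw [hR, mul_assoc]; omega
  have hcard2 : S.card = 2 * R + 2 + r := by omega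
  -- enumeration of `S`
  let f := S.orderEmbOfFin hcard2
  set y : ℕ → ℕ := fun i => if h : i < 2 * R + 2 + r then f ⟨i, h⟩ else 0 with hy
  have hymem : ∀ i, i < 2 * R + 2 + r → y i ∈ S := by
    intro i hi
    simp only [hy, hi, dif_pos]
    exact orderEmbOfFin_mem S hcard2 _
  have hylt : ∀ i j, i < j → j < 2 * R + 2 + r → y i < y j := by
    intro i j hij hj
    simp only [hy, hj, (by omega : i < 2 * R + 2 + r), dif_pos]
    exact f.strictMono hij
  have hyb : ∀ i, i < 2 * R + 2 + r → y i < 2 ^ m := fun i hi => mem_range.1 (hS (hymem i hi))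
  -- first differences
  have hD : ∀ i, i < 2 * R + 1 → ∃ d, IsD m (y i) (y (i + 1)) d := fun i hi =>
    exists_isD (hylt i (i + 1) (by omega) (by omega)) (hyb _ (by omega))
  choose! D hD using hD
  have hne : ∀ i, i < 2 * R → D i ≠ D (i + 1) := by
    intro i hi h
    have e1 := (hD i (by omega)).2.2.2
    have e2 := (hD (i + 1) (by omega)).2.2.1
    rw [← h] at e2
    omega
  -- the `r`-subsets
  set idx : ℕ → Fin (r + 4) → ℕ := fun i ν => if (ν : ℕ) < 4 then i + ν else 2 * R + 2 + (ν - 4)
    with hidx
  set vv : ℕ → Fin (r + 4) → ℕ := fun i ν => y (idx i ν) with hvv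
  have hidxlt : ∀ i, i + 2 ≤ 2 * R → ∀ ν, idx i ν < 2 * R + 2 + r := by
    intro i hi ν
    simp only [hidx]
    have := ν.2
    split_ifs <;> omega
  have hidxmono : ∀ i, i + 2 ≤ 2 * R → StrictMono (idx i) := by
    intro i hi ν ν' h
    have h' : (ν : ℕ) < ν' := h
    simp only [hidx]
    split_ifs <;> omega
  have hvmono : ∀ i, i + 2 ≤ 2 * R → StrictMono (vv i) := by
    intro i hi ν ν' h
    exact hylt _ _ (hidxmono i hi h) (hidxlt i hi _)
  have hv0 : ∀ i, vv i 0 = y i := by intro i; simp [hvv, hidx]
  have hv1 : ∀ i, vv i 1 = y (i + 1) := by intro i; simp [hvv, hidx]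
  have hv2 : ∀ i, vv i 2 = y (i + 2) := by
    intro i
    show y (if ((2 : Fin (r + 4)) : ℕ) < 4 then i + ((2 : Fin (r + 4)) : ℕ)
      else 2 * R + 2 + (((2 : Fin (r + 4)) : ℕ) - 4)) = y (i + 2)
    rw [show ((2 : Fin (r + 4)) : ℕ) = 2 from rfl, if_pos (by norm_num)]
  have hv3 : ∀ i, vv i 3 = y (i + 3) := by
    intro i
    show y (if ((3 : Fin (r + 4)) : ℕ) < 4 then i + ((3 : Fin (r + 4)) : ℕ)
      else 2 * R + 2 + (((3 : Fin (r + 4)) : ℕ) - 4)) = y (i + 3)
    rw [show ((3 : Fin (r + 4)) : ℕ) = 3 from rfl, if_pos (by norm_num)]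
  have hsub : ∀ i, i + 2 ≤ 2 * R → univ.image (vv i) ⊆ S := by
    intro i hi x hx
    obtain ⟨ν, _, rfl⟩ := mem_image.1 hx
    exact hymem _ (hidxlt i hi ν)
  have hcardv : ∀ i, i + 2 ≤ 2 * R → (univ.image (vv i)).card = r + 4 := by
    intro i hi
    rw [card_image_of_injective _ (hvmono i hi).injective, card_univ, Fintype.card_fin]
  -- the constant colour
  obtain ⟨col, hcol⟩ : ∃ col : Bool, ∀ i, i + 2 ≤ 2 * R →
      outF (run 2 m (mstep a p r) St.z (vv i) m) = col := by
    refine ⟨colour a p r (univ.image (vv 0)), fun i hi => ?_⟩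
    rw [← colour_eq a p r (vv i) (hvmono i hi)]
    exact hhom _ (hsub i hi) _ (hsub 0 (by omega)) (hcardv i hi) (hcardv 0 (by omega))
  have HD0 : ∀ i, i + 2 ≤ 2 * R → IsD m (vv i 0) (vv i 1) (D i) := by
    intro i hi; rw [hv0, hv1]; exact hD i (by omega)
  have HD1 : ∀ i, i + 2 ≤ 2 * R → IsD m (vv i 1) (vv i 2) (D (i + 1)) := by
    intro i hi; rw [hv1, hv2]; exact hD (i + 1) (by omega)
  have HD2 : ∀ i, i + 2 ≤ 2 * R → IsD m (vv i 2) (vv i 3) (D (i + 2)) := by
    intro i hi; rw [hv2, hv3]; exact hD (i + 2) (by omega)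
  obtain ⟨i0, hi0, hmon⟩ := monotone_half D R (by omega) hne (!col)
    (by
      intro hc i hi hcon
      have h1 := out_min (a := a) (p := p) (vv i) (HD0 i hi) (HD1 i hi) (HD2 i hi) hcon.1 hcon.2
      rw [hcol i hi] at h1
      rw [h1] at hc
      simp at hc)
    (by
      intro hc i hi hcon
      have h1 := out_max (a := a) (p := p) (vv i) (HD0 i hi) (HD1 i hi) (HD2 i hi) hcon.1 hcon.2
      rw [hcol i hi] at h1
      rw [h1] at hc
      simp at hc)
  rcases hmon with hinc | hdec
  · refine levels (p := p) ha hR (fun j => D (i0 + j)) hinc ?_ col ?_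
    · rw [← hm]
      exact (hD (i0 + R) (by omega)).1
    · intro i hi
      have h1 := hinc i (by omega)
      have h2 := hinc (i + 1) (by omega)
      have h3 := out_inc (a := a) (p := p) (vv (i0 + i)) (HD0 _ (by omega)) (HD1 _ (by omega))
        (HD2 _ (by omega)) h1 h2
      rw [hcol (i0 + i) (by omega)] at h3
      exact h3
  · refine levels (p := p) ha hR (fun j => D (i0 + (R - j))) ?_ ?_ col ?_
    · intro j hj
      have := hdec (R - (j + 1)) (by omega)
      have e : i0 + (R - (j + 1)) + 1 = i0 + (R - j) := by omega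
      rw [e] at this
      exact this
    · rw [← hm]
      exact (hD (i0 + (R - R)) (by omega)).1
    · intro i hi
      have h1 := hdec (R - (i + 1)) (by omega)
      have h2 := hdec (R - (i + 2)) (by omega)
      have e1 : i0 + (R - (i + 1)) + 1 = i0 + (R - i) := by omega
      have e2 : i0 + (R - (i + 2)) + 1 = i0 + (R - (i + 1)) := by omega
      have e3 : i0 + (R - (i + 2)) + 2 = i0 + (R - i) := by omega
      have h3 := out_dec (a := a) (p := p) (vv (i0 + (R - (i + 2)))) (HD0 _ (by omega))
        (HD1 _ (by omega)) (HD2 _ (by omega))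
        (by rw [e2, e3]; rw [e1] at h1; exact h1) (by rw [e2]; rw [e2] at h2; exact h2)
      rw [hcol (i0 + (R - (i + 2))) (by omega), e2, e3] at h3
      exact h3

end Pool.Agent.H267R3.PR
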