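import Pool.Agent.H267R3.PR.Lev

/-! # The program for the lower bound -/

set_option autoImplicit false

namespace Pool.Agent.H267R3.PR

open Finset

/-- States: nothing split, final red, final blue, one split, two splits. -/
inductive St (p : ℕ)
  | z : St p
  | fin : Bool → St p
  | fst : Bool → Fin (p + 1) → St p
  | snd : Bool → Fin (p + 1) → Bool → St p

def toSum (p : ℕ) : St p → Option (Bool ⊕ ((Bool × Fin (p + 1)) ⊕ (Bool × Fin (p + 1) × Bool)))
  | .z => none
  | .fin b => some (Sum.inl b)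
  | .fst ty l => some (Sum.inr (Sum.inl (ty, l)))
  | .snd ty l b => some (Sum.inr (Sum.inr (ty, l, b)))

theorem toSum_inj (p : ℕ) : Function.Injective (toSum p) := by
  intro s t h
  cases s <;> cases t <;> simp_all [toSum]

noncomputable instance (p : ℕ) : Fintype (St p) := Fintype.ofInjective (toSum p) (toSum_inj p)

theorem card_St (p : ℕ) : Fintype.card (St p) ≤ 6 * (p + 1) + 3 := by
  refine (Fintype.card_le_of_injective (toSum p) (toSum_inj p)).trans ?_
  simp only [Fintype.card_option, Fintype.card_sum, Fintype.card_prod, Fintype.card_bool,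
    Fintype.card_fin]
  omega

open Classical in
/-- One step: `le` is the level of the position, `c0, …, c3` are the digits of the first four
vertices. -/
noncomputable def stp (p : ℕ) (le : Fin (p + 1)) (c0 c1 c2 c3 : ℕ) : St p → St p
  | .z => if c1 ≠ c2 then .fin false else if c0 ≠ c1 then .fst true ⊥ else
      if c2 ≠ c3 then .fst false ⊥ else .z
  | .fin b => .fin b
  | .fst true l => if c1 ≠ c2 then .snd true (l ⊔ le) false else
      if c2 ≠ c3 then .fin true else .fst true (l ⊔ le)
  | .fst false l => if c1 ≠ c2 then .snd false (l ⊔ le) false else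
      if c0 ≠ c1 then .fin true else .fst false (l ⊔ le)
  | .snd true l b => if c2 ≠ c3 then .fin (b || decide (l ≤ le)) else
      .snd true l (b || decide (l ≤ le))
  | .snd false l b => if c0 ≠ c1 then .fin (b || decide (l ≤ le)) else
      .snd false l (b || decide (l ≤ le))

noncomputable def mstep (a p r : ℕ) (t : ℕ) (s : St p) (col : Fin (r + 4) → ℕ) : St p :=
  stp p (lev a p t) (col 0) (col 1) (col 2) (col 3) s

def outF {p : ℕ} : St p → Bool
  | .fin b => b
  | _ => false

/-- First difference of the digits. -/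
def IsD (m x y d : ℕ) : Prop :=
  d < m ∧ (∀ s < d, digit 2 m s x = digit 2 m s y) ∧ digit 2 m d x = 0 ∧ digit 2 m d y = 1

theorem exists_isD {m x y : ℕ} (hxy : x < y) (hy : y < 2 ^ m) : ∃ d, IsD m x y d := by
  classical
  have hm : 0 < m := by
    rcases Nat.eq_zero_or_pos m with h | h
    · subst h; simp at hy; omega
    · exact h
  have hex : ∃ t, t < m ∧ x / 2 ^ (m - 1 - t) ≠ y / 2 ^ (m - 1 - t) :=
    ⟨m - 1, by omega, by simp; omega⟩
  let d := Nat.find hex
  obtain ⟨hd1, hd2⟩ := Nat.find_spec hex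
  have hmin : ∀ s < d, x / 2 ^ (m - 1 - s) = y / 2 ^ (m - 1 - s) := by
    intro s hs
    have h1 := Nat.find_min hex hs
    by_contra hcon
    exact h1 ⟨by omega, hcon⟩
  refine ⟨d, hd1, ?_, ?_⟩
  · intro s hs
    unfold digit
    rw [hmin s hs]
  · -- the halves of the prefixes at `d` are equal
    have hhalf : x / 2 ^ (m - 1 - d) / 2 = y / 2 ^ (m - 1 - d) / 2 := by
      rw [Nat.div_div_eq_div_mul, Nat.div_div_eq_div_mul, ← pow_succ]
      rcases Nat.eq_zero_or_pos d with h | h
      · rw [h]
        have : m - 1 - 0 + 1 = m := by omega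
        rw [this, Nat.div_eq_of_lt hy, Nat.div_eq_of_lt (hxy.trans hy)]
      · have h2 := hmin (d - 1) (by omega)
        have : m - 1 - (d - 1) = m - 1 - d + 1 := by omega
        rw [this] at h2
        exact h2
    have hle : x / 2 ^ (m - 1 - d) ≤ y / 2 ^ (m - 1 - d) := Nat.div_le_div_right hxy.le
    have hne : x / 2 ^ (m - 1 - d) ≠ y / 2 ^ (m - 1 - d) := hd2
    unfold digit
    have e1 := Nat.div_add_mod (x / 2 ^ (m - 1 - d)) 2
    have e2 := Nat.div_add_mod (y / 2 ^ (m - 1 - d)) 2
    have e3 := Nat.mod_lt (x / 2 ^ (m - 1 - d)) (show 0 < 2 by norm_num)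
    have e4 := Nat.mod_lt (y / 2 ^ (m - 1 - d)) (show 0 < 2 by norm_num)
    omega

section sem

variable {a p r m : ℕ} (v : Fin (r + 4) → ℕ)

theorem run_succ (t : ℕ) : run 2 m (mstep a p r) St.z v (t + 1)
    = stp p (lev a p t) (digit 2 m t (v 0)) (digit 2 m t (v 1)) (digit 2 m t (v 2))
      (digit 2 m t (v 3)) (run 2 m (mstep a p r) St.z v t) := rfl

/-- Before the first difference. -/
theorem run_z (t : ℕ) (h0 : ∀ s < t, digit 2 m s (v 0) = digit 2 m s (v 1))
    (h1 : ∀ s < t, digit 2 m s (v 1) = digit 2 m s (v 2))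
    (h2 : ∀ s < t, digit 2 m s (v 2) = digit 2 m s (v 3)) :
    run 2 m (mstep a p r) St.z v t = St.z := by
  induction t with
  | zero => rfl
  | succ t ih =>
    rw [run_succ, ih (fun s hs => h0 s (by omega)) (fun s hs => h1 s (by omega))
      (fun s hs => h2 s (by omega))]
    simp [stp, h0 t (by omega), h1 t (by omega), h2 t (by omega)]

theorem run_fin (b : Bool) (t t' : ℕ) (htt : t ≤ t')
    (h : run 2 m (mstep a p r) St.z v t = St.fin b) :
    run 2 m (mstep a p r) St.z v t' = St.fin b := by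
  induction t', htt using Nat.le_induction with
  | base => exact h
  | succ t' _ ih => rw [run_succ, ih]; rfl

variable {d0 d1 d2 : ℕ} (H0 : IsD m (v 0) (v 1) d0) (H1 : IsD m (v 1) (v 2) d1)
  (H2 : IsD m (v 2) (v 3) d2)

include H0 H1 H2

theorem run_first_true (h01 : d0 < d1) (h02 : d0 < d2) :
    run 2 m (mstep a p r) St.z v (d0 + 1) = St.fst true ⊥ := by
  rw [run_succ, run_z v d0 H0.2.1 (fun s hs => H1.2.1 s (by omega))
    (fun s hs => H2.2.1 s (by omega))]
  have e1 := H1.2.1 d0 h01
  have e2 := H0.2.2.1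
  have e3 := H0.2.2.2
  simp only [stp]
  rw [if_neg (by omega), if_pos (by omega)]

theorem run_first_false (h21 : d2 < d1) (h20 : d2 < d0) :
    run 2 m (mstep a p r) St.z v (d2 + 1) = St.fst false ⊥ := by
  rw [run_succ, run_z v d2 (fun s hs => H0.2.1 s (by omega)) (fun s hs => H1.2.1 s (by omega))
    H2.2.1]
  have e1 := H1.2.1 d2 h21
  have e2 := H0.2.1 d2 h20
  have e3 := H2.2.2.1
  have e4 := H2.2.2.2
  simp only [stp]
  rw [if_neg (by omega), if_neg (by omega), if_pos (by omega)]

theorem run_fst_true (h01 : d0 < d1) (h02 : d0 < d2) (t : ℕ) (ht : d0 + 1 ≤ t) (ht1 : t ≤ d1)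
    (ht2 : t ≤ d2) :
    run 2 m (mstep a p r) St.z v t = St.fst true ((Ioo d0 t).sup (lev a p)) := by
  induction t, ht using Nat.le_induction with
  | base =>
    rw [run_first_true v H0 H1 H2 h01 h02]
    have : Ioo d0 (d0 + 1) = ∅ := by ext x; simp
    rw [this, sup_empty]
  | succ t ht ih =>
    rw [run_succ, ih (by omega) (by omega)]
    have e1 := H1.2.1 t (by omega)
    have e2 := H2.2.1 t (by omega)
    simp only [stp]
    rw [if_neg (by omega), if_neg (by omega)]
    have : Ioo d0 (t + 1) = insert t (Ioo d0 t) := by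
      ext x; simp only [mem_Ioo, mem_insert]; omega
    rw [this, sup_insert, sup_comm]

theorem run_fst_false (h21 : d2 < d1) (h20 : d2 < d0) (t : ℕ) (ht : d2 + 1 ≤ t) (ht1 : t ≤ d1)
    (ht2 : t ≤ d0) :
    run 2 m (mstep a p r) St.z v t = St.fst false ((Ioo d2 t).sup (lev a p)) := by
  induction t, ht using Nat.le_induction with
  | base =>
    rw [run_first_false v H0 H1 H2 h21 h20]
    have : Ioo d2 (d2 + 1) = ∅ := by ext x; simp
    rw [this, sup_empty]
  | succ t ht ih =>
    rw [run_succ, ih (by omega) (by omega)]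
    have e1 := H1.2.1 t (by omega)
    have e2 := H0.2.1 t (by omega)
    simp only [stp]
    rw [if_neg (by omega), if_neg (by omega)]
    have : Ioo d2 (t + 1) = insert t (Ioo d2 t) := by
      ext x; simp only [mem_Ioo, mem_insert]; omega
    rw [this, sup_insert, sup_comm]

/-- Local maximum: red. -/
theorem out_max (h01 : d0 < d1) (h21 : d2 < d1) :
    outF (run 2 m (mstep a p r) St.z v m) = true := by
  have hne : d0 ≠ d2 := by
    intro h
    have e1 := H0.2.2.2
    have e2 := H2.2.2.1
    have e3 := H1.2.1 d0 h01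
    rw [← h] at e2
    omega
  rcases Nat.lt_or_gt_of_ne hne with h | h
  · have : run 2 m (mstep a p r) St.z v (d2 + 1) = St.fin true := by
      rw [run_succ, run_fst_true v H0 H1 H2 h01 h d2 h h21.le le_rfl]
      have e1 := H1.2.1 d2 h21
      have e3 := H2.2.2.1
      have e4 := H2.2.2.2
      simp only [stp]
      rw [if_neg (by omega), if_pos (by omega)]
    rw [run_fin v true _ _ H2.1 this]
    rfl
  · have : run 2 m (mstep a p r) St.z v (d0 + 1) = St.fin true := by
      rw [run_succ, run_fst_false v H0 H1 H2 h21 h d0 h h01.le le_rfl]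
      have e1 := H1.2.1 d0 h01
      have e3 := H0.2.2.1
      have e4 := H0.2.2.2
      simp only [stp]
      rw [if_neg (by omega), if_pos (by omega)]
    rw [run_fin v true _ _ H0.1 this]
    rfl

/-- Local minimum: blue. -/
theorem out_min (h10 : d1 < d0) (h12 : d1 < d2) :
    outF (run 2 m (mstep a p r) St.z v m) = false := by
  have : run 2 m (mstep a p r) St.z v (d1 + 1) = St.fin false := by
    rw [run_succ, run_z v d1 (fun s hs => H0.2.1 s (by omega)) H1.2.1
      (fun s hs => H2.2.1 s (by omega))]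
    have e3 := H1.2.2.1
    have e4 := H1.2.2.2
    simp only [stp]
    rw [if_pos (by omega)]
  rw [run_fin v false _ _ H1.1 this]
  rfl

theorem out_inc (h01 : d0 < d1) (h12 : d1 < d2) :
    outF (run 2 m (mstep a p r) St.z v m) = true ↔
      ∃ s ∈ Ioc d1 d2, (Ioc d0 d1).sup (lev a p) ≤ lev a p s := by
  classical
  set l := (Ioc d0 d1).sup (lev a p) with hl
  have h1 : run 2 m (mstep a p r) St.z v (d1 + 1) = St.snd true l false := by
    rw [run_succ, run_fst_true v H0 H1 H2 h01 (by omega) d1 h01 le_rfl h12.le]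
    have e3 := H1.2.2.1
    have e4 := H1.2.2.2
    simp only [stp]
    rw [if_pos (by omega)]
    have : Ioc d0 d1 = insert d1 (Ioo d0 d1) := by
      ext x; simp only [mem_Ioc, mem_Ioo, mem_insert]; omega
    rw [hl, this, sup_insert, sup_comm]
  have h2 : ∀ t, d1 + 1 ≤ t → t ≤ d2 → run 2 m (mstep a p r) St.z v t
      = St.snd true l (decide (∃ s ∈ Ioo d1 t, l ≤ lev a p s)) := by
    intro t ht
    induction t, ht using Nat.le_induction with
    | base =>
      intro _
      rw [h1]
      congr 1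
      symm
      rw [decide_eq_false_iff_not]
      rintro ⟨s, hs, _⟩
      rw [mem_Ioo] at hs
      omega
    | succ t ht ih =>
      intro ht2
      rw [run_succ, ih (by omega)]
      have e2 := H2.2.1 t (by omega)
      simp only [stp]
      rw [if_neg (by omega)]
      congr 1
      rw [Bool.eq_iff_iff]
      simp only [Bool.or_eq_true, decide_eq_true_eq, mem_Ioo]
      constructor
      · rintro (⟨s, hs1, hs2⟩ | h)
        · exact ⟨s, ⟨hs1.1, by omega⟩, hs2⟩
        · exact ⟨t, ⟨by omega, by omega⟩, h⟩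
      · rintro ⟨s, hs1, hs2⟩
        rcases Nat.lt_succ_iff_lt_or_eq.1 hs1.2 with h | h
        · exact Or.inl ⟨s, ⟨hs1.1, h⟩, hs2⟩
        · subst h; exact Or.inr hs2
  have h3 : run 2 m (mstep a p r) St.z v (d2 + 1)
      = St.fin (decide (∃ s ∈ Ioc d1 d2, l ≤ lev a p s)) := by
    rw [run_succ, h2 d2 h12 le_rfl]
    have e3 := H2.2.2.1
    have e4 := H2.2.2.2
    simp only [stp]
    rw [if_pos (by omega)]
    congr 1
    rw [Bool.eq_iff_iff]
    simp only [Bool.or_eq_true, decide_eq_true_eq, mem_Ioo, mem_Ioc]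
    constructor
    · rintro (⟨s, hs1, hs2⟩ | h)
      · exact ⟨s, ⟨hs1.1, by omega⟩, hs2⟩
      · exact ⟨d2, ⟨by omega, by omega⟩, h⟩
    · rintro ⟨s, hs1, hs2⟩
      rcases hs1.2.lt_or_eq with h | h
      · exact Or.inl ⟨s, ⟨hs1.1, h⟩, hs2⟩
      · subst h; exact Or.inr hs2
  rw [run_fin v _ _ _ H2.1 h3]
  simp [outF]

theorem out_dec (h21 : d2 < d1) (h10 : d1 < d0) :
    outF (run 2 m (mstep a p r) St.z v m) = true ↔
      ∃ s ∈ Ioc d1 d0, (Ioc d2 d1).sup (lev a p) ≤ lev a p s := by
  classical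
  set l := (Ioc d2 d1).sup (lev a p) with hl
  have h1 : run 2 m (mstep a p r) St.z v (d1 + 1) = St.snd false l false := by
    rw [run_succ, run_fst_false v H0 H1 H2 h21 (by omega) d1 h21 le_rfl h10.le]
    have e3 := H1.2.2.1
    have e4 := H1.2.2.2
    simp only [stp]
    rw [if_pos (by omega)]
    have : Ioc d2 d1 = insert d1 (Ioo d2 d1) := by
      ext x; simp only [mem_Ioc, mem_Ioo, mem_insert]; omega
    rw [hl, this, sup_insert, sup_comm]
  have h2 : ∀ t, d1 + 1 ≤ t → t ≤ d0 → run 2 m (mstep a p r) St.z v t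
      = St.snd false l (decide (∃ s ∈ Ioo d1 t, l ≤ lev a p s)) := by
    intro t ht
    induction t, ht using Nat.le_induction with
    | base =>
      intro _
      rw [h1]
      congr 1
      symm
      rw [decide_eq_false_iff_not]
      rintro ⟨s, hs, _⟩
      rw [mem_Ioo] at hs
      omega
    | succ t ht ih =>
      intro ht2
      rw [run_succ, ih (by omega)]
      have e2 := H0.2.1 t (by omega)
      simp only [stp]
      rw [if_neg (by omega)]
      congr 1
      rw [Bool.eq_iff_iff]
      simp only [Bool.or_eq_true, decide_eq_true_eq, mem_Ioo]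
      constructor
      · rintro (⟨s, hs1, hs2⟩ | h)
        · exact ⟨s, ⟨hs1.1, by omega⟩, hs2⟩
        · exact ⟨t, ⟨by omega, by omega⟩, h⟩
      · rintro ⟨s, hs1, hs2⟩
        rcases Nat.lt_succ_iff_lt_or_eq.1 hs1.2 with h | h
        · exact Or.inl ⟨s, ⟨hs1.1, h⟩, hs2⟩
        · subst h; exact Or.inr hs2
  have h3 : run 2 m (mstep a p r) St.z v (d0 + 1)
      = St.fin (decide (∃ s ∈ Ioc d1 d0, l ≤ lev a p s)) := by
    rw [run_succ, h2 d0 h10 le_rfl]
    have e3 := H0.2.2.1
    have e4 := H0.2.2.2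
    simp only [stp]
    rw [if_pos (by omega)]
    congr 1
    rw [Bool.eq_iff_iff]
    simp only [Bool.or_eq_true, decide_eq_true_eq, mem_Ioo, mem_Ioc]
    constructor
    · rintro (⟨s, hs1, hs2⟩ | h)
      · exact ⟨s, ⟨hs1.1, by omega⟩, hs2⟩
      · exact ⟨d0, ⟨by omega, by omega⟩, h⟩
    · rintro ⟨s, hs1, hs2⟩
      rcases hs1.2.lt_or_eq with h | h
      · exact Or.inl ⟨s, ⟨hs1.1, h⟩, hs2⟩
      · subst h; exact Or.inr hs2
  rw [run_fin v _ _ _ H0.1 h3]
  simp [outF]

end sem

end Pool.Agent.H267R3.PR
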