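import Pool.Agent.H267R3.PR.Defs

/-! # Colourings of pairs by finite automata: homogeneous sets of polynomial size -/

set_option autoImplicit false

namespace Pool.Agent.H267R3.PR

open Finset

/-! ## Words and numbers -/

/-- The number with the given list of digits, the most significant digit first. -/
def num (b : ℕ) : List ℕ → ℕ
  | [] => 0
  | d :: l => d * b ^ l.length + num b l

theorem num_append (b : ℕ) (l l' : List ℕ) :
    num b (l ++ l') = num b l * b ^ l'.length + num b l' := by
  induction l with
  | nil => simp [num]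
  | cons d l ih =>
    simp only [List.cons_append, num, ih, List.length_append, pow_add]
    ring

theorem num_lt {b : ℕ} {l : List ℕ} (h : ∀ d ∈ l, d < b) : num b l < b ^ l.length := by
  induction l with
  | nil => simp [num]
  | cons d l ih =>
    have h1 := ih (fun d hd => h d (List.mem_cons_of_mem _ hd))
    have h2 : d + 1 ≤ b := h d List.mem_cons_self
    rw [List.length_cons, pow_succ]
    show d * b ^ l.length + num b l < _
    have h3 : (d + 1) * b ^ l.length ≤ b * b ^ l.length := Nat.mul_le_mul_right _ h2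
    nlinarith

theorem digit_cons_zero {b d : ℕ} {l : List ℕ} (hd : d < b) (h : ∀ x ∈ l, x < b) :
    digit b (l.length + 1) 0 (num b (d :: l)) = d := by
  have hlt := num_lt h
  have hb : 0 < b ^ l.length := by omega
  unfold digit
  show (d * b ^ l.length + num b l) / b ^ (l.length + 1 - 1 - 0) % b = d
  rw [show l.length + 1 - 1 - 0 = l.length by omega, mul_comm, Nat.mul_add_div hb,
    Nat.div_eq_of_lt hlt, add_zero, Nat.mod_eq_of_lt hd]

theorem digit_cons_succ {b d t : ℕ} {l : List ℕ} (hb : 0 < b) (ht : t < l.length) :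
    digit b (l.length + 1) (t + 1) (num b (d :: l)) = digit b l.length t (num b l) := by
  unfold digit
  show (d * b ^ l.length + num b l) / b ^ (l.length + 1 - 1 - (t + 1)) % b = _
  obtain ⟨e, he⟩ : ∃ e, l.length = (l.length - 1 - t) + (e + 1) := ⟨t, by omega⟩
  have h1 : l.length + 1 - 1 - (t + 1) = l.length - 1 - t := by omega
  rw [h1]
  set s := l.length - 1 - t with hs
  have h2 : d * b ^ l.length + num b l = b ^ s * (b * (d * b ^ e)) + num b l := by
    rw [he, pow_add, pow_succ]
    ring
  rw [h2, Nat.mul_add_div (by positivity), Nat.mul_add_mod]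

variable {Q : Type}

/-- The map of a column. -/
def letter (f : Q → (Fin 2 → ℕ) → Q) (a c : ℕ) : Function.End Q := fun q => f q ![a, c]

/-- The map of a pair of words. -/
def go (f : Q → (Fin 2 → ℕ) → Q) : List ℕ → List ℕ → Function.End Q
  | a :: l, c :: l' => go f l l' * letter f a c
  | _, _ => 1

theorem go_append (f : Q → (Fin 2 → ℕ) → Q) : ∀ (l1 l1' l2 l2' : List ℕ),
    l1.length = l1'.length → go f (l1 ++ l2) (l1' ++ l2') = go f l2 l2' * go f l1 l1'
  | [], [], l2, l2', _ => by simp [go]
  | [], _ :: _, _, _, h => by simp at h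
  | _ :: _, [], _, _, h => by simp at h
  | a :: l1, c :: l1', l2, l2', h => by
    simp only [List.cons_append, go]
    rw [go_append f l1 l1' l2 l2' (by simpa using h), mul_assoc]

theorem run_cons {r : ℕ} (b n : ℕ) (f : Q → (Fin r → ℕ) → Q) (q : Q) (v v' : Fin r → ℕ) (t : ℕ)
    (h : ∀ s < t, ∀ i, digit b (n + 1) (s + 1) (v i) = digit b n s (v' i)) :
    run b (n + 1) (fun _ => f) q v (t + 1)
      = run b n (fun _ => f) (f q (fun i => digit b (n + 1) 0 (v i))) v' t := by
  induction t with
  | zero => rfl
  | succ t ih =>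
    have ih' := ih (fun s hs => h s (by omega))
    show f (run b (n + 1) (fun _ => f) q v (t + 1)) (fun i => digit b (n + 1) (t + 1) (v i))
      = f (run b n (fun _ => f) (f q (fun i => digit b (n + 1) 0 (v i))) v' t)
          (fun i => digit b n t (v' i))
    rw [ih']
    congr 1
    funext i
    exact h t (by omega) i

theorem run_eq_go {b : ℕ} (hb : 0 < b) (f : Q → (Fin 2 → ℕ) → Q) : ∀ (n : ℕ) (l l' : List ℕ) (q : Q),
    l.length = n → l'.length = n → (∀ d ∈ l, d < b) → (∀ d ∈ l', d < b) →
      run b n (fun _ => f) q ![num b l, num b l'] n = go f l l' q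
  | 0, l, l', q, h, h', _, _ => by
    rw [List.length_eq_zero_iff.1 h, List.length_eq_zero_iff.1 h']
    rfl
  | n + 1, [], _, _, h, _, _, _ => by simp at h
  | n + 1, _ :: _, [], _, _, h, _, _ => by simp at h
  | n + 1, a :: l, c :: l', q, h, h', hd, hd' => by
    have hl : l.length = n := by simpa using h
    have hl' : l'.length = n := by simpa using h'
    have hdl : ∀ d ∈ l, d < b := fun d hdd => hd d (List.mem_cons_of_mem _ hdd)
    have hdl' : ∀ d ∈ l', d < b := fun d hdd => hd' d (List.mem_cons_of_mem _ hdd)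
    rw [run_cons b n f q ![num b (a :: l), num b (c :: l')] ![num b l, num b l'] n]
    · have : (fun i => digit b (n + 1) 0 (![num b (a :: l), num b (c :: l')] i)) = ![a, c] := by
        funext i
        fin_cases i
        · show digit b (n + 1) 0 (num b (a :: l)) = a
          rw [← hl]
          exact digit_cons_zero (hd a List.mem_cons_self) hdl
        · show digit b (n + 1) 0 (num b (c :: l')) = c
          rw [← hl']
          exact digit_cons_zero (hd' c List.mem_cons_self) hdl'
      rw [this, run_eq_go hb f n l l' _ hl hl' hdl hdl']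
      rfl
    · intro s hs i
      fin_cases i
      · show digit b (n + 1) (s + 1) (num b (a :: l)) = digit b n s (num b l)
        rw [← hl] at hs ⊢
        exact digit_cons_succ hb hs
      · show digit b (n + 1) (s + 1) (num b (c :: l')) = digit b n s (num b l')
        rw [← hl'] at hs ⊢
        exact digit_cons_succ hb hs

/-- Repetition of a word. -/
def rep : ℕ → List ℕ → List ℕ
  | 0, _ => []
  | n + 1, l => l ++ rep n l

theorem length_rep (n : ℕ) (l : List ℕ) : (rep n l).length = n * l.length := by
  induction n with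
  | zero => simp [rep]
  | succ n ih =>
    simp only [rep, List.length_append, ih]
    ring

theorem mem_rep {n : ℕ} {l : List ℕ} {d : ℕ} (h : d ∈ rep n l) : d ∈ l := by
  induction n with
  | zero => simp [rep] at h
  | succ n ih =>
    rcases List.mem_append.1 (by simpa only [rep] using h) with h | h
    · exact h
    · exact ih h

theorem go_rep (f : Q → (Fin 2 → ℕ) → Q) {l l' : List ℕ} (h : l.length = l'.length) (n : ℕ) :
    go f (rep n l) (rep n l') = go f l l' ^ n := by
  induction n with
  | zero => rfl
  | succ n ih =>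
    simp only [rep]
    rw [go_append f l l' _ _ h, ih, pow_succ]

/-! ## Comparison -/

theorem num_append_left {b : ℕ} {a a' r r' : List ℕ} (hr : r.length = r'.length)
    (hd : ∀ d ∈ r, d < b) (h : num b a < num b a') : num b (a ++ r) < num b (a' ++ r') := by
  rw [num_append, num_append, ← hr]
  have h1 := num_lt hd
  have h2 : (num b a + 1) * b ^ r.length ≤ num b a' * b ^ r.length := Nat.mul_le_mul_right _ h
  nlinarith

theorem num_append_right {b : ℕ} {a r r' : List ℕ} (hr : r.length = r'.length)
    (h : num b r < num b r') : num b (a ++ r) < num b (a ++ r') := by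
  rw [num_append, num_append, ← hr]
  omega

theorem num_rep {b n : ℕ} {l l' : List ℕ} (hn : 1 ≤ n) (hl : l.length = l'.length)
    (hd : ∀ d ∈ l, d < b) (h : num b l < num b l') : num b (rep n l) < num b (rep n l') := by
  obtain ⟨n, rfl⟩ : ∃ k, n = k + 1 := ⟨n - 1, by omega⟩
  simp only [rep]
  refine num_append_left ?_ (fun d hdd => hd d (mem_rep hdd)) h
  rw [length_rep, length_rep, hl]

/-! ## Idempotent powers -/

section idem

variable [Fintype Q] [DecidableEq Q]

omit [Fintype Q] [DecidableEq Q] in
theorem end_pow (g : Function.End Q) (n : ℕ) (q : Q) : (g ^ n) q = g^[n] q := by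
  induction n generalizing q with
  | zero => rfl
  | succ n ih =>
    rw [pow_succ]
    show (g ^ n) (g q) = g^[n] (g q)
    exact ih (g q)

/-- Powers of a map: the exponent only has to be divisible by all numbers up to `|Q|`. -/
theorem iter_idem' {N : ℕ} (hN : 1 ≤ N) (hdiv : ∀ d, 1 ≤ d → d ≤ Fintype.card Q → d ∣ N)
    (f : Q → Q) (x : Q) : f^[N] (f^[N] x) = f^[N] x := by
  set w := Fintype.card Q with hw
  obtain ⟨i, j, hij, hj, he⟩ : ∃ i j, i < j ∧ j ≤ w ∧ f^[i] x = f^[j] x := by
    have : Fintype.card Q < Fintype.card (Fin (w + 1)) := by simp [hw]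
    obtain ⟨i, j, hne, he⟩ := Fintype.exists_ne_map_eq_of_card_lt (fun i : Fin (w + 1) => f^[i] x)
      this
    rcases Nat.lt_or_gt_of_ne (fun h => hne (Fin.ext h)) with h | h
    · exact ⟨i, j, h, Nat.lt_succ_iff.1 j.2, he⟩
    · exact ⟨j, i, h, Nat.lt_succ_iff.1 i.2, he.symm⟩
  have hper : ∀ n, i ≤ n → ∀ k, f^[n + k * (j - i)] x = f^[n] x := by
    intro n hn k
    induction k with
    | zero => simp
    | succ k ih =>
      rw [← ih]
      have e1 : n + (k + 1) * (j - i) = (n + k * (j - i) - i) + j := by
        have h1 : (k + 1) * (j - i) = k * (j - i) + (j - i) := by ring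
        omega
      have e2 : n + k * (j - i) = (n + k * (j - i) - i) + i := by omega
      conv_lhs => rw [e1, Function.iterate_add_apply, ← he, ← Function.iterate_add_apply, ← e2]
  obtain ⟨k, hk⟩ := hdiv (j - i) (by omega) (by omega)
  rw [← Function.iterate_add_apply]
  have hle : i ≤ N := by
    have := Nat.le_of_dvd (by omega) (hdiv w (by omega) le_rfl)
    omega
  have := hper N hle k
  rw [mul_comm, ← hk] at this
  exact this

theorem pow_idem {N : ℕ} (hN : 1 ≤ N) (hdiv : ∀ d, 1 ≤ d → d ≤ Fintype.card Q → d ∣ N)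
    (g : Function.End Q) : g ^ N * g ^ N = g ^ N := by
  funext q
  show (g ^ N) ((g ^ N) q) = _
  rw [end_pow, end_pow]
  exact iter_idem' hN hdiv g q

end idem

section monoid

variable {M : Type} [Monoid M] {N : ℕ}

theorem pow_add_N {g : M} (hg : g ^ N * g ^ N = g ^ N) {k : ℕ} (hk : N ≤ k) :
    g ^ (k + N) = g ^ k := by
  obtain ⟨j, rfl⟩ : ∃ j, k = j + N := ⟨k - N, by omega⟩
  rw [add_assoc, pow_add, pow_add g N N, hg, ← pow_add]

theorem idem_pow {g : M} (hg : g * g = g) {n : ℕ} (hn : 1 ≤ n) : g ^ n = g := by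
  induction n, hn using Nat.le_induction with
  | base => exact pow_one g
  | succ n _ ih => rw [pow_succ, ih, hg]

theorem neutral_pow {e g : M} (hl : e * g = g) (hr : g * e = g) {n : ℕ} (hn : 1 ≤ n) :
    e * g ^ n = g ^ n ∧ g ^ n * e = g ^ n := by
  obtain ⟨n, rfl⟩ : ∃ k, n = k + 1 := ⟨n - 1, by omega⟩
  constructor
  · rw [pow_succ', ← mul_assoc, hl]
  · rw [pow_succ, mul_assoc, hr]

theorem absorb {β γ : M} (hβ : β * β = β) {n : ℕ} (hn : 1 ≤ n) :
    (γ * β) ^ n * β = (γ * β) ^ n := by
  obtain ⟨n, rfl⟩ : ∃ k, n = k + 1 := ⟨n - 1, by omega⟩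
  rw [pow_succ, mul_assoc, mul_assoc, hβ]

theorem swap {β γ : M} (n : ℕ) : (β * γ) ^ n * β = β * (γ * β) ^ n := by
  induction n with
  | zero => simp
  | succ n ih =>
    rw [pow_succ', mul_assoc, ih, pow_succ' (γ * β)]
    simp only [mul_assoc]

end monoid

end Pool.Agent.H267R3.PR
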