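import Pool.Agent.H267R3.PR.Pair

/-! # Colourings of pairs by finite automata: the code -/

set_option autoImplicit false

namespace Pool.Agent.H267R3.PR

open Finset

variable {Q : Type}

/-- `y` padded by copies of `x` -/
def pad (N : ℕ) (x y : List ℕ) : List ℕ := rep N x ++ (y ++ rep (2 * N - 1) x)

theorem length_pad {N : ℕ} (hN : 1 ≤ N) {x y : List ℕ} (h : x.length = y.length) :
    (pad N x y).length = 3 * N * x.length := by
  unfold pad
  rw [List.length_append, List.length_append, length_rep, length_rep, ← h]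
  obtain ⟨n, rfl⟩ : ∃ k, N = k + 1 := ⟨N - 1, by omega⟩
  rw [show 2 * (n + 1) - 1 = 2 * n + 1 by omega]
  ring

theorem mem_pad {N : ℕ} {x y : List ℕ} {d : ℕ} (h : d ∈ pad N x y) : d ∈ x ∨ d ∈ y := by
  unfold pad at h
  rcases List.mem_append.1 h with h | h
  · exact Or.inl (mem_rep h)
  · rcases List.mem_append.1 h with h | h
    · exact Or.inr h
    · exact Or.inl (mem_rep h)

theorem go_pad (f : Q → (Fin 2 → ℕ) → Q) (N : ℕ) {x y y' : List ℕ} (h : y.length = y'.length) :
    go f (pad N x y) (pad N x y') = go f x x ^ (2 * N - 1) * go f y y' * go f x x ^ N := by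
  unfold pad
  rw [go_append f _ _ _ _ rfl, go_append f _ _ _ _ h, go_rep f rfl, go_rep f rfl]

theorem num_pad {b N : ℕ} {x y y' : List ℕ} (h : y.length = y'.length) (hx : ∀ d ∈ x, d < b)
    (hlt : num b y < num b y') : num b (pad N x y) < num b (pad N x y') := by
  unfold pad
  refine num_append_right (by simp [h]) (num_append_left rfl (fun d hd => hx d (mem_rep hd)) hlt)

section monoid

variable {M : Type} [Monoid M] {N : ℕ}

theorem pad_neutral (hN : 1 ≤ N) {A B : M} (hA : A ^ N * A ^ N = A ^ N) :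
    A ^ N * (A ^ (2 * N - 1) * B * A ^ N) = A ^ (2 * N - 1) * B * A ^ N ∧
      A ^ (2 * N - 1) * B * A ^ N * A ^ N = A ^ (2 * N - 1) * B * A ^ N := by
  constructor
  · rw [← mul_assoc, ← mul_assoc, ← pow_add, add_comm, pow_add_N hA (by omega)]
  · rw [mul_assoc, hA]

theorem pad_diag (hN : 1 ≤ N) {A : M} (hA : A ^ N * A ^ N = A ^ N) :
    A ^ (2 * N - 1) * A * A ^ N = A ^ N := by
  rw [← pow_succ, show 2 * N - 1 + 1 = N + N by omega, pow_add, hA, hA]

end monoid

theorem letters {N b : ℕ} (hN : 1 ≤ N) (hb : 2 ≤ b)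
    (hpow : ∀ g : Function.End Q, g ^ N * g ^ N = g ^ N) (f : Q → (Fin 2 → ℕ) → Q) :
    ∃ Z O : List ℕ, Z.length = 18 * N ^ 3 ∧ O.length = 18 * N ^ 3 ∧ (∀ d ∈ Z, d ≤ 1) ∧
      (∀ d ∈ O, d ≤ 1) ∧ num b Z < num b O ∧ ∃ ε β γ : Function.End Q,
        go f Z Z = ε ∧ go f O O = ε ∧ go f Z O = β ∧ go f O Z = γ ∧ ε * ε = ε ∧ ε * β = β ∧
          β * ε = β ∧ ε * γ = γ ∧ γ * ε = γ ∧ β * β = β ∧ γ * γ = γ := by
  -- first step
  set o := pad N [0] [0] with ho
  set i := pad N [0] [1] with hi
  have hlo : o.length = 3 * N := by rw [ho, length_pad hN rfl]; simp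
  have hli : i.length = 3 * N := by
    rw [hi, length_pad hN (x := [0]) (y := [1]) rfl]; simp
  have hdo : ∀ d ∈ o, d ≤ 1 := by
    intro d hd
    rcases mem_pad hd with h | h <;> simp at h <;> omega
  have hdi : ∀ d ∈ i, d ≤ 1 := by
    intro d hd
    rcases mem_pad hd with h | h <;> simp at h <;> omega
  set A := go f [0] [0] with hA
  have hAA := hpow A
  have hgo : go f o o = A ^ N := by
    rw [ho, go_pad f N rfl, ← hA]
    exact pad_diag hN hAA
  set D := go f i i with hD
  have hDe : D = A ^ (2 * N - 1) * go f [1] [1] * A ^ N := by rw [hD, hi, go_pad f N rfl, hA]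
  have hD1 : A ^ N * D = D := by rw [hDe]; exact (pad_neutral hN hAA).1
  have hD2 : D * A ^ N = D := by rw [hDe]; exact (pad_neutral hN hAA).2
  have hoi : num b o < num b i := by
    rw [ho, hi]
    refine num_pad rfl (fun d hd => ?_) ?_
    · simp at hd; omega
    · simp [num]
  -- second step
  set u := o ++ i with hu
  set v := i ++ o with hv
  have hlu : u.length = 6 * N := by rw [hu, List.length_append, hlo, hli]; ring
  have hlv : v.length = 6 * N := by rw [hv, List.length_append, hlo, hli]; ring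
  have hguu : go f u u = D := by rw [hu, go_append f _ _ _ _ rfl, hgo, ← hD, hD2]
  have hgvv : go f v v = D := by rw [hv, go_append f _ _ _ _ rfl, hgo, ← hD, hD1]
  have hdu : ∀ d ∈ u, d ≤ 1 := by
    intro d hd
    rcases List.mem_append.1 hd with h | h
    · exact hdo d h
    · exact hdi d h
  have hdv : ∀ d ∈ v, d ≤ 1 := by
    intro d hd
    rcases List.mem_append.1 hd with h | h
    · exact hdi d h
    · exact hdo d h
  have huv : num b u < num b v := by
    rw [hu, hv]
    exact num_append_left (hli.trans hlo.symm) (fun d hd => by have := hdi d hd; omega) hoi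
  -- third step
  set X := pad N u u with hX
  set Y := pad N u v with hY
  have hlX : X.length = 18 * N ^ 2 := by rw [hX, length_pad hN rfl, hlu]; ring
  have hlY : Y.length = 18 * N ^ 2 := by rw [hY, length_pad hN (hlu.trans hlv.symm), hlu]; ring
  have hDD := hpow D
  have hXX : go f X X = D ^ N := by
    rw [hX, go_pad f N rfl, hguu]
    exact pad_diag hN hDD
  have hYY : go f Y Y = D ^ N := by
    rw [hY, go_pad f N rfl, hguu, hgvv]
    exact pad_diag hN hDD
  have hXY : go f X Y = D ^ (2 * N - 1) * go f u v * D ^ N := by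
    rw [hX, hY, go_pad f N (hlu.trans hlv.symm), hguu]
  have hYX : go f Y X = D ^ (2 * N - 1) * go f v u * D ^ N := by
    rw [hX, hY, go_pad f N (hlv.trans hlu.symm), hguu]
  have hdX : ∀ d ∈ X, d ≤ 1 := by
    intro d hd
    rcases mem_pad hd with h | h <;> exact hdu d h
  have hdY : ∀ d ∈ Y, d ≤ 1 := by
    intro d hd
    rcases mem_pad hd with h | h
    · exact hdu d h
    · exact hdv d h
  have hXYlt : num b X < num b Y := by
    rw [hX, hY]
    exact num_pad (hlu.trans hlv.symm) (fun d hd => by have := hdu d hd; omega) huv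
  -- fourth step
  have hlXY : X.length = Y.length := hlX.trans hlY.symm
  have hn1 : D ^ N * go f X Y = go f X Y ∧ go f X Y * D ^ N = go f X Y := by
    rw [hXY]; exact pad_neutral hN hDD
  have hn2 : D ^ N * go f Y X = go f Y X ∧ go f Y X * D ^ N = go f Y X := by
    rw [hYX]; exact pad_neutral hN hDD
  refine ⟨rep N X, rep N Y, ?_, ?_, fun d hd => hdX d (mem_rep hd), fun d hd => hdY d (mem_rep hd),
    num_rep hN hlXY (fun d hd => by have := hdX d hd; omega) hXYlt,
    D ^ N, go f X Y ^ N, go f Y X ^ N, ?_, ?_, go_rep f hlXY N, go_rep f hlXY.symm N, hDD,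
    (neutral_pow hn1.1 hn1.2 hN).1, (neutral_pow hn1.1 hn1.2 hN).2,
    (neutral_pow hn2.1 hn2.2 hN).1, (neutral_pow hn2.1 hn2.2 hN).2, hpow _, hpow _⟩
  · rw [length_rep, hlX]; ring
  · rw [length_rep, hlY]; ring
  · rw [go_rep f rfl, hXX]; exact idem_pow hDD hN
  · rw [go_rep f rfl, hYY]; exact idem_pow hDD hN

/-- The nested code. -/
theorem family {N b W : ℕ} (hN : 1 ≤ N) (hb : 2 ≤ b) (f : Q → (Fin 2 → ℕ) → Q)
    (hpow : ∀ g : Function.End Q, g ^ N * g ^ N = g ^ N)
    {Z O : List ℕ} (hZ : Z.length = W) (hO : O.length = W) (hdZ : ∀ d ∈ Z, d ≤ 1)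
    (hdO : ∀ d ∈ O, d ≤ 1) (hlt : num b Z < num b O) {ε β γ : Function.End Q}
    (h1 : go f Z Z = ε) (h2 : go f O O = ε) (h3 : go f Z O = β) (h4 : go f O Z = γ)
    (h5 : ε * ε = ε) (h6 : ε * β = β) (h7 : β * ε = β) (h8 : ε * γ = γ) (h9 : γ * ε = γ)
    (h10 : β * β = β) (h11 : γ * γ = γ) (k : ℕ) :
    ∃ F : Finset (List ℕ), F.card = 2 ^ k ∧ (∀ l ∈ F, l.length = W * (1 + k * (2 * N + 1))) ∧
      (∀ l ∈ F, ∀ d ∈ l, d ≤ 1) ∧ ∀ l ∈ F, ∀ l' ∈ F,
        (l = l' ∧ go f l l' = ε) ∨ (num b l < num b l' ∧ go f l l' = (γ * β) ^ N) ∨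
          (num b l' < num b l ∧ go f l l' = (β * γ) ^ N) := by
  have hZO : Z.length = O.length := hZ.trans hO.symm
  set p := (γ * β) ^ N with hp
  set q := (β * γ) ^ N with hq
  have hpp : p * p = p := hpow _
  have hqq : q * q = q := hpow _
  have hpβ : p * β = p := absorb h10 hN
  have hqγ : q * γ = q := absorb h11 hN
  have hqβ : q * β = β * p := swap N
  have hpγ : p * γ = γ * q := swap N
  have hεγβ : ε * (γ * β) = γ * β := by rw [← mul_assoc, h8]
  have hγβε : γ * β * ε = γ * β := by rw [mul_assoc, h7]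
  have hεβγ : ε * (β * γ) = β * γ := by rw [← mul_assoc, h6]
  have hβγε : β * γ * ε = β * γ := by rw [mul_assoc, h9]
  have hεp : ε * p = p := (neutral_pow hεγβ hγβε hN).1
  have hpε : p * ε = p := (neutral_pow hεγβ hγβε hN).2
  have hεq : ε * q = q := (neutral_pow hεβγ hβγε hN).1
  have hqε : q * ε = q := (neutral_pow hεβγ hβγε hN).2
  -- the six products
  have hpqβ : p * q * β = p := by rw [mul_assoc, hqβ, ← mul_assoc, hpβ, hpp]
  have hqpγ : q * p * γ = q := by rw [mul_assoc, hpγ, ← mul_assoc, hqγ, hqq]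
  induction k with
  | zero =>
    refine ⟨{Z}, by simp, ?_, ?_, ?_⟩
    · intro l hl
      rw [mem_singleton.1 hl, hZ]
      simp
    · intro l hl
      rw [mem_singleton.1 hl]
      exact hdZ
    · intro l hl l' hl'
      rw [mem_singleton.1 hl, mem_singleton.1 hl']
      exact Or.inl ⟨rfl, h1⟩
  | succ k ih =>
    obtain ⟨F, hcard, hlen, hdig, hrel⟩ := ih
    set E : List ℕ → List ℕ → List ℕ → List ℕ := fun z z' r => z ++ (r ++ rep N (z ++ z')) with hE
    have hgo : ∀ z z' y y' r r' : List ℕ, z.length = y.length → z'.length = y'.length →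
        r.length = r'.length → go f (E z z' r) (E y y' r')
          = (go f z' y' * go f z y) ^ N * go f r r' * go f z y := by
      intro z z' y y' r r' e1 e2 e3
      show go f (z ++ (r ++ rep N (z ++ z'))) (y ++ (r' ++ rep N (y ++ y'))) = _
      rw [go_append f _ _ _ _ e1, go_append f _ _ _ _ e3, go_rep f (by simp [e1, e2]),
        go_append f _ _ _ _ e1]
    have hElen : ∀ z z' r : List ℕ, z.length = W → z'.length = W → r ∈ F →
        (E z z' r).length = W * (1 + (k + 1) * (2 * N + 1)) := by
      intro z z' r e1 e2 hr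
      show (z ++ (r ++ rep N (z ++ z'))).length = _
      rw [List.length_append, List.length_append, length_rep, List.length_append, e1, e2,
        hlen r hr]
      ring
    have hEdig : ∀ z z' r : List ℕ, (∀ d ∈ z, d ≤ 1) → (∀ d ∈ z', d ≤ 1) → r ∈ F →
        ∀ d ∈ E z z' r, d ≤ 1 := by
      intro z z' r e1 e2 hr d hd
      rcases List.mem_append.1 hd with h | h
      · exact e1 d h
      · rcases List.mem_append.1 h with h | h
        · exact hdig r hr d h
        · rcases List.mem_append.1 (mem_rep h) with h | h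
          · exact e1 d h
          · exact e2 d h
    have hsame : ∀ z z' r r' : List ℕ, (∀ d ∈ z, d ≤ 1) → (∀ d ∈ z', d ≤ 1) →
        r ∈ F → r' ∈ F → num b r < num b r' →
        num b (E z z' r) < num b (E z z' r') := by
      intro z z' r r' e1 e2 hr hr' h
      refine num_append_right (by simp [hlen r hr, hlen r' hr']) (num_append_left rfl ?_ h)
      intro d hd
      rcases List.mem_append.1 (mem_rep hd) with h | h
      · have := e1 d h; omega
      · have := e2 d h; omega
    have hdiff : ∀ r r' : List ℕ, r ∈ F → r' ∈ F → num b (E Z O r) < num b (E O Z r') := by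
      intro r r' hr hr'
      refine num_append_left ?_ ?_ hlt
      · rw [List.length_append, List.length_append, length_rep, length_rep, hlen r hr,
          hlen r' hr', List.length_append, List.length_append, hZ, hO]
      · intro d hd
        rcases List.mem_append.1 hd with h | h
        · have := hdig r hr d h; omega
        · rcases List.mem_append.1 (mem_rep h) with h | h
          · have := hdZ d h; omega
          · have := hdO d h; omega
    have hinj : ∀ z z' : List ℕ, Function.Injective (E z z') := by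
      intro z z' r r' h
      have h' : z ++ (r ++ rep N (z ++ z')) = z ++ (r' ++ rep N (z ++ z')) := h
      exact List.append_cancel_right (List.append_cancel_left h')
    have hεN : (ε * ε) ^ N = ε := by rw [h5]; exact idem_pow h5 hN
    refine ⟨F.image (E Z O) ∪ F.image (E O Z), ?_, ?_, ?_, ?_⟩
    · rw [card_union_of_disjoint, card_image_of_injective _ (hinj Z O),
        card_image_of_injective _ (hinj O Z), hcard, pow_succ]
      · ring
      · rw [disjoint_left]
        intro x hx hx'
        obtain ⟨r, hr, rfl⟩ := mem_image.1 hx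
        obtain ⟨r', hr', he⟩ := mem_image.1 hx'
        have := hdiff r r' hr hr'
        rw [he] at this
        exact lt_irrefl _ this
    · intro l hl
      rcases mem_union.1 hl with h | h
      · obtain ⟨r, hr, rfl⟩ := mem_image.1 h
        exact hElen Z O r hZ hO hr
      · obtain ⟨r, hr, rfl⟩ := mem_image.1 h
        exact hElen O Z r hO hZ hr
    · intro l hl
      rcases mem_union.1 hl with h | h
      · obtain ⟨r, hr, rfl⟩ := mem_image.1 h
        exact hEdig Z O r hdZ hdO hr
      · obtain ⟨r, hr, rfl⟩ := mem_image.1 h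
        exact hEdig O Z r hdO hdZ hr
    · intro l hl l' hl'
      rcases mem_union.1 hl with h | h <;> obtain ⟨r, hr, rfl⟩ := mem_image.1 h <;>
        rcases mem_union.1 hl' with h' | h' <;> obtain ⟨r', hr', rfl⟩ := mem_image.1 h'
      · have hg := hgo Z O Z O r r' rfl rfl (by rw [hlen r hr, hlen r' hr'])
        rw [h1, h2, hεN] at hg
        rcases hrel r hr r' hr' with ⟨he, hu⟩ | ⟨he, hu⟩ | ⟨he, hu⟩
        · left
          refine ⟨by rw [he], ?_⟩
          rw [hg, hu, h5, h5]
        · right; left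
          refine ⟨hsame Z O r r' hdZ hdO hr hr' he, ?_⟩
          rw [hg, hu, hεp, hpε]
        · right; right
          refine ⟨hsame Z O r' r hdZ hdO hr' hr he, ?_⟩
          rw [hg, hu, hεq, hqε]
      · have hg := hgo Z O O Z r r' hZO hZO.symm (by rw [hlen r hr, hlen r' hr'])
        rw [h3, h4] at hg
        right; left
        refine ⟨hdiff r r' hr hr', ?_⟩
        rw [hg]
        rcases hrel r hr r' hr' with ⟨he, hu⟩ | ⟨he, hu⟩ | ⟨he, hu⟩
        · rw [hu, ← hp, hpε, hpβ]
        · rw [hu, ← hp, hpp, hpβ]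
        · rw [hu, ← hp, hpqβ]
      · have hg := hgo O Z Z O r r' hZO.symm hZO (by rw [hlen r hr, hlen r' hr'])
        rw [h3, h4] at hg
        right; right
        refine ⟨hdiff r' r hr' hr, ?_⟩
        rw [hg]
        rcases hrel r hr r' hr' with ⟨he, hu⟩ | ⟨he, hu⟩ | ⟨he, hu⟩
        · rw [hu, ← hq, hqε, hqγ]
        · rw [hu, ← hq, hqpγ]
        · rw [hu, ← hq, hqq, hqγ]
      · have hg := hgo O Z O Z r r' rfl rfl (by rw [hlen r hr, hlen r' hr'])
        rw [h1, h2, hεN] at hg
        rcases hrel r hr r' hr' with ⟨he, hu⟩ | ⟨he, hu⟩ | ⟨he, hu⟩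
        · left
          refine ⟨by rw [he], ?_⟩
          rw [hg, hu, h5, h5]
        · right; left
          refine ⟨hsame O Z r r' hdO hdZ hr hr' he, ?_⟩
          rw [hg, hu, hεp, hpε]
        · right; right
          refine ⟨hsame O Z r' r hdO hdZ hr' hr he, ?_⟩
          rw [hg, hu, hεq, hqε]

end Pool.Agent.H267R3.PR
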