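import Pool.Agent.H267R3.PR.Pair2

/-! # Colourings of pairs by finite automata: homogeneous sets of polynomial size -/

set_option autoImplicit false

namespace Pool.Agent.H267R3.PR

open Finset

theorem pairs_auto {κ : Type} (b m w k : ℕ) (hb : 2 ≤ b) (hm : 72 * (Finset.Icc 1 w).lcm id ^ 4 * k ≤ m)
    (c : Finset ℕ → κ) (hc : ComputedByAutomaton b m 2 w c) :
    ∃ S ⊆ range (b ^ m), S.card = 2 ^ k ∧ Homogeneous 2 c S := by
  classical
  rcases Nat.eq_zero_or_pos k with hk | hk
  · subst hk
    refine ⟨{0}, ?_, by simp, ?_⟩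
    · intro x hx
      rw [mem_singleton.1 hx, mem_range]
      positivity
    · intro A hA B _ hA2 _
      have := card_le_card hA
      rw [hA2, card_singleton] at this
      omega
  obtain ⟨Q, _, start, f, out, hQ, hcomp⟩ := hc
  set N := (Finset.Icc 1 w).lcm id with hNdef
  have hN : 1 ≤ N := by
    rw [Nat.one_le_iff_ne_zero, hNdef, Ne, Finset.lcm_eq_zero_iff]
    simp
  have hdiv : ∀ d, 1 ≤ d → d ≤ Fintype.card Q → d ∣ N := by
    intro d h1 h2
    exact Finset.dvd_lcm (f := id) (Finset.mem_Icc.2 ⟨h1, h2.trans hQ⟩)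
  have hpow : ∀ g : Function.End Q, g ^ N * g ^ N = g ^ N := fun g => pow_idem hN hdiv g
  obtain ⟨Z, O, hZ, hO, hdZ, hdO, hlt, ε, β, γ, h1, h2, h3, h4, h5, h6, h7, h8, h9, h10, h11⟩ :=
    letters hN hb hpow f
  obtain ⟨F, hcard, hlen, hdig, hrel⟩ :=
    family hN hb f hpow hZ hO hdZ hdO hlt h1 h2 h3 h4 h5 h6 h7 h8 h9 h10 h11 k
  set L := 18 * N ^ 3 * (1 + k * (2 * N + 1)) with hL
  have hLm : L ≤ m := by
    refine le_trans ?_ hm
    calc L ≤ 18 * N ^ 3 * (k * (4 * N)) := by
          rw [hL]
          refine Nat.mul_le_mul_left _ ?_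
          nlinarith
      _ = 72 * N ^ 4 * k := by ring
  set P := List.replicate (m - L) 0 with hP
  have hPd : ∀ d ∈ P, d ≤ 1 := by
    intro d hd
    rw [List.eq_of_mem_replicate hd]
    omega
  have hPl : P.length = m - L := by simp [hP]
  have hlenP : ∀ l ∈ F, (P ++ l).length = m := by
    intro l hl
    rw [List.length_append, hPl, hlen l hl]
    omega
  have hdP : ∀ l ∈ F, ∀ d ∈ P ++ l, d < b := by
    intro l hl d hd
    rcases List.mem_append.1 hd with h | h
    · have := hPd d h; omega
    · have := hdig l hl d h; omega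
  have hord : ∀ l ∈ F, ∀ l' ∈ F, num b l < num b l' → num b (P ++ l) < num b (P ++ l') :=
    fun l hl l' hl' h => num_append_right ((hlen l hl).trans (hlen l' hl').symm) h
  have hinj : Set.InjOn (fun l => num b (P ++ l)) F := by
    intro l hl l' hl' h
    have h' : num b (P ++ l) = num b (P ++ l') := h
    rcases hrel l hl l' hl' with ⟨he, _⟩ | ⟨he, _⟩ | ⟨he, _⟩
    · exact he
    · have := hord l hl l' hl' he; omega
    · have := hord l' hl' l hl he; omega
  refine ⟨F.image (fun l => num b (P ++ l)), ?_, ?_, ?_⟩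
  · intro x hx
    obtain ⟨l, hl, rfl⟩ := mem_image.1 hx
    rw [mem_range]
    have := num_lt (hdP l hl)
    rwa [hlenP l hl] at this
  · rw [card_image_of_injOn hinj, hcard]
  have key : ∀ A ⊆ F.image (fun l => num b (P ++ l)), A.card = 2 →
      c A = out (((γ * β) ^ N * go f P P) start) := by
    intro A hA hA2
    obtain ⟨x, y, hxy, rfl⟩ := card_eq_two.1 hA2
    -- order the two elements
    obtain ⟨x, y, hxy, hA, hset⟩ : ∃ x' y', x' < y' ∧
        ({x', y'} : Finset ℕ) ⊆ F.image (fun l => num b (P ++ l)) ∧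
        ({x, y} : Finset ℕ) = {x', y'} := by
      rcases Nat.lt_or_gt_of_ne hxy with h | h
      · exact ⟨x, y, h, hA, rfl⟩
      · exact ⟨y, x, h, by rwa [pair_comm], pair_comm _ _⟩
    rw [hset]
    obtain ⟨l, hl, hlx⟩ := mem_image.1 (hA (mem_insert_self x {y}))
    obtain ⟨l', hl', hly⟩ := mem_image.1 (hA (mem_insert_of_mem (mem_singleton_self y)))
    have hlx' : num b (P ++ l) = x := hlx
    have hly' : num b (P ++ l') = y := hly
    have hgo : go f l l' = (γ * β) ^ N := by
      rcases hrel l hl l' hl' with ⟨he, _⟩ | ⟨_, he⟩ | ⟨he, _⟩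
      · rw [he] at hlx'; omega
      · exact he
      · have := hord l' hl' l hl he; omega
    have himg : univ.image ![x, y] = {x, y} := by
      ext z
      simp [Fin.exists_fin_two, eq_comm]
    have hmono : StrictMono ![x, y] := by
      intro i j hij
      fin_cases i <;> fin_cases j
      · exact absurd hij (lt_irrefl _)
      · exact hxy
      · exact absurd hij (by decide)
      · exact absurd hij (lt_irrefl _)
    have hltm : ∀ i, ![x, y] i < b ^ m := by
      intro i
      fin_cases i
      · show x < b ^ m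
        rw [← hlx', ← hlenP l hl]
        exact num_lt (hdP l hl)
      · show y < b ^ m
        rw [← hly', ← hlenP l' hl']
        exact num_lt (hdP l' hl')
    rw [← himg, hcomp ![x, y] hmono hltm, ← hlx', ← hly',
      run_eq_go (by omega) f m _ _ start (hlenP l hl) (hlenP l' hl') (hdP l hl) (hdP l' hl'),
      go_append f _ _ _ _ rfl, hgo]
  intro A hA B hB hA2 hB2
  rw [key A hA hA2, key B hB hB2]

end Pool.Agent.H267R3.PR
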