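import Pool.Agent.H267R3.PR.Defs
import Pool.Agent.H818R2.Ram.Erdos

/-! # Colourings of pairs by finite automata with three states: lexicographic powers -/

set_option autoImplicit false

namespace Pool.Agent.H267R3.PR

open Finset

/-- A graph on `2 ^ q` vertices without homogeneous set of size `2 q` (Erdős). -/
theorem exists_graph (q : ℕ) (hq : 2 ≤ q) : ∃ G : SimpleGraph (Fin (2 ^ q)),
    (∀ s : Finset (Fin (2 ^ q)), ¬ G.IsNClique (2 * q) s) ∧
      ∀ s : Finset (Fin (2 ^ q)), ¬ Gᶜ.IsNClique (2 * q) s := by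
  have h1 : 2 ^ (2 * q) < (Pool.Agent.H818R2.Ram.R (2 * q) (2 * q)) ^ 2 :=
    Pool.Agent.H818R2.Ram.erdos_lower (by omega)
  have h2 : 2 ^ q < Pool.Agent.H818R2.Ram.R (2 * q) (2 * q) := by
    rw [mul_comm 2 q, pow_mul, mul_comm q 2] at h1
    exact lt_of_pow_lt_pow_left₀ 2 (Nat.zero_le _) h1
  have h3 : ¬ Pool.Agent.H818R2.Ram.Arrows (2 ^ q) (2 * q) (2 * q) := by
    intro h
    exact Nat.notMem_of_lt_sInf h2 h
  unfold Pool.Agent.H818R2.Ram.Arrows at h3
  push Not at h3
  exact h3

/-- An adjacency function on natural numbers `< 2 ^ q`. -/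
theorem exists_adj (q : ℕ) (hq : 2 ≤ q) : ∃ adj : ℕ → ℕ → Bool,
    ∀ (D : Finset ℕ) (col : Bool), D ⊆ range (2 ^ q) →
      (∀ x ∈ D, ∀ y ∈ D, x < y → adj x y = col) → D.card ≤ 2 * q - 1 := by
  classical
  obtain ⟨G, hG1, hG2⟩ := exists_graph q hq
  let e : ℕ → Fin (2 ^ q) := fun x => if h : x < 2 ^ q then ⟨x, h⟩ else ⟨0, by positivity⟩
  have he : ∀ x < 2 ^ q, (e x : ℕ) = x := by
    intro x hx
    simp [e, hx]
  refine ⟨fun x y => decide (G.Adj (e x) (e y)), ?_⟩
  intro D col hD hcol
  by_contra hlt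
  obtain ⟨D', hD'D, hD'c⟩ := exists_subset_card_eq (show 2 * q ≤ D.card by omega)
  have hinj : Set.InjOn e D' := by
    intro x hx y hy h
    have h1 := he x (mem_range.1 (hD (hD'D hx)))
    have h2 := he y (mem_range.1 (hD (hD'D hy)))
    rw [← h1, ← h2, h]
  have hcard : (D'.image e).card = 2 * q := by rw [card_image_of_injOn hinj, hD'c]
  have hpair : ∀ x ∈ D', ∀ y ∈ D', x ≠ y → decide (G.Adj (e x) (e y)) = col := by
    intro x hx y hy hxy
    rcases Nat.lt_or_gt_of_ne hxy with h | h
    · exact hcol x (hD'D hx) y (hD'D hy) h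
    · have := hcol y (hD'D hy) x (hD'D hx) h
      rw [← this]
      simp only [G.adj_comm]
  cases col with
  | true =>
    refine hG1 (D'.image e) ⟨?_, hcard⟩
    intro a ha b hb hab
    obtain ⟨x, hx, rfl⟩ := mem_image.1 (mem_coe.1 ha)
    obtain ⟨y, hy, rfl⟩ := mem_image.1 (mem_coe.1 hb)
    have := hpair x hx y hy (fun h => hab (by rw [h]))
    simpa using this
  | false =>
    refine hG2 (D'.image e) ⟨?_, hcard⟩
    intro a ha b hb hab
    obtain ⟨x, hx, rfl⟩ := mem_image.1 (mem_coe.1 ha)
    obtain ⟨y, hy, rfl⟩ := mem_image.1 (mem_coe.1 hb)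
    have := hpair x hx y hy (fun h => hab (by rw [h]))
    rw [SimpleGraph.compl_adj]
    exact ⟨hab, by simpa using this⟩

/-- The automaton: wait for the first column with two different digits. -/
def lstep (adj : ℕ → ℕ → Bool) : Option Bool → (Fin 2 → ℕ) → Option Bool
  | none, col => if col 0 = col 1 then none else some (adj (col 0) (col 1))
  | some b, _ => some b

def lout : Option Bool → Bool
  | some b => b
  | none => false

/-- The colour of the pair `x < y`. -/
def lcol (b : ℕ) (adj : ℕ → ℕ → Bool) (m x y : ℕ) : Bool :=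
  lout (run b m (fun _ => lstep adj) none ![x, y] m)

theorem digit_mod {b n s v : ℕ} (hs : s < n) :
    digit b (n + 1) (s + 1) v = digit b n s (v % b ^ n) := by
  unfold digit
  have h1 : n + 1 - 1 - (s + 1) = n - 1 - s := by omega
  rw [h1]
  have h2 : b ^ n = b ^ (n - 1 - s) * b ^ (s + 1) := by
    rw [← pow_add]; congr 1; omega
  rw [h2, Nat.mod_mul_right_div_self, Nat.mod_mod_of_dvd]
  exact dvd_pow_self _ (by omega)

theorem run_some (b n : ℕ) (adj : ℕ → ℕ → Bool) (v : Fin 2 → ℕ) (a : Bool) (t : ℕ) :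
    run b n (fun _ => lstep adj) (some a) v t = some a := by
  induction t with
  | zero => rfl
  | succ t ih =>
    show lstep adj (run b n (fun _ => lstep adj) (some a) v t) _ = _
    rw [ih]
    rfl

theorem run_shift (b n : ℕ) (adj : ℕ → ℕ → Bool) (q : Option Bool) (x y t : ℕ)
    (ht : t ≤ n) :
    run b (n + 1) (fun _ => lstep adj) q ![x, y] (t + 1)
      = run b n (fun _ => lstep adj) (lstep adj q ![digit b (n + 1) 0 x, digit b (n + 1) 0 y])
        ![x % b ^ n, y % b ^ n] t := by
  induction t with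
  | zero =>
    show lstep adj q (fun i => digit b (n + 1) 0 (![x, y] i)) = _
    congr 1
    funext i
    fin_cases i <;> rfl
  | succ t ih =>
    show lstep adj (run b (n + 1) (fun _ => lstep adj) q ![x, y] (t + 1))
        (fun i => digit b (n + 1) (t + 1) (![x, y] i)) = _
    rw [ih (by omega)]
    show lstep adj _ _ = lstep adj _ (fun i => digit b n t (![x % b ^ n, y % b ^ n] i))
    congr 1
    funext i
    fin_cases i
    · exact digit_mod (by omega)
    · exact digit_mod (by omega)

theorem lcol_ne {b n x y : ℕ} (hb : 0 < b) (adj : ℕ → ℕ → Bool)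
    (hx : x < b ^ (n + 1)) (hy : y < b ^ (n + 1)) (h : x / b ^ n ≠ y / b ^ n) :
    lcol b adj (n + 1) x y = adj (x / b ^ n) (y / b ^ n) := by
  have hd : ∀ z, z < b ^ (n + 1) → digit b (n + 1) 0 z = z / b ^ n := by
    intro z hz
    unfold digit
    rw [show n + 1 - 1 - 0 = n by omega]
    exact Nat.mod_eq_of_lt (Nat.div_lt_of_lt_mul (by rwa [pow_succ] at hz))
  unfold lcol
  rw [run_shift b n adj none x y n le_rfl, hd x hx, hd y hy]
  have : lstep adj none ![x / b ^ n, y / b ^ n] = some (adj (x / b ^ n) (y / b ^ n)) := by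
    show (if x / b ^ n = y / b ^ n then none else some (adj (x / b ^ n) (y / b ^ n))) = _
    rw [if_neg h]
  rw [this, run_some]
  rfl

theorem lcol_eq {b n x y : ℕ} (hb : 0 < b) (adj : ℕ → ℕ → Bool)
    (hx : x < b ^ (n + 1)) (hy : y < b ^ (n + 1)) (h : x / b ^ n = y / b ^ n) :
    lcol b adj (n + 1) x y = lcol b adj n (x % b ^ n) (y % b ^ n) := by
  have hd : ∀ z, z < b ^ (n + 1) → digit b (n + 1) 0 z = z / b ^ n := by
    intro z hz
    unfold digit
    rw [show n + 1 - 1 - 0 = n by omega]
    exact Nat.mod_eq_of_lt (Nat.div_lt_of_lt_mul (by rwa [pow_succ] at hz))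
  unfold lcol
  rw [run_shift b n adj none x y n le_rfl, hd x hx, hd y hy]
  have : lstep adj none ![x / b ^ n, y / b ^ n] = none := by
    show (if x / b ^ n = y / b ^ n then none else some (adj (x / b ^ n) (y / b ^ n))) = _
    rw [if_pos h]
  rw [this]

theorem small {b K : ℕ} (hb : 0 < b) (adj : ℕ → ℕ → Bool)
    (hadj : ∀ (D : Finset ℕ) (col : Bool), D ⊆ range b →
      (∀ x ∈ D, ∀ y ∈ D, x < y → adj x y = col) → D.card ≤ K) (col : Bool) (m : ℕ) :
    ∀ S ⊆ range (b ^ m), (∀ x ∈ S, ∀ y ∈ S, x < y → lcol b adj m x y = col) →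
      S.card ≤ K ^ m := by
  induction m with
  | zero =>
    intro S hS _
    have := card_le_card hS
    simpa using this
  | succ m ih =>
    intro S hS hcol
    have hlt : ∀ x ∈ S, x < b ^ (m + 1) := fun x hx => mem_range.1 (hS hx)
    have hbm : 0 < b ^ m := by positivity
    set D := S.image (fun x => x / b ^ m) with hD
    have hDK : D.card ≤ K := by
      refine hadj D col ?_ ?_
      · intro d hd
        obtain ⟨x, hx, rfl⟩ := mem_image.1 hd
        rw [mem_range]
        exact Nat.div_lt_of_lt_mul (by have := hlt x hx; rwa [pow_succ] at this)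
      · intro d hd d' hd' hdd
        obtain ⟨x, hx, rfl⟩ := mem_image.1 hd
        obtain ⟨y, hy, rfl⟩ := mem_image.1 hd'
        have hxy : x < y := by
          by_contra h
          have : y / b ^ m ≤ x / b ^ m := Nat.div_le_div_right (by omega)
          omega
        rw [← lcol_ne hb adj (hlt x hx) (hlt y hy) (by omega)]
        exact hcol x hx y hy hxy
    have hfib : ∀ d ∈ D, (S.filter (fun x => x / b ^ m = d)).card ≤ K ^ m := by
      intro d _
      have hinj : Set.InjOn (fun x => x % b ^ m) (S.filter (fun x => x / b ^ m = d)) := by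
        intro x hx y hy h
        have hx' := (mem_filter.1 (mem_coe.1 hx)).2
        have hy' := (mem_filter.1 (mem_coe.1 hy)).2
        have h' : x % b ^ m = y % b ^ m := h
        rw [← Nat.div_add_mod x (b ^ m), ← Nat.div_add_mod y (b ^ m), hx', hy', h']
      rw [← card_image_of_injOn hinj]
      refine ih _ ?_ ?_
      · intro z hz
        obtain ⟨x, _, rfl⟩ := mem_image.1 hz
        exact mem_range.2 (Nat.mod_lt _ hbm)
      · intro z hz z' hz' hzz
        obtain ⟨x, hx, rfl⟩ := mem_image.1 hz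
        obtain ⟨y, hy, rfl⟩ := mem_image.1 hz'
        obtain ⟨hx, hxd⟩ := mem_filter.1 hx
        obtain ⟨hy, hyd⟩ := mem_filter.1 hy
        have hxy : x < y := by
          rw [← Nat.div_add_mod x (b ^ m), ← Nat.div_add_mod y (b ^ m), hxd, hyd]
          omega
        rw [← lcol_eq hb adj (hlt x hx) (hlt y hy) (hxd.trans hyd.symm)]
        exact hcol x hx y hy hxy
    calc S.card = ∑ d ∈ D, (S.filter (fun x => x / b ^ m = d)).card :=
          card_eq_sum_card_fiberwise (fun x hx => mem_image_of_mem _ hx)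
      _ ≤ ∑ _d ∈ D, K ^ m := sum_le_sum hfib
      _ = D.card * K ^ m := by rw [sum_const, smul_eq_mul]
      _ ≤ K * K ^ m := Nat.mul_le_mul_right _ hDK
      _ = K ^ (m + 1) := by rw [pow_succ, mul_comm]

open Classical in
/-- The colouring of the pairs. -/
noncomputable def lcolour (b : ℕ) (adj : ℕ → ℕ → Bool) (m : ℕ) (A : Finset ℕ) : Bool :=
  if h : A.card = 2 then lcol b adj m (A.orderEmbOfFin h 0) (A.orderEmbOfFin h 1) else false

theorem lcolour_eq (b : ℕ) (adj : ℕ → ℕ → Bool) (m : ℕ) (v : Fin 2 → ℕ) (hv : StrictMono v) :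
    lcolour b adj m (univ.image v) = lout (run b m (fun _ => lstep adj) none v m) := by
  have hcard : (univ.image v).card = 2 := by
    rw [card_image_of_injective _ hv.injective, card_univ, Fintype.card_fin]
  unfold lcolour
  rw [dif_pos hcard]
  have h1 : v = fun i => (univ.image v).orderEmbOfFin hcard i :=
    orderEmbOfFin_unique hcard (fun x => mem_image_of_mem _ (mem_univ _)) hv
  unfold lcol
  have h2 : ![(univ.image v).orderEmbOfFin hcard 0, (univ.image v).orderEmbOfFin hcard 1] = v := by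
    conv_rhs => rw [h1]
    funext i
    fin_cases i <;> rfl
  rw [h2]

theorem pairs_low (q m : ℕ) (hq : 2 ≤ q) :
    ∃ c : Finset ℕ → Bool, ComputedByAutomaton (2 ^ q) m 2 3 c ∧
      ∀ S ⊆ range ((2 ^ q) ^ m), Homogeneous 2 c S → S.card ≤ (2 * q - 1) ^ m := by
  obtain ⟨adj, hadj⟩ := exists_adj q hq
  refine ⟨lcolour (2 ^ q) adj m, ⟨Option Bool, inferInstance, none, lstep adj, lout, by simp,
    fun v hv _ => lcolour_eq _ adj m v hv⟩, ?_⟩
  intro S hS hhom
  have hb : 0 < 2 ^ q := by positivity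
  have hpair : ∀ x y, x < y → lcolour (2 ^ q) adj m {x, y} = lcol (2 ^ q) adj m x y := by
    intro x y hxy
    have hmono : StrictMono ![x, y] := by
      intro i j hij
      fin_cases i <;> fin_cases j
      · exact absurd hij (lt_irrefl _)
      · exact hxy
      · exact absurd hij (by decide)
      · exact absurd hij (lt_irrefl _)
    have himg : univ.image ![x, y] = {x, y} := by
      ext z
      simp [Fin.exists_fin_two, eq_comm]
    rw [← himg, lcolour_eq _ adj m _ hmono]
    rfl
  by_cases h2 : 2 ≤ S.card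
  · obtain ⟨A, hA, hA2⟩ := exists_subset_card_eq h2
    refine small hb adj hadj (lcolour (2 ^ q) adj m A) m S hS ?_
    intro x hx y hy hxy
    rw [← hpair x y hxy]
    refine hhom _ ?_ A hA (card_pair (by omega)) hA2
    intro z hz
    rcases mem_insert.1 hz with h | h
    · rw [h]; exact hx
    · rw [mem_singleton.1 h]; exact hy
  · have : 1 ≤ (2 * q - 1) ^ m := Nat.one_le_pow _ _ (by omega)
    omega

end Pool.Agent.H267R3.PR
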