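import Pool.Agent.H267R3.PR.Pair

/-! # Programs of bounded width: nested codes on sequences of blocks -/

set_option autoImplicit false

namespace Pool.Agent.H267R3.PR

open Finset

variable {Q : Type}

/-- The map of a pair of words read from position `s` on. -/
def goT (f : ℕ → Q → (Fin 2 → ℕ) → Q) : ℕ → List ℕ → List ℕ → Function.End Q
  | s, a :: l, c :: l' => goT f (s + 1) l l' * letter (f s) a c
  | _, _, _ => 1

theorem goT_nil (f : ℕ → Q → (Fin 2 → ℕ) → Q) (s : ℕ) : goT f s [] [] = 1 := by
  simp [goT]

theorem goT_append (f : ℕ → Q → (Fin 2 → ℕ) → Q) : ∀ (s : ℕ) (l1 l1' l2 l2' : List ℕ),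
    l1.length = l1'.length →
      goT f s (l1 ++ l2) (l1' ++ l2') = goT f (s + l1.length) l2 l2' * goT f s l1 l1'
  | s, [], [], l2, l2', _ => by simp [goT]
  | _, [], _ :: _, _, _, h => by simp at h
  | _, _ :: _, [], _, _, h => by simp at h
  | s, a :: l1, c :: l1', l2, l2', h => by
    simp only [List.cons_append, goT]
    rw [goT_append f (s + 1) l1 l1' l2 l2' (by simpa using h), mul_assoc, List.length_cons,
      show s + 1 + l1.length = s + (l1.length + 1) by ring]

theorem run_consT {r : ℕ} (b n : ℕ) (g : ℕ → Q → (Fin r → ℕ) → Q) (q : Q) (v v' : Fin r → ℕ)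
    (t : ℕ) (h : ∀ s < t, ∀ i, digit b (n + 1) (s + 1) (v i) = digit b n s (v' i)) :
    run b (n + 1) g q v (t + 1)
      = run b n (fun t => g (t + 1)) (g 0 q (fun i => digit b (n + 1) 0 (v i))) v' t := by
  induction t with
  | zero => rfl
  | succ t ih =>
    have ih' := ih (fun s hs => h s (by omega))
    show g (t + 1) (run b (n + 1) g q v (t + 1)) (fun i => digit b (n + 1) (t + 1) (v i))
      = g (t + 1) (run b n (fun t => g (t + 1)) (g 0 q (fun i => digit b (n + 1) 0 (v i))) v' t)
          (fun i => digit b n t (v' i))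
    rw [ih']
    congr 1
    funext i
    exact h t (by omega) i

theorem run_eq_goT {b : ℕ} (hb : 0 < b) (f : ℕ → Q → (Fin 2 → ℕ) → Q) :
    ∀ (n s : ℕ) (l l' : List ℕ) (q : Q),
    l.length = n → l'.length = n → (∀ d ∈ l, d < b) → (∀ d ∈ l', d < b) →
      run b n (fun t => f (s + t)) q ![num b l, num b l'] n = goT f s l l' q
  | 0, s, l, l', q, h, h', _, _ => by
    rw [List.length_eq_zero_iff.1 h, List.length_eq_zero_iff.1 h', goT_nil]
    rfl
  | n + 1, _, [], _, _, h, _, _, _ => by simp at h
  | n + 1, _, _ :: _, [], _, _, h, _, _ => by simp at h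
  | n + 1, s, a :: l, c :: l', q, h, h', hd, hd' => by
    have hl : l.length = n := by simpa using h
    have hl' : l'.length = n := by simpa using h'
    have hdl : ∀ d ∈ l, d < b := fun d hdd => hd d (List.mem_cons_of_mem _ hdd)
    have hdl' : ∀ d ∈ l', d < b := fun d hdd => hd' d (List.mem_cons_of_mem _ hdd)
    rw [run_consT b n (fun t => f (s + t)) q ![num b (a :: l), num b (c :: l')]
      ![num b l, num b l'] n]
    · have : (fun i => digit b (n + 1) 0 (![num b (a :: l), num b (c :: l')] i)) = ![a, c] := by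
        funext i
        fin_cases i
        · show digit b (n + 1) 0 (num b (a :: l)) = a
          rw [← hl]
          exact digit_cons_zero (hd a List.mem_cons_self) hdl
        · show digit b (n + 1) 0 (num b (c :: l')) = c
          rw [← hl']
          exact digit_cons_zero (hd' c List.mem_cons_self) hdl'
      rw [this]
      have e : (fun t => f (s + (t + 1))) = fun t => f (s + 1 + t) := by
        funext t
        rw [show s + (t + 1) = s + 1 + t by ring]
      rw [e, run_eq_goT hb f n (s + 1) l l' _ hl hl' hdl hdl']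
      rfl
    · intro s' hs i
      fin_cases i
      · show digit b (n + 1) (s' + 1) (num b (a :: l)) = digit b n s' (num b l)
        rw [← hl] at hs ⊢
        exact digit_cons_succ hb hs
      · show digit b (n + 1) (s' + 1) (num b (c :: l')) = digit b n s' (num b l')
        rw [← hl'] at hs ⊢
        exact digit_cons_succ hb hs

/-- The three values of a comparison. -/
def tri {K : ℕ} {M : Type} (e β γ : M) (x y : Fin K) : M :=
  if x = y then e else if x < y then β else γ

/-- A sequence of consecutive blocks with the same maps. -/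
structure Blocks (f : ℕ → Q → (Fin 2 → ℕ) → Q) (b R K : ℕ) (pos : ℕ → ℕ)
    (W : ℕ → Fin K → List ℕ) (e β γ : Function.End Q) : Prop where
  len : ∀ i < R, ∀ x, pos i + (W i x).length = pos (i + 1)
  dig : ∀ i < R, ∀ x, ∀ d ∈ W i x, d ≤ 1
  lt : ∀ i < R, ∀ x y, x < y → num b (W i x) < num b (W i y)
  map : ∀ i < R, ∀ x y, goT f (pos i) (W i x) (W i y) = tri e β γ x y

def cat {K : ℕ} (W : ℕ → Fin K → List ℕ) (i : ℕ) : ℕ → Fin K → List ℕ
  | 0, _ => []
  | n + 1, x => cat W i n x ++ W (i + n) x

def cat2 {K : ℕ} (W : ℕ → Fin K → List ℕ) (N i : ℕ) : ℕ → Fin K → List ℕ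
  | 0, _ => []
  | n + 1, x => cat2 W N i n x ++
      (cat W (i + 2 * N * n) N x ++ cat W (i + 2 * N * n + N) N (Fin.rev x))

section blocks

variable {f : ℕ → Q → (Fin 2 → ℕ) → Q} {b R K : ℕ} {pos : ℕ → ℕ} {W : ℕ → Fin K → List ℕ}
  {e β γ : Function.End Q} (H : Blocks f b R K pos W e β γ)

include H

theorem cat_len (i n : ℕ) (h : i + n ≤ R) (x : Fin K) :
    pos i + (cat W i n x).length = pos (i + n) := by
  induction n with
  | zero => simp [cat]
  | succ n ih =>
    simp only [cat, List.length_append]
    have h1 := ih (by omega)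
    have h2 := H.len (i + n) (by omega) x
    rw [← add_assoc, h1, h2]
    rfl

theorem cat_length_eq (i n : ℕ) (h : i + n ≤ R) (x y : Fin K) :
    (cat W i n x).length = (cat W i n y).length := by
  have h1 := cat_len H i n h x
  have h2 := cat_len H i n h y
  omega

theorem cat_dig (i n : ℕ) (h : i + n ≤ R) (x : Fin K) : ∀ d ∈ cat W i n x, d ≤ 1 := by
  induction n with
  | zero => intro d hd; simp [cat] at hd
  | succ n ih =>
    intro d hd
    rcases List.mem_append.1 (by simpa only [cat] using hd) with h1 | h1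
    · exact ih (by omega) d h1
    · exact H.dig (i + n) (by omega) x d h1

theorem cat_map (i n : ℕ) (h : i + n ≤ R) (x y : Fin K) :
    goT f (pos i) (cat W i n x) (cat W i n y) = tri e β γ x y ^ n := by
  induction n with
  | zero => simp [cat, goT_nil]
  | succ n ih =>
    simp only [cat]
    rw [goT_append f _ _ _ _ _ (cat_length_eq H i n (by omega) x y), ih (by omega),
      cat_len H i n (by omega), H.map (i + n) (by omega), pow_succ']

theorem cat_lt (hb : 2 ≤ b) (i n : ℕ) (hn : 1 ≤ n) (h : i + n ≤ R) (x y : Fin K) (hxy : x < y) :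
    num b (cat W i n x) < num b (cat W i n y) := by
  induction n, hn using Nat.le_induction with
  | base =>
    show num b ([] ++ W (i + 0) x) < num b ([] ++ W (i + 0) y)
    exact H.lt i (by omega) x y hxy
  | succ n hn ih =>
    simp only [cat]
    refine num_append_left ?_ (fun d hd => ?_) (ih (by omega))
    · have h1 := H.len (i + n) (by omega) x
      have h2 := H.len (i + n) (by omega) y
      omega
    · have := H.dig (i + n) (by omega) x d hd
      omega

theorem cat2_len (N i n : ℕ) (h : i + 2 * N * n ≤ R) (x : Fin K) :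
    pos i + (cat2 W N i n x).length = pos (i + 2 * N * n) := by
  induction n with
  | zero => simp [cat2]
  | succ n ih =>
    have hh : 2 * N * (n + 1) = 2 * N * n + N + N := by ring
    rw [hh] at h
    simp only [cat2, List.length_append]
    have h1 := ih (by omega)
    have h2 := cat_len H (i + 2 * N * n) N (by omega) x
    have h3 := cat_len H (i + 2 * N * n + N) N (by omega) (Fin.rev x)
    rw [hh, show i + (2 * N * n + N + N) = i + 2 * N * n + N + N by ring]
    omega

theorem cat2_dig (N i n : ℕ) (h : i + 2 * N * n ≤ R) (x : Fin K) :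
    ∀ d ∈ cat2 W N i n x, d ≤ 1 := by
  induction n with
  | zero => intro d hd; simp [cat2] at hd
  | succ n ih =>
    have hh : 2 * N * (n + 1) = 2 * N * n + N + N := by ring
    rw [hh] at h
    intro d hd
    rcases List.mem_append.1 (by simpa only [cat2] using hd) with h1 | h1
    · exact ih (by omega) d h1
    · rcases List.mem_append.1 h1 with h1 | h1
      · exact cat_dig H _ _ (by omega) _ d h1
      · exact cat_dig H _ _ (by omega) _ d h1

theorem cat2_map (N i n : ℕ) (h : i + 2 * N * n ≤ R) (x y : Fin K) :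
    goT f (pos i) (cat2 W N i n x) (cat2 W N i n y)
      = (tri e β γ (Fin.rev x) (Fin.rev y) ^ N * tri e β γ x y ^ N) ^ n := by
  induction n with
  | zero => simp [cat2, goT_nil]
  | succ n ih =>
    have hh : 2 * N * (n + 1) = 2 * N * n + N + N := by ring
    rw [hh] at h
    simp only [cat2]
    have e1 : (cat2 W N i n x).length = (cat2 W N i n y).length := by
      have h1 := cat2_len H N i n (by omega) x
      have h2 := cat2_len H N i n (by omega) y
      omega
    rw [goT_append f _ _ _ _ _ e1, ih (by omega), cat2_len H N i n (by omega),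
      goT_append f _ _ _ _ _ (cat_length_eq H _ _ (by omega) x y),
      cat_map H _ _ (by omega), cat_len H _ _ (by omega), cat_map H _ _ (by omega), pow_succ']

end blocks

/-- Number of blocks for `k` digits. -/
def Rk (N k : ℕ) : ℕ := N + k * (N + 2 * N * N)

/-- The nested code. -/
theorem nested {f : ℕ → Q → (Fin 2 → ℕ) → Q} {b R K N : ℕ} {pos : ℕ → ℕ}
    {W : ℕ → Fin K → List ℕ} {e β γ : Function.End Q} (H : Blocks f b R K pos W e β γ)
    (hb : 2 ≤ b) (hN : 1 ≤ N) (hK : 1 ≤ K)
    (hpow : ∀ g : Function.End Q, g ^ N * g ^ N = g ^ N)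
    (h5 : e * e = e) (h6 : e * β = β) (h7 : β * e = β) (h8 : e * γ = γ) (h9 : γ * e = γ) (k : ℕ) :
    ∀ i, i + Rk N k ≤ R → ∃ F : Finset (List ℕ), F.card = K ^ k ∧
      (∀ l ∈ F, pos i + l.length = pos (i + Rk N k)) ∧
      (∀ l ∈ F, ∀ d ∈ l, d ≤ 1) ∧ ∀ l ∈ F, ∀ l' ∈ F,
        (l = l' ∧ goT f (pos i) l l' = e) ∨
          (num b l < num b l' ∧ goT f (pos i) l l' = (γ ^ N * β ^ N) ^ N) ∨
          (num b l' < num b l ∧ goT f (pos i) l l' = (β ^ N * γ ^ N) ^ N) := by
  set B := β ^ N with hB
  set G := γ ^ N with hG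
  set p := (G * B) ^ N with hp
  set q := (B * G) ^ N with hq
  have hBB : B * B = B := hpow _
  have hGG : G * G = G := hpow _
  have heB : e * B = B ∧ B * e = B := neutral_pow h6 h7 hN
  have heG : e * G = G ∧ G * e = G := neutral_pow h8 h9 hN
  have heN : e ^ N = e := idem_pow h5 hN
  have hpp : p * p = p := hpow _
  have hqq : q * q = q := hpow _
  have hpB : p * B = p := absorb hBB hN
  have hqG : q * G = q := absorb hGG hN
  have hqB : q * B = B * p := swap N
  have hpG : p * G = G * q := swap N
  have hep : e * p = p ∧ p * e = p :=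
    neutral_pow (by rw [← mul_assoc, heG.1]) (by rw [mul_assoc, heB.2]) hN
  have heq : e * q = q ∧ q * e = q :=
    neutral_pow (by rw [← mul_assoc, heB.1]) (by rw [mul_assoc, heG.2]) hN
  have hpqB : p * q * B = p := by rw [mul_assoc, hqB, ← mul_assoc, hpB, hpp]
  have hqpG : q * p * G = q := by rw [mul_assoc, hpG, ← mul_assoc, hqG, hqq]
  have triE : ∀ x : Fin K, tri e β γ x x = e := fun x => by simp [tri]
  have triL : ∀ x y : Fin K, x < y → tri e β γ x y = β := fun x y h => by
    simp [tri, h, h.ne]
  have triG : ∀ x y : Fin K, y < x → tri e β γ x y = γ := fun x y h => by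
    simp [tri, h.ne', h.not_gt]
  induction k with
  | zero =>
    intro i hi
    have hi' : i + N ≤ R := by unfold Rk at hi; omega
    have e0 : i + Rk N 0 = i + N := by unfold Rk; omega
    refine ⟨{cat W i N ⟨0, hK⟩}, by simp, ?_, ?_, ?_⟩
    · intro l hl
      rw [mem_singleton.1 hl, cat_len H i N hi', e0]
    · intro l hl
      rw [mem_singleton.1 hl]
      exact cat_dig H i N hi' _
    · intro l hl l' hl'
      rw [mem_singleton.1 hl, mem_singleton.1 hl']
      refine Or.inl ⟨rfl, ?_⟩
      rw [cat_map H i N hi', triE, heN]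
  | succ k ih =>
    intro i hi
    have hRk : Rk N (k + 1) = N + Rk N k + 2 * N * N := by unfold Rk; ring
    rw [hRk] at hi
    obtain ⟨F, hcard, hlen, hdig, hrel⟩ := ih (i + N) (by omega)
    have hposi : ∀ x : Fin K, pos i + (cat W i N x).length = pos (i + N) :=
      fun x => cat_len H i N (by omega) x
    set j := i + N + Rk N k with hj
    have htail : ∀ x : Fin K, pos j + (cat2 W N j N x).length = pos (j + 2 * N * N) :=
      fun x => cat2_len H N j N (by omega) x
    set E : Fin K → List ℕ → List ℕ := fun x r => cat W i N x ++ (r ++ cat2 W N j N x) with hE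
    have hgo : ∀ x y r r', r ∈ F → r' ∈ F → goT f (pos i) (E x r) (E y r')
        = (tri e β γ (Fin.rev x) (Fin.rev y) ^ N * tri e β γ x y ^ N) ^ N *
          goT f (pos (i + N)) r r' * tri e β γ x y ^ N := by
      intro x y r r' hr hr'
      show goT f (pos i) (cat W i N x ++ (r ++ cat2 W N j N x))
        (cat W i N y ++ (r' ++ cat2 W N j N y)) = _
      rw [goT_append f _ _ _ _ _ (cat_length_eq H i N (by omega) x y), hposi,
        goT_append f _ _ _ _ _ (by have := hlen r hr; have := hlen r' hr'; omega), hlen r hr,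
        cat_map H i N (by omega), cat2_map H N j N (by omega)]
    have hsame : ∀ x r r', r ∈ F → r' ∈ F → num b r < num b r' →
        num b (E x r) < num b (E x r') := by
      intro x r r' hr hr' h
      have e1 := hlen r hr
      have e2 := hlen r' hr'
      refine num_append_right ?_ (num_append_left rfl (fun d hd => ?_) h)
      · rw [List.length_append, List.length_append]; omega
      · have := cat2_dig H N j N (by omega) x d hd; omega
    have hdiff : ∀ x y r r', x < y → r ∈ F → r' ∈ F → num b (E x r) < num b (E y r') := by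
      intro x y r r' hxy hr hr'
      have e1 := hlen r hr
      have e2 := hlen r' hr'
      have e3 := htail x
      have e4 := htail y
      refine num_append_left ?_ (fun d hd => ?_) (cat_lt H hb i N hN (by omega) x y hxy)
      · rw [List.length_append, List.length_append]; omega
      · rcases List.mem_append.1 hd with h | h
        · have := hdig r hr d h; omega
        · have := cat2_dig H N j N (by omega) x d h; omega
    have hrel' : ∀ x y r r', r ∈ F → r' ∈ F →
        (E x r = E y r' ∧ x = y ∧ r = r' ∧ goT f (pos i) (E x r) (E y r') = e) ∨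
          (num b (E x r) < num b (E y r') ∧ goT f (pos i) (E x r) (E y r') = p) ∨
          (num b (E y r') < num b (E x r) ∧ goT f (pos i) (E x r) (E y r') = q) := by
      intro x y r r' hr hr'
      have hg := hgo x y r r' hr hr'
      rcases lt_trichotomy x y with hxy | hxy | hxy
      · right; left
        refine ⟨hdiff x y r r' hxy hr hr', ?_⟩
        rw [hg, triL x y hxy, triG _ _ (Fin.rev_lt_rev.2 hxy)]
        rcases hrel r hr r' hr' with ⟨_, hu⟩ | ⟨_, hu⟩ | ⟨_, hu⟩
        · rw [hu, ← hB, ← hG, ← hp, hep.2, hpB]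
        · rw [hu, ← hB, ← hG, ← hp, hpp, hpB]
        · rw [hu, ← hB, ← hG, ← hp, hpqB]
      · subst hxy
        rw [triE, triE, heN, h5, heN] at hg
        rcases hrel r hr r' hr' with ⟨he, hu⟩ | ⟨he, hu⟩ | ⟨he, hu⟩
        · left
          refine ⟨by rw [he], rfl, he, ?_⟩
          rw [hg, hu, h5, h5]
        · right; left
          refine ⟨hsame x r r' hr hr' he, ?_⟩
          rw [hg, hu, hep.1, hep.2]
        · right; right
          refine ⟨hsame x r' r hr' hr he, ?_⟩
          rw [hg, hu, heq.1, heq.2]
      · right; right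
        refine ⟨hdiff y x r' r hxy hr' hr, ?_⟩
        rw [hg, triG x y hxy, triL _ _ (Fin.rev_lt_rev.2 hxy)]
        rcases hrel r hr r' hr' with ⟨_, hu⟩ | ⟨_, hu⟩ | ⟨_, hu⟩
        · rw [hu, ← hB, ← hG, ← hq, heq.2, hqG]
        · rw [hu, ← hB, ← hG, ← hq, hqpG]
        · rw [hu, ← hB, ← hG, ← hq, hqq, hqG]
    refine ⟨(univ ×ˢ F).image (fun z : Fin K × List ℕ => E z.1 z.2), ?_, ?_, ?_, ?_⟩
    · rw [card_image_of_injOn, card_product, card_univ, Fintype.card_fin, hcard, pow_succ']
      intro z hz z' hz' h
      have h' : E z.1 z.2 = E z'.1 z'.2 := h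
      have hz2 := (mem_product.1 (mem_coe.1 hz)).2
      have hz2' := (mem_product.1 (mem_coe.1 hz')).2
      rcases hrel' z.1 z'.1 z.2 z'.2 hz2 hz2' with ⟨_, h1, h2, _⟩ | ⟨h1, _⟩ | ⟨h1, _⟩
      · exact Prod.ext h1 h2
      · rw [h'] at h1; exact absurd h1 (lt_irrefl _)
      · rw [h'] at h1; exact absurd h1 (lt_irrefl _)
    · intro l hl
      obtain ⟨⟨x, r⟩, hz, rfl⟩ := mem_image.1 hl
      have hr := (mem_product.1 hz).2
      have e1 := hlen r hr
      have e2 := hposi x
      have e3 := htail x
      show pos i + (cat W i N x ++ (r ++ cat2 W N j N x)).length = _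
      rw [List.length_append, List.length_append, hRk,
        show i + (N + Rk N k + 2 * N * N) = j + 2 * N * N by rw [hj]; ring]
      omega
    · intro l hl
      obtain ⟨⟨x, r⟩, hz, rfl⟩ := mem_image.1 hl
      have hr := (mem_product.1 hz).2
      intro d hd
      rcases List.mem_append.1 hd with h | h
      · exact cat_dig H i N (by omega) x d h
      · rcases List.mem_append.1 h with h | h
        · exact hdig r hr d h
        · exact cat2_dig H N j N (by omega) x d h
    · intro l hl l' hl'
      obtain ⟨⟨x, r⟩, hz, rfl⟩ := mem_image.1 hl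
      obtain ⟨⟨y, r'⟩, hz', rfl⟩ := mem_image.1 hl'
      rcases hrel' x y r r' (mem_product.1 hz).2 (mem_product.1 hz').2 with
        ⟨h1, _, _, h2⟩ | h | h
      · exact Or.inl ⟨h1, h2⟩
      · exact Or.inr (Or.inl h)
      · exact Or.inr (Or.inr h)

end Pool.Agent.H267R3.PR
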