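import Pool.Agent.H267R3.PR.Add

/-! # Upper bound: homogeneous sets of powers of the base -/

set_option autoImplicit false

namespace Pool.Agent.H267R3.PR

open Finset

variable {Q : Type} [Fintype Q] [DecidableEq Q]

theorem chain (G : ℕ → ℕ → Q → Q) (s0 : Q) (J0 : Finset ℕ) (t : ℕ) :
    ∀ n : ℕ, n * Fintype.card Q ^ t ≤ J0.card →
      ∃ J ⊆ J0, n ≤ J.card ∧ ∃ σ : ℕ → Q, σ 0 = s0 ∧
        ∀ j < t, ∀ i ∈ J, G i j (σ j) = σ (j + 1) := by
  induction t with
  | zero =>
    intro n hn
    refine ⟨J0, Subset.refl _, by simpa using hn, fun _ => s0, rfl, ?_⟩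
    intro j hj
    omega
  | succ t ih =>
    intro n hn
    obtain ⟨J, hJ, hJn, σ, hσ0, hσ⟩ := ih (n * Fintype.card Q) (by rw [pow_succ] at hn; nlinarith)
    haveI : Nonempty Q := ⟨s0⟩
    obtain ⟨q, _, hq⟩ := exists_le_card_fiber_of_mul_le_card_of_maps_to
      (s := J) (t := (univ : Finset Q)) (f := fun i => G i t (σ t)) (n := n)
      (fun _ _ => mem_univ _) univ_nonempty (by rw [card_univ, mul_comm]; exact hJn)
    refine ⟨_, (filter_subset _ _).trans hJ, hq, Function.update σ (t + 1) q, ?_, ?_⟩
    · rw [Function.update_of_ne (by omega)]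
      exact hσ0
    · intro j hj i hi
      rw [mem_filter] at hi
      rcases Nat.lt_succ_iff_lt_or_eq.1 hj with h | h
      · rw [Function.update_of_ne (by omega), Function.update_of_ne (by omega)]
        exact hσ j h i hi.1
      · subst h
        rw [Function.update_of_ne (by omega), Function.update_self]
        exact hi.2

/-- Composition of the steps `a, …, b - 1` of a sequence of maps. -/
def comp (f : ℕ → Q → Q) (a : ℕ) : ℕ → Q → Q
  | 0 => fun q => q
  | b + 1 => if a ≤ b then fun q => f b (comp f a b q) else fun q => q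

theorem comp_self (f : ℕ → Q → Q) (a : ℕ) (q : Q) : comp f a a q = q := by
  cases a with
  | zero => rfl
  | succ a => simp [comp]

theorem comp_succ (f : ℕ → Q → Q) {a b : ℕ} (h : a ≤ b) (q : Q) :
    comp f a (b + 1) q = f b (comp f a b q) := by
  simp [comp, h]

theorem comp_isAdd (f : ℕ → Q → Q) : IsAdd (comp f) := by
  refine ⟨comp_self f, fun a b c hab hbc q => ?_⟩
  induction c, hbc using Nat.le_induction with
  | base => rw [comp_self]
  | succ c hbc ih => rw [comp_succ f (hab.trans hbc), comp_succ f hbc, ih]

theorem digit_pow {b m p t : ℕ} (hb : 2 ≤ b) (hp : p < m) (ht : t < m) :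
    digit b m t (b ^ (m - 1 - p)) = if t = p then 1 else 0 := by
  unfold digit
  rcases lt_trichotomy t p with h | h | h
  · rw [if_neg (by omega), Nat.div_eq_of_lt, Nat.zero_mod]
    exact Nat.pow_lt_pow_right (by omega) (by omega)
  · subst h
    rw [if_pos rfl, Nat.div_self (by positivity), Nat.mod_eq_of_lt (by omega)]
  · rw [if_neg (by omega)]
    have : m - 1 - p = (m - 1 - t) + ((t - p - 1) + 1) := by omega
    rw [this, pow_add, Nat.mul_div_cancel_left _ (by positivity), pow_succ, Nat.mul_mod_left]

/-- Running through zero columns. -/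
theorem run_zero {r : ℕ} (b m : ℕ) (step : ℕ → Q → (Fin r → ℕ) → Q) (start : Q)
    (v : Fin r → ℕ) (a c : ℕ) (hac : a ≤ c)
    (h : ∀ t, a ≤ t → t < c → ∀ i, digit b m t (v i) = 0) :
    run b m step start v c
      = comp (fun t q => step t q (fun _ => 0)) a c (run b m step start v a) := by
  induction c, hac using Nat.le_induction with
  | base => rw [comp_self]
  | succ c hac ih =>
    rw [comp_succ _ hac, ← ih (fun t h1 h2 => h t h1 (by omega))]
    have : (fun i => digit b m c (v i)) = fun _ => 0 := by
      funext i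
      exact h c hac (by omega) i
    show step c _ (fun i => digit b m c (v i)) = _
    rw [this]

theorem core {κ : Type} (b m r n M : ℕ) (hb : 2 ≤ b) (hn : 1 ≤ n) (hM1 : 1 ≤ M)
    (c : Finset ℕ → κ)
    (start : Q) (step : ℕ → Q → (Fin r → ℕ) → Q) (out : Q → κ)
    (hc : ∀ v : Fin r → ℕ, StrictMono v → (∀ i, v i < b ^ m) →
        c (Finset.univ.image v) = out (run b m step start v m))
    (F : ℕ → ℕ → Q → Q) (hF : F = comp (fun t (q : Q) => step t q (fun _ => 0)))
    (cc : ℕ → ℕ) (e : Q → Q)
    (hcc : ∀ i j, i < j → j ≤ 2 * M + 1 → cc i < cc j ∧ F (cc i) (cc j) = e)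
    (hck : cc (2 * M + 1) ≤ m) (J' : Finset ℕ) (hJM : ∀ i ∈ J', i < M) (hJ'n : J'.card = n)
    (σ : ℕ → Q) (hσ0 : σ 0 = F 0 (cc 1) start)
    (hσ : ∀ j < r, ∀ i ∈ J', F (cc (2 * i + 1) + 1) (cc (2 * i + 3))
      (step (cc (2 * i + 1)) (σ j) (fun ν : Fin r => if (Fin.rev ν : ℕ) = j then 1 else 0))
        = σ (j + 1)) :
    ∃ S ⊆ range (b ^ m), S.card = n ∧ Homogeneous r c S := by
  subst hF
  set F := comp (fun t (q : Q) => step t q (fun _ => 0)) with hF
  have hadd : IsAdd F := comp_isAdd _
  have hmono : ∀ i j, i ≤ j → j ≤ 2 * M + 1 → cc i ≤ cc j := by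
    intro i j hij hj
    rcases hij.lt_or_eq with h | h
    · exact (hcc i j h hj).1.le
    · rw [h]
  have hcm : ∀ i, i ≤ 2 * M + 1 → cc i ≤ m := fun i hi =>
    (hmono i _ hi le_rfl).trans hck
  -- `e` is idempotent
  have hee : ∀ q, e (e q) = e q := by
    intro q
    have h1 := hcc 0 1 (by omega) (by omega)
    have h2 := hcc 1 2 (by omega) (by omega)
    have h3 := hcc 0 2 (by omega) (by omega)
    have := hadd.2 (cc 0) (cc 1) (cc 2) h1.1.le h2.1.le q
    rw [h1.2, h2.2, h3.2] at this
    exact this.symm
  -- the marked blocks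
  set G : ℕ → ℕ → Q → Q := fun i j q =>
    F (cc (2 * i + 1) + 1) (cc (2 * i + 3))
      (step (cc (2 * i + 1)) q (fun ν : Fin r => if (Fin.rev ν : ℕ) = j then 1 else 0)) with hG
  have hG1 : ∀ i, i < M → ∀ j q, e (G i j q) = G i j q := by
    intro i hi j q
    have h1 := hcc (2 * i + 1) (2 * i + 2) (by omega) (by omega)
    have h2 := hcc (2 * i + 2) (2 * i + 3) (by omega) (by omega)
    have := hadd.2 (cc (2 * i + 1) + 1) (cc (2 * i + 2)) (cc (2 * i + 3)) h1.1 h2.1.le
      (step (cc (2 * i + 1)) q (fun ν : Fin r => if (Fin.rev ν : ℕ) = j then 1 else 0))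
    rw [h2.2] at this
    rw [hG]
    simp only
    rw [this, hee]
  have hne : J'.Nonempty := by
    rw [← card_pos]; omega
  obtain ⟨i0, hi0⟩ := hne
  have heσ : ∀ j ≤ r, e (σ j) = σ j := by
    intro j hj
    rcases Nat.eq_zero_or_pos j with h | h
    · subst h
      rw [hσ0]
      have h1 := hcc 0 1 (by omega) (by omega)
      have := hadd.2 0 (cc 0) (cc 1) (Nat.zero_le _) h1.1.le start
      rw [h1.2] at this
      rw [this, hee]
    · obtain ⟨j', rfl⟩ : ∃ j', j = j' + 1 := ⟨j - 1, by omega⟩
      rw [← hσ j' (by omega) i0 hi0]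
      exact hG1 i0 (hJM i0 hi0) _ _
  -- the vertices
  set x : ℕ → ℕ := fun i => b ^ (m - 1 - cc (2 * i + 1)) with hx
  have hpos : ∀ i, i < M → cc (2 * i + 1) < m := by
    intro i hi
    exact lt_of_lt_of_le (hcc (2 * i + 1) (2 * i + 2) (by omega) (by omega)).1
      (hcm _ (by omega))
  have hxanti : ∀ i j, i < j → j < M → x j < x i := by
    intro i j hij hj
    have h1 := (hcc (2 * i + 1) (2 * j + 1) (by omega) (by omega)).1
    have h2 := hpos j hj
    exact Nat.pow_lt_pow_right (by omega) (by omega)
  have hxinj : Set.InjOn x J' := by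
    intro i hi j hj hij
    rcases lt_trichotomy i j with h | h | h
    · have := hxanti i j h (hJM j hj); omega
    · exact h
    · have := hxanti j i h (hJM i hi); omega
  refine ⟨J'.image x, ?_, ?_, ?_⟩
  · intro y hy
    obtain ⟨i, hi, rfl⟩ := mem_image.1 hy
    rw [mem_range]
    have := hpos i (hJM i hi)
    exact Nat.pow_lt_pow_right (by omega) (by omega)
  · rw [card_image_of_injOn hxinj, hJ'n]
  -- the colour of every `r`-subset
  have hcol : ∀ A ⊆ J'.image x, A.card = r → c A = out (F (cc (2 * M + 1)) m (σ r)) := by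
    intro A hA hAr
    obtain ⟨I, hI, rfl⟩ : ∃ I ⊆ J', I.image x = A := by
      refine ⟨J'.filter (fun i => x i ∈ A), filter_subset _ _, ?_⟩
      ext y
      rw [mem_image]
      constructor
      · rintro ⟨i, hi, rfl⟩
        exact (mem_filter.1 hi).2
      · intro hy
        obtain ⟨i, hi, rfl⟩ := mem_image.1 (hA hy)
        exact ⟨i, mem_filter.2 ⟨hi, hy⟩, rfl⟩
    have hIr : I.card = r := by
      rw [← hAr, card_image_of_injOn (hxinj.mono (by exact_mod_cast hI))]
    let a := I.orderEmbOfFin hIr
    have haI : ∀ μ, a μ ∈ I := fun μ => orderEmbOfFin_mem I hIr μ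
    have haM : ∀ μ, a μ < M := fun μ => hJM _ (hI (haI μ))
    have hIimg : univ.image (fun ν => a ν) = I := by
      have := image_orderEmbOfFin_univ I hIr
      convert this using 1
    set v : Fin r → ℕ := fun ν => x (a (Fin.rev ν)) with hv
    have hvmono : StrictMono v := by
      intro ν ν' hνν'
      have : a (Fin.rev ν') < a (Fin.rev ν) := a.strictMono (Fin.rev_lt_rev.2 hνν')
      exact hxanti _ _ this (haM _)
    have hvimg : univ.image v = I.image x := by
      rw [← hIimg, image_image]
      ext y
      simp only [mem_image, mem_univ, true_and, Function.comp_apply, hv]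
      constructor
      · rintro ⟨ν, rfl⟩
        exact ⟨_, rfl⟩
      · rintro ⟨μ, rfl⟩
        exact ⟨Fin.rev μ, by rw [Fin.rev_rev]⟩
    have hvlt : ∀ ν, v ν < b ^ m := by
      intro ν
      have := hpos _ (haM (Fin.rev ν))
      exact Nat.pow_lt_pow_right (by omega) (by omega)
    rw [← hvimg, hc v hvmono hvlt]
    congr 1
    have hdig : ∀ t, t < m → ∀ ν, digit b m t (v ν)
        = if t = cc (2 * a (Fin.rev ν) + 1) then 1 else 0 := by
      intro t ht ν
      exact digit_pow hb (hpos _ (haM _)) ht
    -- the number of chosen indices below `i`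
    set cnt : ℕ → ℕ := fun i => (I.filter (fun j => j < i)).card with hcnt
    have hcntle : ∀ i, cnt i ≤ r := by
      intro i
      rw [← hIr]
      exact card_filter_le _ _
    have hcnta : ∀ μ : Fin r, cnt (a μ) = μ := by
      intro μ
      have : I.filter (fun j => j < a μ) = (Finset.Iio μ).image (fun ν => a ν) := by
        ext j
        simp only [mem_filter, mem_image, mem_Iio]
        constructor
        · rintro ⟨h1, h2⟩
          rw [← hIimg] at h1
          obtain ⟨ν, _, rfl⟩ := mem_image.1 h1
          exact ⟨ν, a.lt_iff_lt.1 h2, rfl⟩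
        · rintro ⟨ν, h1, rfl⟩
          exact ⟨haI ν, a.lt_iff_lt.2 h1⟩
      show (I.filter (fun j => j < a μ)).card = _
      rw [this, card_image_of_injective _ (fun _ _ h => a.injective h), Fin.card_Iio]
    have hstate : ∀ i, i ≤ M → run b m step start v (cc (2 * i + 1)) = σ (cnt i) := by
      intro i
      induction i with
      | zero =>
        intro _
        have h0 : cnt 0 = 0 := by simp [hcnt]
        rw [h0, hσ0, hF]
        have := run_zero b m step start v 0 (cc (2 * 0 + 1)) (Nat.zero_le _) ?_
        · rw [this]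
          rfl
        · intro t _ ht ν
          have h1 : cc (2 * 0 + 1) ≤ cc (2 * a (Fin.rev ν) + 1) :=
            hmono _ _ (by omega) (by have := haM (Fin.rev ν); omega)
          have h2 := hcm (2 * 0 + 1) (by omega)
          rw [hdig t (by omega) ν, if_neg (by omega)]
      | succ i ih =>
        intro hi
        have ih' := ih (by omega)
        have hlt12 := (hcc (2 * i + 1) (2 * (i + 1) + 1) (by omega) (by omega)).1
        have hzero : ∀ t, cc (2 * i + 1) < t → t < cc (2 * (i + 1) + 1) →
            ∀ ν, digit b m t (v ν) = 0 := by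
          intro t h1 h2 ν
          have h3 := hcm (2 * (i + 1) + 1) (by omega)
          rw [hdig t (by omega) ν, if_neg]
          intro h4
          rcases Nat.lt_or_ge (a (Fin.rev ν)) (i + 1) with h5 | h5
          · have := hmono (2 * a (Fin.rev ν) + 1) (2 * i + 1) (by omega) (by omega)
            omega
          · have := hmono (2 * (i + 1) + 1) (2 * a (Fin.rev ν) + 1) (by omega)
              (by have := haM (Fin.rev ν); omega)
            omega
        by_cases hiI : i ∈ I
        · -- marked
          obtain ⟨μ, hμ⟩ : ∃ μ, a μ = i := by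
            rw [← hIimg] at hiI
            obtain ⟨μ, _, h⟩ := mem_image.1 hiI
            exact ⟨μ, h⟩
          have hci : cnt i = μ := by rw [← hμ]; exact hcnta μ
          have hci1 : cnt (i + 1) = μ + 1 := by
            have : I.filter (fun j => j < i + 1) = insert i (I.filter (fun j => j < i)) := by
              ext j
              simp only [mem_filter, mem_insert]
              constructor
              · rintro ⟨h1, h2⟩
                rcases Nat.lt_succ_iff_lt_or_eq.1 h2 with h | h
                · exact Or.inr ⟨h1, h⟩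
                · exact Or.inl h
              · rintro (h | ⟨h1, h2⟩)
                · subst h; exact ⟨hiI, by omega⟩
                · exact ⟨h1, by omega⟩
            show (I.filter (fun j => j < i + 1)).card = _
            rw [this, card_insert_of_notMem (by simp)]
            have : (I.filter (fun j => j < i)).card = μ := hci
            omega
          have hcol1 : (fun ν => digit b m (cc (2 * i + 1)) (v ν))
              = fun ν : Fin r => if (Fin.rev ν : ℕ) = (μ : ℕ) then 1 else 0 := by
            funext ν
            rw [hdig _ (hpos i (by omega)) ν]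
            have : (cc (2 * i + 1) = cc (2 * a (Fin.rev ν) + 1)) ↔ ((Fin.rev ν : ℕ) = (μ : ℕ)) := by
              rw [← hμ]
              constructor
              · intro h
                have h2 : a (Fin.rev ν) = a μ := by
                  rcases lt_trichotomy (a (Fin.rev ν)) (a μ) with h3 | h3 | h3
                  · have := (hcc (2 * a (Fin.rev ν) + 1) (2 * a μ + 1) (by omega)
                      (by have := haM μ; omega)).1
                    omega
                  · exact h3
                  · have := (hcc (2 * a μ + 1) (2 * a (Fin.rev ν) + 1) (by omega)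
                      (by have := haM (Fin.rev ν); omega)).1
                    omega
                exact congrArg Fin.val (a.injective h2)
              · intro h
                rw [Fin.ext h]
            by_cases h : (Fin.rev ν : ℕ) = (μ : ℕ)
            · rw [if_pos (this.2 h), if_pos h]
            · rw [if_neg (fun h' => h (this.1 h')), if_neg h]
          rw [run_zero b m step start v (cc (2 * i + 1) + 1) (cc (2 * (i + 1) + 1)) hlt12
            (fun t h1 h2 ν => hzero t (by omega) h2 ν)]
          show F (cc (2 * i + 1) + 1) (cc (2 * (i + 1) + 1))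
            (step (cc (2 * i + 1)) (run b m step start v (cc (2 * i + 1)))
              (fun ν => digit b m (cc (2 * i + 1)) (v ν))) = _
          rw [hcol1, ih', hci, hci1]
          exact hσ μ μ.2 i (hI hiI)
        · -- unmarked
          have hcieq : cnt (i + 1) = cnt i := by
            show (I.filter (fun j => j < i + 1)).card = (I.filter (fun j => j < i)).card
            congr 1
            ext j
            simp only [mem_filter]
            constructor
            · rintro ⟨h1, h2⟩
              refine ⟨h1, ?_⟩
              rcases Nat.lt_succ_iff_lt_or_eq.1 h2 with h | h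
              · exact h
              · subst h; exact absurd h1 hiI
            · rintro ⟨h1, h2⟩
              exact ⟨h1, by omega⟩
          rw [run_zero b m step start v (cc (2 * i + 1)) (cc (2 * (i + 1) + 1)) hlt12.le ?_]
          · rw [ih', hcieq]
            show F (cc (2 * i + 1)) (cc (2 * (i + 1) + 1)) _ = _
            rw [(hcc (2 * i + 1) (2 * (i + 1) + 1) (by omega) (by omega)).2]
            exact heσ _ (hcntle i)
          · intro t h1 h2 ν
            rcases h1.lt_or_eq with h | h
            · exact hzero t h h2 ν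
            · subst h
              rw [hdig _ (hpos i (by omega)) ν, if_neg]
              intro h3
              have h4 : a (Fin.rev ν) = i := by
                rcases lt_trichotomy (a (Fin.rev ν)) i with h5 | h5 | h5
                · have := (hcc (2 * a (Fin.rev ν) + 1) (2 * i + 1) (by omega) (by omega)).1
                  omega
                · exact h5
                · have := (hcc (2 * i + 1) (2 * a (Fin.rev ν) + 1) (by omega)
                    (by have := haM (Fin.rev ν); omega)).1
                  omega
              exact hiI (h4 ▸ haI _)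
    have hcntM : cnt M = r := by
      rw [← hIr]
      show (I.filter (fun j => j < M)).card = I.card
      congr 1
      apply filter_true_of_mem
      intro j hj
      exact hJM j (hI hj)
    rw [run_zero b m step start v (cc (2 * M + 1)) m (hcm _ le_rfl) ?_, hstate M le_rfl, hcntM]
    intro t h1 h2 ν
    rw [hdig t h2 ν, if_neg]
    have := (hcc (2 * a (Fin.rev ν) + 1) (2 * M + 1) (by have := haM (Fin.rev ν); omega) le_rfl).1
    omega
  intro A hA B hB hAr hBr
  rw [hcol A hA hAr, hcol B hB hBr]

theorem upper {κ : Type} (b m r n : ℕ) (hb : 2 ≤ b) (hn : 1 ≤ n) (c : Finset ℕ → κ)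
    (start : Q) (step : ℕ → Q → (Fin r → ℕ) → Q) (out : Q → κ)
    (hc : ∀ v : Fin r → ℕ, StrictMono v → (∀ i, v i < b ^ m) →
        c (Finset.univ.image v) = out (run b m step start v m))
    (hm : (5 * Fintype.card Q ^ (2 * Fintype.card Q + r) * n) ^ Fintype.card Q ≤ m) :
    ∃ S ⊆ range (b ^ m), S.card = n ∧ Homogeneous r c S := by
  haveI : Nonempty Q := ⟨start⟩
  set w := Fintype.card Q with hw
  have hw1 : 1 ≤ w := Fintype.card_pos
  set M := n * w ^ r with hM
  have hM1 : 1 ≤ M := Nat.mul_pos hn (Nat.pow_pos hw1)
  set T := Fintype.card (Q → Q) * Fintype.card (Q → Q) with hT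
  have hTw : T = w ^ (2 * w) := by
    rw [hT, Fintype.card_fun, ← hw, ← pow_add]
    congr 1
    ring
  set K := (2 * M + 1) * T + 2 with hK
  have hKm : K ^ w ≤ m := by
    refine le_trans (Nat.pow_le_pow_left ?_ w) hm
    have h1 : 1 ≤ w ^ (2 * w) := Nat.pow_pos hw1
    have h2 : w ^ (2 * w + r) = w ^ (2 * w) * w ^ r := pow_add _ _ _
    rw [hK, hTw, h2, hM]
    have h3 : 1 ≤ n * w ^ r := hM1
    have h4 : 1 * 1 ≤ w ^ (2 * w) * (n * w ^ r) := Nat.mul_le_mul h1 h3
    have h5 : w ^ (2 * w) * 1 ≤ w ^ (2 * w) * (n * w ^ r) := Nat.mul_le_mul_left _ h3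
    nlinarith
  let F := comp (fun t (q : Q) => step t q (fun _ => 0))
  have hadd : IsAdd F := comp_isAdd _
  obtain ⟨cc, e, hcc, hck⟩ := cuts K (2 * M + 1) (by rw [← hT]; omega) F hadd
  obtain ⟨J, hJ, hJn, σ, hσ0, hσ⟩ := chain (fun i j q =>
    F (cc (2 * i + 1) + 1) (cc (2 * i + 3))
      (step (cc (2 * i + 1)) q (fun ν : Fin r => if (Fin.rev ν : ℕ) = j then 1 else 0)))
    (F 0 (cc 1) start) (range M) r n (by rw [card_range])
  obtain ⟨J', hJ'J, hJ'n⟩ := exists_subset_card_eq hJn
  exact core b m r n M hb hn hM1 c start step out hc F rfl cc e hcc (hck.trans hKm) J'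
    (fun i hi => mem_range.1 (hJ (hJ'J hi))) hJ'n σ hσ0 (fun j hj i hi => hσ j hj i (hJ'J hi))

/-- Powers of a map. -/
theorem iter_idem (f : Q → Q) (x : Q) :
    f^[(Fintype.card Q).factorial] (f^[(Fintype.card Q).factorial] x)
      = f^[(Fintype.card Q).factorial] x := by
  set w := Fintype.card Q with hw
  -- two equal iterates
  obtain ⟨i, j, hij, hj, he⟩ : ∃ i j, i < j ∧ j ≤ w ∧ f^[i] x = f^[j] x := by
    have : Fintype.card Q < Fintype.card (Fin (w + 1)) := by simp [hw]
    obtain ⟨i, j, hne, he⟩ := Fintype.exists_ne_map_eq_of_card_lt (fun i : Fin (w + 1) => f^[i] x)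
      this
    rcases Nat.lt_or_gt_of_ne (fun h => hne (Fin.ext h)) with h | h
    · exact ⟨i, j, h, Nat.lt_succ_iff.1 j.2, he⟩
    · exact ⟨j, i, h, Nat.lt_succ_iff.1 i.2, he.symm⟩
  have hper : ∀ n, i ≤ n → ∀ k, f^[n + k * (j - i)] x = f^[n] x := by
    intro n hn k
    induction k with
    | zero => simp
    | succ k ih =>
      rw [← ih]
      have e1 : n + (k + 1) * (j - i) = (n + k * (j - i) - i) + j := by
        have h1 : (k + 1) * (j - i) = k * (j - i) + (j - i) := by ring
        omega
      have e2 : n + k * (j - i) = (n + k * (j - i) - i) + i := by omega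
      conv_lhs => rw [e1, Function.iterate_add_apply, ← he, ← Function.iterate_add_apply, ← e2]
  have hw1 : 1 ≤ w := by omega
  have hdvd : (j - i) ∣ w.factorial := Nat.dvd_factorial (by omega) (by omega)
  obtain ⟨k, hk⟩ := hdvd
  rw [← Function.iterate_add_apply]
  have hle : i ≤ w.factorial := by
    have := Nat.self_le_factorial w
    omega
  have := hper w.factorial hle k
  rw [mul_comm, ← hk] at this
  exact this

theorem comp_const (f : Q → Q) (a : ℕ) (k : ℕ) (q : Q) :
    comp (fun _ => f) a (a + k) q = f^[k] q := by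
  induction k with
  | zero => exact comp_self _ _ _
  | succ k ih =>
    rw [← add_assoc, comp_succ _ (by omega), ih, Function.iterate_succ_apply']

/-- Finite automata: linear upper bound. -/
theorem upper_auto {κ : Type} (b m r n : ℕ) (hb : 2 ≤ b) (hn : 1 ≤ n) (c : Finset ℕ → κ)
    (start : Q) (step : Q → (Fin r → ℕ) → Q) (out : Q → κ)
    (hc : ∀ v : Fin r → ℕ, StrictMono v → (∀ i, v i < b ^ m) →
        c (Finset.univ.image v) = out (run b m (fun _ => step) start v m))
    (hm : (Fintype.card Q).factorial * (2 * n + 1) ≤ m) :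
    ∃ S ⊆ range (b ^ m), S.card = n ∧ Homogeneous r c S := by
  set L := (Fintype.card Q).factorial with hL
  have hL1 : 1 ≤ L := Nat.factorial_pos _
  set f : Q → Q := fun q => step q (fun _ => 0) with hf
  let F := comp (fun (_ : ℕ) (q : Q) => step q (fun _ : Fin r => 0))
  have hFe : ∀ k, 1 ≤ k → f^[k * L] = f^[L] := by
    intro k hk
    induction k, hk using Nat.le_induction with
    | base => rw [one_mul]
    | succ k _ ih =>
      funext x
      rw [add_mul, one_mul, Function.iterate_add_apply, ih]
      exact iter_idem f x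
  have hcc : ∀ i j, i < j → j ≤ 2 * n + 1 → i * L < j * L ∧ F (i * L) (j * L) = f^[L] := by
    intro i j hij _
    refine ⟨Nat.mul_lt_mul_of_pos_right hij hL1, ?_⟩
    funext q
    have e : j * L = i * L + (j - i) * L := by
      rw [← add_mul]; congr 1; omega
    rw [e]
    exact (comp_const f (i * L) ((j - i) * L) q).trans (by rw [hFe (j - i) (by omega)])
  -- the states
  let σ : ℕ → Q := fun j => Nat.rec (F 0 (1 * L) start) (fun j q => f^[2 * L - 1]
    (step q (fun ν : Fin r => if (Fin.rev ν : ℕ) = j then 1 else 0))) j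
  refine core b m r n n hb hn hn c start (fun _ => step) out hc F rfl (fun i => i * L) (f^[L])
    hcc (by show (2 * n + 1) * L ≤ m; rw [mul_comm]; exact hm) (range n) (fun i hi => mem_range.1 hi)
    (card_range n) σ rfl ?_
  intro j _ i _
  have e : (2 * i + 3) * L = ((2 * i + 1) * L + 1) + (2 * L - 1) := by
    have : (2 * i + 3) * L = (2 * i + 1) * L + 2 * L := by ring
    omega
  show F ((2 * i + 1) * L + 1) ((2 * i + 3) * L) _ = _
  rw [e]
  exact comp_const f _ _ _

end Pool.Agent.H267R3.PR
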