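import Pool.Agent.H267R3.PR.Timed
import Pool.Agent.H267R3.PR.Forest2
import Pool.Agent.H267R3.PR.Upper

/-! # Programs of bounded width: codes on intervals -/

set_option autoImplicit false

namespace Pool.Agent.H267R3.PR

open Finset

theorem num_inj {b : ℕ} : ∀ (l l' : List ℕ), l.length = l'.length → (∀ d ∈ l, d < b) →
    (∀ d ∈ l', d < b) → num b l = num b l' → l = l'
  | [], [], _, _, _, _ => rfl
  | [], _ :: _, h, _, _, _ => by simp at h
  | _ :: _, [], h, _, _, _ => by simp at h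
  | d :: l, d' :: l', h, hd, hd', he => by
    have hl : l.length = l'.length := by simpa using h
    have h1 := num_lt (b := b) (l := l) (fun x hx => hd x (List.mem_cons_of_mem _ hx))
    have h2 := num_lt (b := b) (l := l') (fun x hx => hd' x (List.mem_cons_of_mem _ hx))
    have he' : d * b ^ l.length + num b l = d' * b ^ l'.length + num b l' := he
    rw [← hl] at he' h2
    have hdd : d = d' := by
      rcases lt_trichotomy d d' with h3 | h3 | h3
      · have : (d + 1) * b ^ l.length ≤ d' * b ^ l.length := Nat.mul_le_mul_right _ h3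
        nlinarith
      · exact h3
      · have : (d' + 1) * b ^ l.length ≤ d * b ^ l.length := Nat.mul_le_mul_right _ h3
        nlinarith
    subst hdd
    rw [num_inj l l' hl (fun x hx => hd x (List.mem_cons_of_mem _ hx))
      (fun x hx => hd' x (List.mem_cons_of_mem _ hx)) (by omega)]

variable {Q : Type} [Fintype Q] [DecidableEq Q]

/-- The base blocks: in each block of `ℓ` digits two words with the same diagonal map. -/
structure Base (f : ℕ → Q → (Fin 2 → ℕ) → Q) (b ℓ : ℕ) (u v : ℕ → List ℕ) (dm : ℕ → Q → Q) :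
    Prop where
  lu : ∀ t, (u t).length = ℓ
  lv : ∀ t, (v t).length = ℓ
  du : ∀ t, ∀ d ∈ u t, d ≤ 1
  dv : ∀ t, ∀ d ∈ v t, d ≤ 1
  lt : ∀ t, num b (u t) < num b (v t)
  mu : ∀ t q, goT f (ℓ * t) (u t) (u t) q = dm t q
  mv : ∀ t q, goT f (ℓ * t) (v t) (v t) q = dm t q

theorem exists_base (f : ℕ → Q → (Fin 2 → ℕ) → Q) (b ℓ : ℕ)
    (hb : 2 ≤ b) (hℓ : Fintype.card (Q → Q) < 2 ^ ℓ) : ∃ u v dm, Base f b ℓ u v dm := by
  have key : ∀ t : ℕ, ∃ (x y : List ℕ), x.length = ℓ ∧ y.length = ℓ ∧ (∀ d ∈ x, d ≤ 1) ∧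
      (∀ d ∈ y, d ≤ 1) ∧ num b x < num b y ∧ goT f (ℓ * t) x x = goT f (ℓ * t) y y := by
    intro t
    let wd : (Fin ℓ → Fin 2) → List ℕ := fun z => List.ofFn (fun i => (z i : ℕ))
    have hwl : ∀ z, (wd z).length = ℓ := fun z => by simp [wd]
    have hwd : ∀ z, ∀ d ∈ wd z, d ≤ 1 := by
      intro z d hd
      obtain ⟨i, hi⟩ := List.mem_ofFn.1 hd
      rw [← hi]
      have := (z i).2
      omega
    have hwinj : Function.Injective wd := by
      intro z z' h
      have h1 := List.ofFn_injective h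
      funext i
      exact Fin.ext (congrFun h1 i)
    have hcard2 : Fintype.card (Fin ℓ → Fin 2) = 2 ^ ℓ := by simp
    have hcard : Fintype.card (Q → Q) < Fintype.card (Fin ℓ → Fin 2) := by
      rw [hcard2]
      exact hℓ
    obtain ⟨z, z', hne, he⟩ := Fintype.exists_ne_map_eq_of_card_lt (β := Q → Q)
      (fun z : Fin ℓ → Fin 2 => (show Q → Q from goT f (ℓ * t) (wd z) (wd z))) hcard
    have hne' : num b (wd z) ≠ num b (wd z') := by
      intro h
      refine hne (hwinj (num_inj _ _ ((hwl z).trans (hwl z').symm) ?_ ?_ h))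
      · intro d hd; have := hwd z d hd; omega
      · intro d hd; have := hwd z' d hd; omega
    rcases Nat.lt_or_gt_of_ne hne' with h | h
    · exact ⟨wd z, wd z', hwl _, hwl _, hwd _, hwd _, h, he⟩
    · exact ⟨wd z', wd z, hwl _, hwl _, hwd _, hwd _, h, he.symm⟩
  choose x y h1 h2 h3 h4 h5 h6 using key
  exact ⟨x, y, fun t q => goT f (ℓ * t) (x t) (x t) q, h1, h2, h3, h4, h5, fun _ _ => rfl,
    fun t q => by rw [h6 t]⟩

/-- The default word of `n` blocks from block `i` on. -/
def U (u : ℕ → List ℕ) (i : ℕ) : ℕ → List ℕ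
  | 0 => []
  | n + 1 => U u i n ++ u (i + n)

section base

variable {f : ℕ → Q → (Fin 2 → ℕ) → Q} {b ℓ : ℕ} {u v : ℕ → List ℕ} {dm : ℕ → Q → Q}
  (HB : Base f b ℓ u v dm)

include HB

theorem U_len (i n : ℕ) : (U u i n).length = ℓ * n := by
  induction n with
  | zero => simp [U]
  | succ n ih =>
    simp only [U, List.length_append, ih, HB.lu]
    ring

theorem U_dig (i n : ℕ) : ∀ d ∈ U u i n, d ≤ 1 := by
  induction n with
  | zero => intro d hd; simp [U] at hd
  | succ n ih =>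
    intro d hd
    rcases List.mem_append.1 (by simpa only [U] using hd) with h | h
    · exact ih d h
    · exact HB.du _ d h

theorem U_map (i n : ℕ) (q : Q) : goT f (ℓ * i) (U u i n) (U u i n) q = comp dm i (i + n) q := by
  induction n generalizing q with
  | zero =>
    rw [add_zero, comp_self]
    simp only [U, goT_nil]
    rfl
  | succ n ih =>
    simp only [U]
    rw [goT_append f _ _ _ _ _ rfl, U_len HB, ← add_assoc, comp_succ dm (by omega)]
    show goT f (ℓ * i + ℓ * n) (u (i + n)) (u (i + n)) (goT f (ℓ * i) (U u i n) (U u i n) q) = _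
    rw [ih, ← mul_add, HB.mu]

/-- The composition as an element of the monoid of maps. -/
def FE (dm : ℕ → Q → Q) (i j : ℕ) : Function.End Q := comp dm i j

theorem U_map' (i j : ℕ) (h : i ≤ j) :
    goT f (ℓ * i) (U u i (j - i)) (U u i (j - i)) = FE dm i j := by
  funext q
  rw [U_map HB, show i + (j - i) = j by omega]
  rfl

/-- A word with default words on both sides. -/
def sw (u : ℕ → List ℕ) (i' i j j' : ℕ) (l : List ℕ) : List ℕ :=
  U u i' (i - i') ++ (l ++ U u j (j' - j))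

theorem sw_len {i' i j j' : ℕ} (h1 : i' ≤ i) (h2 : i ≤ j) (h3 : j ≤ j') {l : List ℕ}
    (hl : l.length = ℓ * (j - i)) : (sw u i' i j j' l).length = ℓ * (j' - i') := by
  unfold sw
  rw [List.length_append, List.length_append, U_len HB, U_len HB, hl, ← mul_add, ← mul_add]
  congr 1
  omega

theorem sw_dig {i' i j j' : ℕ} {l : List ℕ} (hl : ∀ d ∈ l, d ≤ 1) :
    ∀ d ∈ sw u i' i j j' l, d ≤ 1 := by
  intro d hd
  rcases List.mem_append.1 hd with h | h
  · exact U_dig HB _ _ d h
  · rcases List.mem_append.1 h with h | h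
    · exact hl d h
    · exact U_dig HB _ _ d h

theorem sw_lt (hb : 2 ≤ b) {i' i j j' : ℕ} {l l' : List ℕ} (hl : l.length = l'.length)
    (h : num b l < num b l') : num b (sw u i' i j j' l) < num b (sw u i' i j j' l') := by
  refine num_append_right ?_ (num_append_left rfl (fun d hd => ?_) h)
  · rw [List.length_append, List.length_append, hl]
  · have := U_dig HB _ _ d hd
    omega

theorem sw_map {i' i j j' : ℕ} (h1 : i' ≤ i) (h2 : i ≤ j) (h3 : j ≤ j') {l l' : List ℕ}
    (hl : l.length = ℓ * (j - i)) (hl' : l'.length = ℓ * (j - i)) :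
    goT f (ℓ * i') (sw u i' i j j' l) (sw u i' i j j' l')
      = FE dm j j' * goT f (ℓ * i) l l' * FE dm i' i := by
  unfold sw
  rw [goT_append f _ _ _ _ _ rfl, U_len HB, ← mul_add, show i' + (i - i') = i by omega,
    U_map' HB i' i h1, goT_append f _ _ _ _ _ (hl.trans hl'.symm), hl, ← mul_add,
    show i + (j - i) = j by omega, U_map' HB j j' h3]

end base

/-- A code on the interval of blocks `[i, j)`. -/
def IsC (f : ℕ → Q → (Fin 2 → ℕ) → Q) (b ℓ : ℕ) (dm : ℕ → Q → Q) (i j : ℕ)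
    (S : Finset (List ℕ)) (β γ : Function.End Q) : Prop :=
  (∀ l ∈ S, l.length = ℓ * (j - i)) ∧ (∀ l ∈ S, ∀ d ∈ l, d ≤ 1) ∧ ∀ l ∈ S, ∀ l' ∈ S,
    (l = l' ∧ goT f (ℓ * i) l l' = FE dm i j) ∨
      (num b l < num b l' ∧ goT f (ℓ * i) l l' = β) ∨
      (num b l' < num b l ∧ goT f (ℓ * i) l l' = γ)

/-- There is a code of size `2 ^ v` on the interval of blocks `[i, j)`. -/
def PP (f : ℕ → Q → (Fin 2 → ℕ) → Q) (b ℓ : ℕ) (dm : ℕ → Q → Q) (i j v : ℕ) : Prop :=
  i ≤ j ∧ ∃ (S : Finset (List ℕ)) (β γ : Function.End Q), S.card = 2 ^ v ∧ IsC f b ℓ dm i j S β γ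

section code

variable {f : ℕ → Q → (Fin 2 → ℕ) → Q} {b ℓ : ℕ} {u v : ℕ → List ℕ} {dm : ℕ → Q → Q}

theorem FE_mul (i j k : ℕ) (h1 : i ≤ j) (h2 : j ≤ k) : FE dm i k = FE dm j k * FE dm i j := by
  have : ∀ q, comp dm i k q = comp dm j k (comp dm i j q) := by
    intro q
    induction k, h2 using Nat.le_induction with
    | base => rw [comp_self]
    | succ k hk ih => rw [comp_succ dm (h1.trans hk), comp_succ dm hk, ih]
  funext q
  exact this q

theorem PP_ext (HB : Base f b ℓ u v dm) (hb : 2 ≤ b) {i j i' j' w : ℕ} (h1 : i' ≤ i) (h3 : j ≤ j')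
    (h : PP f b ℓ dm i j w) : PP f b ℓ dm i' j' w := by
  classical
  obtain ⟨h2, S, β, γ, hcard, hlen, hdig, hrel⟩ := h
  have hlt : ∀ l ∈ S, ∀ l' ∈ S, num b l < num b l' →
      num b (sw u i' i j j' l) < num b (sw u i' i j j' l') := fun l hl l' hl' h =>
    sw_lt HB hb ((hlen l hl).trans (hlen l' hl').symm) h
  refine ⟨by omega, S.image (sw u i' i j j'), FE dm j j' * β * FE dm i' i,
    FE dm j j' * γ * FE dm i' i, ?_, ?_, ?_, ?_⟩
  · rw [card_image_of_injOn, hcard]
    intro l hl l' hl' h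
    rcases hrel l hl l' hl' with ⟨h4, _⟩ | ⟨h4, _⟩ | ⟨h4, _⟩
    · exact h4
    · have := hlt l hl l' hl' h4
      rw [h] at this
      exact absurd this (lt_irrefl _)
    · have := hlt l' hl' l hl h4
      rw [h] at this
      exact absurd this (lt_irrefl _)
  · intro x hx
    obtain ⟨l, hl, rfl⟩ := mem_image.1 hx
    exact sw_len HB h1 h2 h3 (hlen l hl)
  · intro x hx
    obtain ⟨l, hl, rfl⟩ := mem_image.1 hx
    exact sw_dig HB (hdig l hl)
  · intro x hx x' hx'
    obtain ⟨l, hl, rfl⟩ := mem_image.1 hx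
    obtain ⟨l', hl', rfl⟩ := mem_image.1 hx'
    rw [sw_map HB h1 h2 h3 (hlen l hl) (hlen l' hl')]
    rcases hrel l hl l' hl' with ⟨h4, h5⟩ | ⟨h4, h5⟩ | ⟨h4, h5⟩
    · left
      refine ⟨by rw [h4], ?_⟩
      rw [h5, FE_mul i' j j' (h1.trans h2) h3, FE_mul i' i j h1 h2, mul_assoc]
    · right; left
      exact ⟨hlt l hl l' hl' h4, by rw [h5]⟩
    · right; right
      exact ⟨hlt l' hl' l hl h4, by rw [h5]⟩

theorem PP_mono {i j w w' : ℕ} (hw : w' ≤ w) (h : PP f b ℓ dm i j w) : PP f b ℓ dm i j w' := by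
  obtain ⟨h2, S, β, γ, hcard, hlen, hdig, hrel⟩ := h
  obtain ⟨S', hS', hcard'⟩ := exists_subset_card_eq
    (show 2 ^ w' ≤ S.card by rw [hcard]; exact Nat.pow_le_pow_right (by norm_num) hw)
  exact ⟨h2, S', β, γ, hcard', fun l hl => hlen l (hS' hl), fun l hl => hdig l (hS' hl),
    fun l hl l' hl' => hrel l (hS' hl) l' (hS' hl')⟩

theorem PP_base (HB : Base f b ℓ u v dm) (i : ℕ) : PP f b ℓ dm i (i + 1) 1 := by
  classical
  have hFE : FE dm i (i + 1) = dm i := by
    funext q
    show comp dm i (i + 1) q = dm i q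
    rw [comp_succ dm le_rfl, comp_self]
  have hne : u i ≠ v i := by
    intro h
    have := HB.lt i
    rw [h] at this
    exact lt_irrefl _ this
  have hmu : goT f (ℓ * i) (u i) (u i) = FE dm i (i + 1) := by
    rw [hFE]; funext q; exact HB.mu i q
  have hmv : goT f (ℓ * i) (v i) (v i) = FE dm i (i + 1) := by
    rw [hFE]; funext q; exact HB.mv i q
  refine ⟨by omega, {u i, v i}, goT f (ℓ * i) (u i) (v i), goT f (ℓ * i) (v i) (u i), ?_, ?_,
    ?_, ?_⟩
  · rw [card_pair hne]; norm_num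
  · intro l hl
    rw [show i + 1 - i = 1 by omega, mul_one]
    rcases mem_insert.1 hl with h | h
    · rw [h]; exact HB.lu i
    · rw [mem_singleton.1 h]; exact HB.lv i
  · intro l hl
    rcases mem_insert.1 hl with h | h
    · rw [h]; exact HB.du i
    · rw [mem_singleton.1 h]; exact HB.dv i
  · intro l hl l' hl'
    rcases mem_insert.1 hl with h | h <;> rcases mem_insert.1 hl' with h' | h'
    · rw [h, h']; exact Or.inl ⟨rfl, hmu⟩
    · rw [h, mem_singleton.1 h']; exact Or.inr (Or.inl ⟨HB.lt i, rfl⟩)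
    · rw [mem_singleton.1 h, h']; exact Or.inr (Or.inr ⟨HB.lt i, rfl⟩)
    · rw [mem_singleton.1 h, mem_singleton.1 h']; exact Or.inl ⟨rfl, hmv⟩

/-- The words of a code in increasing order. -/
theorem conv {i j K : ℕ} {S : Finset (List ℕ)} {β γ : Function.End Q} (hcard : S.card = K)
    (h : IsC f b ℓ dm i j S β γ) : ∃ W : Fin K → List ℕ, (∀ x, W x ∈ S) ∧
      ∀ x y, x < y → num b (W x) < num b (W y) := by
  classical
  obtain ⟨_, _, hrel⟩ := h
  have hinj : Set.InjOn (num b) S := by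
    intro l hl l' hl' he
    rcases hrel l hl l' hl' with ⟨h4, _⟩ | ⟨h4, _⟩ | ⟨h4, _⟩
    · exact h4
    · omega
    · omega
  have hcard' : (S.image (num b)).card = K := by rw [card_image_of_injOn hinj, hcard]
  let g := (S.image (num b)).orderEmbOfFin hcard'
  have hg : ∀ x, ∃ l ∈ S, num b l = g x := fun x => mem_image.1 (orderEmbOfFin_mem _ hcard' x)
  choose W hW1 hW2 using hg
  refine ⟨W, hW1, fun x y hxy => ?_⟩
  rw [hW2, hW2]
  exact g.strictMono hxy

theorem PP_comb (HB : Base f b ℓ u v dm) (hb : 2 ≤ b) {N C : ℕ}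
    (hN : 1 ≤ N) (hpow : ∀ g : Function.End Q, g ^ N * g ^ N = g ^ N)
    (hC : Fintype.card (Q → Q) * Fintype.card (Q → Q) * (13 * N ^ 2) ≤ C)
    (c : ℕ → ℕ) (K : ℕ) (e : Q → Q) (A : Finset ℕ) (k w : ℕ)
    (hc : ∀ a b, a < b → b ≤ K → c a < c b ∧ comp dm (c a) (c b) = e) (hA : A ⊆ range K)
    (hP : ∀ a ∈ A, PP f b ℓ dm (c a) (c (a + 1)) w) (hk : 1 ≤ k) (hCk : C * k ≤ A.card) :
    PP f b ℓ dm (c 0) (c K) (k * w) := by
  classical
  -- codes
  have hz : ∀ a, ∃ z : Finset (List ℕ) × (Q → Q) × (Q → Q), a ∈ A → z.1.card = 2 ^ w ∧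
      IsC f b ℓ dm (c a) (c (a + 1)) z.1 z.2.1 z.2.2 := by
    intro a
    by_cases ha : a ∈ A
    · obtain ⟨_, S, β, γ, h1, h2⟩ := hP a ha
      exact ⟨(S, β, γ), fun _ => ⟨h1, h2⟩⟩
    · exact ⟨(∅, fun q => q, fun q => q), fun h => absurd h ha⟩
  choose z hz using hz
  -- pigeonhole
  obtain ⟨⟨β0, γ0⟩, _, hfib⟩ := exists_le_card_fiber_of_mul_le_card_of_maps_to
    (s := A) (t := (univ : Finset ((Q → Q) × (Q → Q)))) (f := fun a => (z a).2)
    (n := 13 * N ^ 2 * k) (fun _ _ => mem_univ _)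
    ⟨(fun q => q, fun q => q), mem_univ _⟩ (by
      rw [card_univ, Fintype.card_prod]
      refine le_trans ?_ hCk
      calc Fintype.card (Q → Q) * Fintype.card (Q → Q) * (13 * N ^ 2 * k)
          = Fintype.card (Q → Q) * Fintype.card (Q → Q) * (13 * N ^ 2) * k := by ring
        _ ≤ C * k := Nat.mul_le_mul_right _ hC)
  obtain ⟨A2, hA2, hA2c⟩ := exists_subset_card_eq hfib
  have hA2A : ∀ a ∈ A2, a ∈ A ∧ (z a).2 = (β0, γ0) := fun a ha => mem_filter.1 (hA2 ha)
  set n1 := 13 * N ^ 2 * k with hn1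
  let g := A2.orderEmbOfFin hA2c
  have hgA : ∀ i, g i ∈ A2 := fun i => orderEmbOfFin_mem A2 hA2c i
  set a : ℕ → ℕ := fun i => if hi : i < n1 then g ⟨i, hi⟩ else 0 with ha
  have haA : ∀ i, i < n1 → a i ∈ A2 := by
    intro i hi
    simp only [ha, hi, dif_pos]
    exact hgA _
  have halt : ∀ i j, i < j → j < n1 → a i < a j := by
    intro i j hij hj
    simp only [ha, hj, hij.trans hj, dif_pos]
    exact g.strictMono hij
  have haK : ∀ i, i < n1 → a i < K := fun i hi => mem_range.1 (hA (hA2A _ (haA i hi)).1)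
  set R := Rk N k with hR
  have hRn : 3 * R < n1 := by
    rw [hR, hn1]
    unfold Rk
    have e1 : N ≤ N ^ 2 * k := by nlinarith [Nat.mul_le_mul hN hk]
    have e2 : k * N ≤ N ^ 2 * k := by nlinarith
    have e3 : 1 ≤ N ^ 2 * k := by nlinarith
    nlinarith
  have hcmono : ∀ x y, x ≤ y → y ≤ K → c x ≤ c y := by
    intro x y hxy hy
    rcases hxy.lt_or_eq with h | h
    · exact (hc x y h hy).1.le
    · rw [h]
  have hR1 : 1 ≤ R := by rw [hR]; unfold Rk; omega
  have hee : (show Function.End Q from e) * (show Function.End Q from e) = e := by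
    have h01 := haK 1 (by omega)
    have h00 := halt 0 1 (by omega) (by omega)
    have e1 := (hc 0 1 (by omega) (by omega)).2
    have e2 := (hc 1 2 (by omega) (by omega)).2
    have e3 := (hc 0 2 (by omega) (by omega)).2
    have := FE_mul (dm := dm) (c 0) (c 1) (c 2) (hcmono _ _ (by omega) (by omega))
      (hcmono _ _ (by omega) (by omega))
    unfold FE at this
    rw [e1, e2, e3] at this
    exact this.symm
  -- the words of the codes
  have hWf : ∀ x, ∃ W : Fin (2 ^ w) → List ℕ, x ∈ A → (∀ y, W y ∈ (z x).1) ∧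
      ∀ y y', y < y' → num b (W y) < num b (W y') := by
    intro x
    by_cases hx : x ∈ A
    · obtain ⟨W, hW⟩ := conv (hz x hx).1 (hz x hx).2
      exact ⟨W, fun _ => hW⟩
    · exact ⟨fun _ => [], fun h => absurd h hx⟩
  choose Wf hWf using hWf
  set pos : ℕ → ℕ := fun i => ℓ * c (a (3 * i)) with hpos
  set W : ℕ → Fin (2 ^ w) → List ℕ := fun i x =>
    sw u (c (a (3 * i))) (c (a (3 * i + 1))) (c (a (3 * i + 1) + 1)) (c (a (3 * (i + 1))))
      (Wf (a (3 * i + 1)) x) with hW
  have hfacts : ∀ i < R, c (a (3 * i)) < c (a (3 * i + 1)) ∧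
      c (a (3 * i + 1)) < c (a (3 * i + 1) + 1) ∧
      c (a (3 * i + 1) + 1) < c (a (3 * (i + 1))) ∧
      FE dm (c (a (3 * i))) (c (a (3 * i + 1))) = e ∧
      FE dm (c (a (3 * i + 1))) (c (a (3 * i + 1) + 1)) = e ∧
      FE dm (c (a (3 * i + 1) + 1)) (c (a (3 * (i + 1)))) = e ∧ a (3 * i + 1) ∈ A ∧
      (z (a (3 * i + 1))).2 = (β0, γ0) := by
    intro i hi
    have e1 := halt (3 * i) (3 * i + 1) (by omega) (by omega)
    have e2 := halt (3 * i + 1) (3 * i + 2) (by omega) (by omega)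
    have e3 := halt (3 * i + 2) (3 * (i + 1)) (by omega) (by omega)
    have e4 := haK (3 * (i + 1)) (by omega)
    obtain ⟨h1, h1'⟩ := hc _ _ e1 (by omega)
    obtain ⟨h2, h2'⟩ := hc (a (3 * i + 1)) (a (3 * i + 1) + 1) (by omega) (by omega)
    obtain ⟨h3, h3'⟩ := hc (a (3 * i + 1) + 1) (a (3 * (i + 1))) (by omega) (by omega)
    have h4 := hA2A _ (haA (3 * i + 1) (by omega))
    exact ⟨h1, h2, h3, h1', h2', h3', h4.1, h4.2⟩
  have hB : Blocks f b R (2 ^ w) pos W (show Function.End Q from e)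
      ((show Function.End Q from e) * (show Function.End Q from β0) * (show Function.End Q from e))
      ((show Function.End Q from e) * (show Function.End Q from γ0) *
        (show Function.End Q from e)) := by
    have hlenW : ∀ i < R, ∀ x, (Wf (a (3 * i + 1)) x).length
        = ℓ * (c (a (3 * i + 1) + 1) - c (a (3 * i + 1))) := by
      intro i hi x
      obtain ⟨_, _, _, _, _, _, h7, _⟩ := hfacts i hi
      exact (hz _ h7).2.1 _ ((hWf _ h7).1 x)
    refine ⟨?_, ?_, ?_, ?_⟩
    · intro i hi x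
      obtain ⟨h1, h2, h3, _⟩ := hfacts i hi
      show ℓ * c (a (3 * i)) + (sw u _ _ _ _ _).length = ℓ * c (a (3 * (i + 1)))
      rw [sw_len HB h1.le h2.le h3.le (hlenW i hi x), ← mul_add]
      congr 1
      omega
    · intro i hi x
      obtain ⟨_, _, _, _, _, _, h7, _⟩ := hfacts i hi
      exact sw_dig HB ((hz _ h7).2.2.1 _ ((hWf _ h7).1 x))
    · intro i hi x y hxy
      obtain ⟨_, _, _, _, _, _, h7, _⟩ := hfacts i hi
      exact sw_lt HB hb ((hlenW i hi x).trans (hlenW i hi y).symm) ((hWf _ h7).2 x y hxy)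
    · intro i hi x y
      obtain ⟨h1, h2, h3, h4, h5, h6, h7, h8⟩ := hfacts i hi
      show goT f (ℓ * c (a (3 * i))) (sw u _ _ _ _ _) (sw u _ _ _ _ _) = _
      rw [sw_map HB h1.le h2.le h3.le (hlenW i hi x) (hlenW i hi y), h4, h6]
      have hx := (hWf _ h7).1 x
      have hy := (hWf _ h7).1 y
      have hrel := (hz _ h7).2.2.2 _ hx _ hy
      have hβ : (z (a (3 * i + 1))).2.1 = β0 := by rw [h8]
      have hγ : (z (a (3 * i + 1))).2.2 = γ0 := by rw [h8]
      rcases lt_trichotomy x y with hxy | hxy | hxy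
      · have hlt := (hWf _ h7).2 x y hxy
        rw [tri, if_neg hxy.ne, if_pos hxy]
        rcases hrel with ⟨h9, _⟩ | ⟨_, h9⟩ | ⟨h9, _⟩
        · rw [h9] at hlt; exact absurd hlt (lt_irrefl _)
        · rw [h9, hβ]
        · omega
      · subst hxy
        rw [tri, if_pos rfl]
        rcases hrel with ⟨_, h9⟩ | ⟨h9, _⟩ | ⟨h9, _⟩
        · rw [h9, h5, hee, hee]
        · exact absurd h9 (lt_irrefl _)
        · exact absurd h9 (lt_irrefl _)
      · have hlt := (hWf _ h7).2 y x hxy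
        rw [tri, if_neg hxy.ne', if_neg hxy.not_gt]
        rcases hrel with ⟨h9, _⟩ | ⟨h9, _⟩ | ⟨_, h9⟩
        · rw [h9] at hlt; exact absurd hlt (lt_irrefl _)
        · omega
        · rw [h9, hγ]
  obtain ⟨F4, h41, h42, h43, h44⟩ := nested hB hb hN (Nat.one_le_two_pow) hpow hee
    (by rw [← mul_assoc, ← mul_assoc, hee]) (by rw [mul_assoc, hee])
    (by rw [← mul_assoc, ← mul_assoc, hee]) (by rw [mul_assoc, hee]) k 0 (by omega)
  have e5 : a (3 * 0) < a (3 * R) := halt _ _ (by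
    have : 1 ≤ R := by rw [hR]; unfold Rk; omega
    omega) hRn
  have e6 := haK (3 * R) hRn
  obtain ⟨h7, h8⟩ := hc _ _ e5 e6.le
  have hPP : PP f b ℓ dm (c (a (3 * 0))) (c (a (3 * R))) (k * w) := by
    refine ⟨h7.le, F4, (((show Function.End Q from e) * (show Function.End Q from γ0) *
        (show Function.End Q from e)) ^ N *
      ((show Function.End Q from e) * (show Function.End Q from β0) *
        (show Function.End Q from e)) ^ N) ^ N, (((show Function.End Q from e) * (show Function.End Q from β0) *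
        (show Function.End Q from e)) ^ N *
      ((show Function.End Q from e) * (show Function.End Q from γ0) *
        (show Function.End Q from e)) ^ N) ^ N, ?_, ?_, h43, ?_⟩
    · rw [h41, ← pow_mul, mul_comm]
    · intro l hl
      have h9 := h42 l hl
      have h10 : ℓ * c (a (3 * 0)) + l.length = ℓ * c (a (3 * R)) := by
        rw [zero_add] at h9
        exact h9
      rw [Nat.mul_sub]
      omega
    · intro l hl l' hl'
      rcases h44 l hl l' hl' with ⟨h9, h10⟩ | h9 | h9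
      · left
        refine ⟨h9, ?_⟩
        have : FE dm (c (a (3 * 0))) (c (a (3 * R))) = e := h8
        rw [this]
        exact h10
      · exact Or.inr (Or.inl h9)
      · exact Or.inr (Or.inr h9)
  exact PP_ext HB hb (hcmono _ _ (Nat.zero_le _) (by omega)) (hcmono _ _ (by omega) le_rfl) hPP

end code

end Pool.Agent.H267R3.PR
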