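import Pool.Agent.H267R3.PR.Timed2
import Pool.Agent.H834Q.Merge
import Pool.Agent.H267R3.PR.DefsO

/-! # Colourings of pairs computed in bounded width, any order of the digits -/

set_option autoImplicit false

namespace Pool.Agent.H267R3.PR

open Finset

theorem code_timed {Q : Type} [Fintype Q] [DecidableEq Q] [Nonempty Q] (b m w k : ℕ) (hb : 2 ≤ b)
    (hk : 1 ≤ k)
    (hm : w ^ 2 * (k * (52 * (Finset.Icc 1 w).lcm id ^ 2 * w ^ (2 * w) * (Nat.log 2 m + 1)) ^
      ((w + 1) * (2 * w ^ (2 * w) + 1))) ≤ m) (hQ : Fintype.card Q ≤ w)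
    (f : ℕ → Q → (Fin 2 → ℕ) → Q) :
    ∃ (F : Finset (List ℕ)) (β γ : Function.End Q), F.card = 2 ^ k ∧ (∀ l ∈ F, l.length = m) ∧
      (∀ l ∈ F, ∀ d ∈ l, d < b) ∧ ∀ l ∈ F, ∀ l' ∈ F, l = l' ∨
        (num b l < num b l' ∧ goT f 0 l l' = β) ∨ (num b l' < num b l ∧ goT f 0 l l' = γ) := by
  classical
  have hQ1 : 1 ≤ Fintype.card Q := Fintype.card_pos
  have hw : 1 ≤ w := hQ1.trans hQ
  set N := (Finset.Icc 1 w).lcm id with hNdef
  have hN : 1 ≤ N := by
    rw [Nat.one_le_iff_ne_zero, hNdef, Ne, Finset.lcm_eq_zero_iff]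
    simp
  have hdiv : ∀ d, 1 ≤ d → d ≤ Fintype.card Q → d ∣ N := by
    intro d h1 h2
    exact Finset.dvd_lcm (f := id) (Finset.mem_Icc.2 ⟨h1, h2.trans hQ⟩)
  have hpow : ∀ g : Function.End Q, g ^ N * g ^ N = g ^ N := fun g => pow_idem hN hdiv g
  have hcardQQ : Fintype.card (Q → Q) ≤ w ^ w := by
    rw [Fintype.card_fun]
    exact (Nat.pow_le_pow_left hQ _).trans (Nat.pow_le_pow_right hw hQ)
  have hcard2 : Fintype.card (Q → Q) * Fintype.card (Q → Q) ≤ w ^ (2 * w) := by
    rw [two_mul, pow_add]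
    exact Nat.mul_le_mul hcardQQ hcardQQ
  have hℓ : Fintype.card (Q → Q) < 2 ^ (w ^ 2) := by
    refine lt_of_le_of_lt hcardQQ ?_
    rw [pow_two w, pow_mul]
    exact Nat.pow_lt_pow_left Nat.lt_two_pow_self (by omega)
  obtain ⟨u, v, dm, HB⟩ := exists_base f b (w ^ 2) hb hℓ
  set C := w ^ (2 * w) * (13 * N ^ 2) with hC
  have hwpow : 1 ≤ w ^ (2 * w) := Nat.one_le_pow _ _ hw
  have hC1 : 1 ≤ C := by
    rw [hC]
    have : 1 ≤ N ^ 2 := Nat.one_le_pow _ _ hN
    nlinarith
  set M := m / w ^ 2 with hM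
  set h := (w + 1) * (2 * w ^ (2 * w) + 1) with hh
  set Λ := 52 * N ^ 2 * w ^ (2 * w) * (Nat.log 2 m + 1) with hΛ
  have hw2 : 0 < w ^ 2 := by positivity
  have hkM : k * Λ ^ h ≤ M := by
    rw [hM, Nat.le_div_iff_mul_le hw2, mul_comm]
    exact hm
  have hΛC : 4 * C * (Nat.log 2 M + 1) ≤ Λ := by
    have h1 : Nat.log 2 M ≤ Nat.log 2 m := Nat.log_mono_right (Nat.div_le_self _ _)
    calc 4 * C * (Nat.log 2 M + 1) ≤ 4 * C * (Nat.log 2 m + 1) := by gcongr
      _ = Λ := by rw [hC, hΛ]; ring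
  have hΛ1 : 1 ≤ Λ := le_trans (by nlinarith [Nat.zero_le (Nat.log 2 M)]) hΛC
  have hM1 : 1 ≤ M := le_trans (Nat.mul_pos hk (Nat.pow_pos hΛ1)) hkM
  have hyp : Hyp (comp dm) (PP f b (w ^ 2) dm) M C := by
    refine ⟨comp_isAdd dm, fun i _ => PP_base HB i, fun i j v v' hv hP => PP_mono hv hP,
      fun i j i' j' v h1 _ h3 _ hP => PP_ext HB hb h1 h3 hP, ?_⟩
    intro c K e A k v hc _ hA hP hk hCk
    refine PP_comb HB hb hN hpow ?_ c K e A k v hc hA hP hk hCk
    exact Nat.mul_le_mul_right _ hcard2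
  have hfor := (forest hyp hC1 hΛC hM1).up hΛ1 (show _ ≤ h by
    rw [hh, Fintype.card_prod]
    gcongr)
  obtain ⟨V, _, _, hV3, hV4⟩ := hfor
  have hkV : k ≤ V := by
    rw [Nat.sub_zero] at hV3
    exact Nat.le_of_mul_le_mul_right (hkM.trans hV3) (Nat.pow_pos hΛ1)
  obtain ⟨_, F, β, γ, hcard, hlen, hdig, hrel⟩ := PP_mono hkV hV4
  rw [Nat.sub_zero] at hlen
  rw [mul_zero] at hrel
  have hMm : w ^ 2 * M ≤ m := Nat.mul_div_le _ _
  set P := List.replicate (m - w ^ 2 * M) 0 with hP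
  have hPd : ∀ d ∈ P, d ≤ 1 := by
    intro d hd
    rw [List.eq_of_mem_replicate hd]
    omega
  have hPl : P.length = m - w ^ 2 * M := by simp [hP]
  have hlenP : ∀ l ∈ F, (l ++ P).length = m := by
    intro l hl
    rw [List.length_append, hPl, hlen l hl]
    omega
  have hdP : ∀ l ∈ F, ∀ d ∈ l ++ P, d < b := by
    intro l hl d hd
    rcases List.mem_append.1 hd with h | h
    · have := hdig l hl d h; omega
    · have := hPd d h; omega
  have hord : ∀ l ∈ F, ∀ l' ∈ F, num b l < num b l' → num b (l ++ P) < num b (l' ++ P) :=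
    fun l hl l' hl' h => num_append_left rfl (fun d hd => by have := hPd d hd; omega) h
  have hgo : ∀ l ∈ F, ∀ l' ∈ F, goT f 0 (l ++ P) (l' ++ P)
      = goT f (w ^ 2 * M) P P * goT f 0 l l' := by
    intro l hl l' hl'
    rw [goT_append f 0 _ _ _ _ ((hlen l hl).trans (hlen l' hl').symm), zero_add, hlen l hl]
  refine ⟨F.image (fun l => l ++ P), goT f (w ^ 2 * M) P P * β, goT f (w ^ 2 * M) P P * γ,
    ?_, ?_, ?_, ?_⟩
  · rw [card_image_of_injective _ (fun l l' h => List.append_cancel_right h), hcard]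
  · intro x hx
    obtain ⟨l, hl, rfl⟩ := mem_image.1 hx
    exact hlenP l hl
  · intro x hx
    obtain ⟨l, hl, rfl⟩ := mem_image.1 hx
    exact hdP l hl
  · intro x hx x' hx'
    obtain ⟨l, hl, rfl⟩ := mem_image.1 hx
    obtain ⟨l', hl', rfl⟩ := mem_image.1 hx'
    rw [hgo l hl l' hl']
    rcases hrel l hl l' hl' with ⟨he, _⟩ | ⟨he, h⟩ | ⟨he, h⟩
    · left; rw [he]
    · right; left; exact ⟨hord l hl l' hl' he, by rw [h]⟩
    · right; right; exact ⟨hord l' hl' l hl he, by rw [h]⟩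

/-- Digits of the number with given digits. -/
theorem digit_num {b : ℕ} (hb : 0 < b) : ∀ (l : List ℕ), (∀ d ∈ l, d < b) → ∀ t < l.length,
    digit b l.length t (num b l) = l.getD t 0
  | [], _, t, ht => by simp at ht
  | d :: l, hd, 0, _ => by
    rw [List.length_cons, digit_cons_zero (hd d List.mem_cons_self)
      (fun x hx => hd x (List.mem_cons_of_mem _ hx))]
    rfl
  | d :: l, hd, t + 1, ht => by
    have ht' : t < l.length := by simpa using ht
    rw [List.length_cons, digit_cons_succ hb ht',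
      digit_num hb l (fun x hx => hd x (List.mem_cons_of_mem _ hx)) t ht']
    rfl

theorem pairs_order {κ : Type} (b m w k : ℕ) (hb : 2 ≤ b) (hk : 1 ≤ k)
    (hm : w ^ 2 * (2 * k * (52 * (Finset.Icc 1 w).lcm id ^ 2 * w ^ (2 * w) * (Nat.log 2 m + 1)) ^
      ((w + 1) * (2 * w ^ (2 * w) + 1))) ≤ m) (π : ℕ → ℕ)
    (hπ : Set.BijOn π (Set.Iio m) (Set.Iio m))
    (c : Finset ℕ → κ) (hc : ComputedInOrder b m 2 w π c) :
    ∃ S ⊆ range (b ^ m), S.card = 2 ^ k ∧ Homogeneous 2 c S := by
  classical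
  obtain ⟨Q, _, start, f, out, hQ, hcomp⟩ := hc
  haveI : Nonempty Q := ⟨start⟩
  have hb0 : 0 < b := by omega
  obtain ⟨F, β, γ, hcard, hlen, hdig, hrel⟩ := code_timed b m w (2 * k) hb (by omega) hm hQ f
  -- the inverse of `π`
  have hσ : ∀ p, ∃ s, p < m → s < m ∧ π s = p := by
    intro p
    by_cases hp : p < m
    · obtain ⟨s, hs, he⟩ := hπ.surjOn (Set.mem_Iio.2 hp)
      exact ⟨s, fun _ => ⟨hs, he⟩⟩
    · exact ⟨0, fun h => absurd h hp⟩
  choose σ hσ using hσ
  have hσπ : ∀ t, t < m → σ (π t) = t := by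
    intro t ht
    have h1 := hσ (π t) (hπ.mapsTo (Set.mem_Iio.2 ht))
    exact hπ.injOn (Set.mem_Iio.2 h1.1) (Set.mem_Iio.2 ht) h1.2
  set Lw : List ℕ → List ℕ := fun l => List.ofFn (fun p : Fin m => l.getD (σ p) 0) with hLw
  set V : List ℕ → ℕ := fun l => num b (Lw l) with hV
  have hLwlen : ∀ l, (Lw l).length = m := fun l => by simp [hLw]
  have hLwdig : ∀ l, (∀ d ∈ l, d < b) → ∀ d ∈ Lw l, d < b := by
    intro l hl d hd
    obtain ⟨p, rfl⟩ := List.mem_ofFn.1 hd
    rw [List.getD_eq_getElem?_getD]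
    rcases Nat.lt_or_ge (σ p) l.length with h | h
    · rw [List.getElem?_eq_getElem h]
      exact hl _ (List.getElem_mem h)
    · rw [List.getElem?_eq_none h]
      exact hb0
  have hVlt : ∀ l, (∀ d ∈ l, d < b) → V l < b ^ m := by
    intro l hl
    have := num_lt (hLwdig l hl)
    rwa [hLwlen] at this
  have hVdig : ∀ l, (∀ d ∈ l, d < b) → l.length = m → ∀ t < m,
      digit b m (π t) (V l) = digit b m t (num b l) := by
    intro l hl hlm t ht
    have h1 := hπ.mapsTo (Set.mem_Iio.2 ht)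
    have h2 : π t < m := h1
    have h3 := digit_num hb0 (Lw l) (hLwdig l hl) (π t) (by rw [hLwlen]; exact h2)
    rw [hLwlen] at h3
    have h4 := digit_num hb0 l hl t (by rw [hlm]; exact ht)
    rw [hlm] at h4
    rw [h3, h4, List.getD_eq_getElem _ _ (by rw [hLwlen]; exact h2)]
    simp only [hLw, List.getElem_ofFn]
    rw [hσπ t ht]
  have hrun : ∀ l ∈ F, ∀ l' ∈ F, ∀ t ≤ m,
      runO b m π f start ![V l, V l'] t = run b m f start ![num b l, num b l'] t := by
    intro l hl l' hl' t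
    induction t with
    | zero => intro _; rfl
    | succ t ih =>
      intro ht
      show f t (runO b m π f start ![V l, V l'] t) (fun i => digit b m (π t) (![V l, V l'] i))
        = f t (run b m f start ![num b l, num b l'] t)
            (fun i => digit b m t (![num b l, num b l'] i))
      rw [ih (by omega)]
      congr 1
      funext i
      fin_cases i
      · exact hVdig l (hdig l hl) (hlen l hl) t (by omega)
      · exact hVdig l' (hdig l' hl') (hlen l' hl') t (by omega)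
  have hrun2 : ∀ l ∈ F, ∀ l' ∈ F, runO b m π f start ![V l, V l'] m = goT f 0 l l' start := by
    intro l hl l' hl'
    have h1 := run_eq_goT hb0 f m 0 l l' start (hlen l hl) (hlen l' hl') (hdig l hl) (hdig l' hl')
    have hf0 : (fun t => f (0 + t)) = f := by
      funext t
      rw [zero_add]
    rw [hf0] at h1
    rw [hrun l hl l' hl' m le_rfl, h1]
  have hVinj : ∀ l ∈ F, ∀ l' ∈ F, V l = V l' → num b l = num b l' := by
    intro l hl l' hl' h
    have h1 : l = l' := by
      apply List.ext_getElem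
      · rw [hlen l hl, hlen l' hl']
      · intro t ht ht'
        have htm : t < m := by rw [hlen l hl] at ht; exact ht
        have h2 := hVdig l (hdig l hl) (hlen l hl) t htm
        have h3 := hVdig l' (hdig l' hl') (hlen l' hl') t htm
        have h4 := digit_num hb0 l (hdig l hl) t ht
        have h5 := digit_num hb0 l' (hdig l' hl') t ht'
        rw [hlen l hl] at h4
        rw [hlen l' hl'] at h5
        rw [h] at h2
        rw [List.getD_eq_getElem _ _ ht] at h4
        rw [List.getD_eq_getElem _ _ ht'] at h5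
        rw [← h4, ← h5, ← h2, ← h3]
    rw [h1]
  -- the words in increasing order
  have hinj : Set.InjOn (num b) F := by
    intro l hl l' hl' he
    rcases hrel l hl l' hl' with h | ⟨h, _⟩ | ⟨h, _⟩
    · exact h
    · omega
    · omega
  have hcard' : (F.image (num b)).card = 2 ^ (2 * k) := by rw [card_image_of_injOn hinj, hcard]
  let g := (F.image (num b)).orderEmbOfFin hcard'
  have hg : ∀ x : ℕ, ∃ l, ∀ hx : x < 2 ^ (2 * k), l ∈ F ∧ num b l = g ⟨x, hx⟩ := by
    intro x
    by_cases hx : x < 2 ^ (2 * k)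
    · obtain ⟨l, h1, h2⟩ := mem_image.1 (orderEmbOfFin_mem _ hcard' ⟨x, hx⟩)
      exact ⟨l, fun _ => ⟨h1, h2⟩⟩
    · exact ⟨[], fun h => absurd h hx⟩
  choose W hW using hg
  have hWlt : ∀ x y, x < y → y < 2 ^ (2 * k) → num b (W x) < num b (W y) := by
    intro x y hxy hy
    rw [(hW x (hxy.trans hy)).2, (hW y hy).2]
    exact g.strictMono hxy
  have hWgo : ∀ x y, x < y → y < 2 ^ (2 * k) →
      goT f 0 (W x) (W y) = β ∧ goT f 0 (W y) (W x) = γ := by
    intro x y hxy hy
    have hx : x < 2 ^ (2 * k) := hxy.trans hy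
    have hlt := hWlt x y hxy hy
    constructor
    · rcases hrel _ (hW x hx).1 _ (hW y hy).1 with h | ⟨_, h⟩ | ⟨h, _⟩
      · rw [h] at hlt; exact absurd hlt (lt_irrefl _)
      · exact h
      · omega
    · rcases hrel _ (hW y hy).1 _ (hW x hx).1 with h | ⟨h, _⟩ | ⟨_, h⟩
      · rw [h] at hlt; exact absurd hlt (lt_irrefl _)
      · omega
      · exact h
  have hVne : ∀ x y, x < y → y < 2 ^ (2 * k) → V (W x) ≠ V (W y) := by
    intro x y hxy hy h
    have h1 := hVinj _ (hW x (hxy.trans hy)).1 _ (hW y hy).1 h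
    have h2 := hWlt x y hxy hy
    omega
  -- colours of pairs
  have hpair : ∀ l ∈ F, ∀ l' ∈ F, V l < V l' → c {V l, V l'} = out (goT f 0 l l' start) := by
    intro l hl l' hl' hlt
    have himg : univ.image ![V l, V l'] = {V l, V l'} := by
      ext z
      simp [Fin.exists_fin_two, eq_comm]
    have hmono : StrictMono ![V l, V l'] := by
      intro i j hij
      fin_cases i <;> fin_cases j
      · exact absurd hij (lt_irrefl _)
      · exact hlt
      · exact absurd hij (by decide)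
      · exact absurd hij (lt_irrefl _)
    have hltm : ∀ i, ![V l, V l'] i < b ^ m := by
      intro i
      fin_cases i
      · exact hVlt l (hdig l hl)
      · exact hVlt l' (hdig l' hl')
    rw [← himg, hcomp ![V l, V l'] hmono hltm, hrun2 l hl l' hl']
  have hfin : ∀ T ⊆ range (2 ^ (2 * k)), T.card = 2 ^ k → ∀ col : κ,
      (∀ x ∈ T, ∀ y ∈ T, x < y → c {V (W x), V (W y)} = col) →
      ∃ S ⊆ range (b ^ m), S.card = 2 ^ k ∧ Homogeneous 2 c S := by
    intro T hT hTc col hcol
    have hinjT : Set.InjOn (fun x => V (W x)) T := by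
      intro x hx y hy h
      have h' : V (W x) = V (W y) := h
      have hx' := mem_range.1 (hT hx)
      have hy' := mem_range.1 (hT hy)
      rcases lt_trichotomy x y with h1 | h1 | h1
      · exact absurd h' (hVne x y h1 hy')
      · exact h1
      · exact absurd h'.symm (hVne y x h1 hx')
    refine ⟨T.image (fun x => V (W x)), ?_, by rw [card_image_of_injOn hinjT, hTc], ?_⟩
    · intro z hz
      obtain ⟨x, hx, rfl⟩ := mem_image.1 hz
      exact mem_range.2 (hVlt _ (hdig _ (hW x (mem_range.1 (hT hx))).1))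
    · have key : ∀ A ⊆ T.image (fun x => V (W x)), A.card = 2 → c A = col := by
        intro A hA hA2
        obtain ⟨p, q, hpq, rfl⟩ := card_eq_two.1 hA2
        obtain ⟨x, hx, rfl⟩ := mem_image.1 (hA (mem_insert_self p {q}))
        obtain ⟨y, hy, rfl⟩ := mem_image.1 (hA (mem_insert_of_mem (mem_singleton_self q)))
        have hne : x ≠ y := fun h => hpq (by rw [h])
        rcases Nat.lt_or_gt_of_ne hne with h1 | h1
        · exact hcol x hx y hy h1
        · rw [pair_comm]
          exact hcol y hy x hx h1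
      intro A hA B hB hA2 hB2
      rw [key A hA hA2, key B hB hB2]
  -- chains and antichains
  obtain ⟨n, hn⟩ : ∃ n, 2 ^ k = n + 1 := ⟨2 ^ k - 1, by have := Nat.one_le_two_pow (n := k); omega⟩
  have hnn : n * n < (range (2 ^ (2 * k))).card := by
    rw [card_range, two_mul, pow_add, hn]
    nlinarith
  rcases Pool.Agent.H834Q.mirsky (R := fun x y => x < y ∧ V (W x) < V (W y)) (fun p q h => h.1)
    (fun p q s h1 h2 => ⟨h1.1.trans h2.1, h1.2.trans h2.2⟩) n n (range (2 ^ (2 * k))) hnn with h | h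
  · obtain ⟨T, h1, h2, h3⟩ := h
    refine hfin T h1 (by rw [h2, hn]) (out (β start)) ?_
    intro x hx y hy hxy
    have hy' := mem_range.1 (h1 hy)
    rw [hpair _ (hW x (hxy.trans hy')).1 _ (hW y hy').1 (h3 x hx y hy hxy).2,
      (hWgo x y hxy hy').1]
  · obtain ⟨A, h1, h2, h3⟩ := h
    obtain ⟨T, hT, hTc⟩ := exists_subset_card_eq (s := A) (n := 2 ^ k) (by omega)
    refine hfin T (hT.trans h1) hTc (out (γ start)) ?_
    intro x hx y hy hxy
    have hy' := mem_range.1 (h1 (hT hy))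
    have hx' := hxy.trans hy'
    have hlt : V (W y) < V (W x) := by
      rcases Nat.lt_or_gt_of_ne (hVne x y hxy hy') with h5 | h5
      · exact absurd ⟨hxy, h5⟩ (h3 x (hT hx) y (hT hy))
      · exact h5
    rw [pair_comm, hpair _ (hW y hy').1 _ (hW x hx').1 hlt, (hWgo x y hxy hy').2]

end Pool.Agent.H267R3.PR
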